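import Pool.Graph.R_pool_sql_team_seeded_3dad9d7b.NH3.XD.Gen
import Pool.Graph.R_pool_sql_team_seeded_3dad9d7b.NH3.XD.Dens
import Pool.Graph.R_pool_sql_team_seeded_3dad9d7b.NH4.XJ.Fin
import Pool.Graph.R_pool_sql_team_seeded_3dad9d7b.NH4.XG.Stm
import Pool.Graph.R_pool_sql_team_seeded_3dad9d7b.NH57.SQ.Den

/-!
# The kernel of the Rédei matrix in terms of divisors, and its law
-/

set_option autoImplicit false

open scoped Classical

namespace Pool.Agent.H464.XB

open Finset Filter Topology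
open Pool.Agent.Y703.CQ (nr)
open Pool.Agent.XV (gen Kr)
open Pool.Agent.Z700 (pr)
open Pool.Agent.NH3.XD (Sol prod_jac)

theorem sol_gen {N : Finset ℕ} (hN : ∀ p ∈ N, p.Prime ∧ p ≠ 2) {D : Finset ℕ} (hD : D ⊆ N) :
    Sol N (fun q => if q ∈ D then 1 else 0) ↔ ∀ p ∈ N, gen N D p = 1 := by
  have key : ∀ p ∈ N, (gen N D p = 1 ↔
      ∑ q ∈ N, nr p q * ((if q ∈ D then (1 : ZMod 2) else 0) + if p ∈ D then 1 else 0) = 0) := by
    intro p hp
    unfold gen
    by_cases h : p ∈ D
    · rw [if_pos h, prod_jac (hN p hp).1 (hN p hp).2 (N \ D) fun q hq =>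
        ⟨(hN q (mem_sdiff.1 hq).1).1, fun hqp => (mem_sdiff.1 hq).2 (hqp ▸ h)⟩]
      have e : ∑ q ∈ N, nr p q * ((if q ∈ D then (1 : ZMod 2) else 0) + if p ∈ D then 1 else 0) =
          ∑ q ∈ N \ D, nr p q := by
        rw [← sum_sdiff hD]
        have e1 : ∑ q ∈ D, nr p q * ((if q ∈ D then (1 : ZMod 2) else 0) + if p ∈ D then 1 else 0) =
            0 := by
          refine sum_eq_zero fun q hq => ?_
          rw [if_pos hq, if_pos h]
          have : (1 : ZMod 2) + 1 = 0 := rfl
          rw [this, mul_zero]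
        rw [e1, add_zero]
        refine sum_congr rfl fun q hq => ?_
        rw [if_neg (mem_sdiff.1 hq).2, if_pos h, zero_add, mul_one]
      rw [e]
      split_ifs with h3 <;> simp [h3]
    · rw [if_neg h, prod_jac (hN p hp).1 (hN p hp).2 D fun q hq =>
        ⟨(hN q (hD hq)).1, fun hqp => h (hqp ▸ hq)⟩]
      have e : ∑ q ∈ N, nr p q * ((if q ∈ D then (1 : ZMod 2) else 0) + if p ∈ D then 1 else 0) =
          ∑ q ∈ D, nr p q := by
        rw [← sum_sdiff hD]
        have e1 : ∑ q ∈ N \ D, nr p q *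
            ((if q ∈ D then (1 : ZMod 2) else 0) + if p ∈ D then 1 else 0) = 0 := by
          refine sum_eq_zero fun q hq => ?_
          rw [if_neg (mem_sdiff.1 hq).2, if_neg h, add_zero, mul_zero]
        rw [e1, zero_add]
        refine sum_congr rfl fun q hq => ?_
        rw [if_pos hq, if_neg h, add_zero, mul_one]
      rw [e]
      split_ifs with h3 <;> simp [h3]
  constructor
  · intro h p hp
    exact (key p hp).2 (h p hp)
  · intro h p hp
    exact (key p hp).1 (h p hp)

/-- the condition on the divisors -/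
def Red (n d : ℕ) : Prop := d ∣ n ∧
  (∀ p : ℕ, p.Prime → p ∣ n → ¬ p ∣ d → jacobiSym d p = 1) ∧
  (∀ p : ℕ, p.Prime → p ∣ d → jacobiSym ((n / d : ℕ) : ℤ) p = 1)

theorem pr_pf' {n : ℕ} (hs : Squarefree n) : pr n.primeFactors = n :=
  Nat.prod_primeFactors_of_squarefree hs

theorem pr_sdiff {N D : Finset ℕ} (hN : ∀ p ∈ N, p.Prime) (hD : D ⊆ N) :
    pr N / pr D = pr (N \ D) := by
  have h : pr N = pr (N \ D) * pr D := (Finset.prod_sdiff hD).symm
  have h0 : 0 < pr D := Finset.prod_pos fun p hp => (hN p (hD hp)).pos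
  rw [h, Nat.mul_div_cancel _ h0]

theorem mem_iff_dvd {D : Finset ℕ} (hD : ∀ p ∈ D, p.Prime) {p : ℕ} (hp : p.Prime) :
    p ∣ pr D ↔ p ∈ D := by
  constructor
  · intro h
    obtain ⟨q, hq, hd⟩ := (hp.prime.dvd_finsetProd_iff _).1 h
    rwa [(Nat.prime_dvd_prime_iff_eq hp (hD q hq)).1 hd]
  · intro h
    exact Finset.dvd_prod_of_mem _ h

theorem red_iff {n : ℕ} (hs : Squarefree n) {D : Finset ℕ} (hD : D ⊆ n.primeFactors) :
    Red n (pr D) ↔ ∀ p ∈ n.primeFactors, gen n.primeFactors D p = 1 := by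
  have hP : ∀ p ∈ n.primeFactors, p.Prime := fun p hp => Nat.prime_of_mem_primeFactors hp
  have hPD : ∀ p ∈ D, p.Prime := fun p hp => hP p (hD hp)
  have hn : n / pr D = pr (n.primeFactors \ D) := by
    conv_lhs => rw [← pr_pf' hs]
    exact pr_sdiff hP hD
  constructor
  · rintro ⟨-, h2, h3⟩ p hp
    have hpp := hP p hp
    unfold gen
    by_cases h : p ∈ D
    · rw [if_pos h, ← hn]
      exact h3 p hpp ((mem_iff_dvd hPD hpp).2 h)
    · rw [if_neg h]
      exact h2 p hpp (Nat.dvd_of_mem_primeFactors hp) fun hd => h ((mem_iff_dvd hPD hpp).1 hd)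
  · intro h
    refine ⟨?_, ?_, ?_⟩
    · conv_rhs => rw [← pr_pf' hs]
      exact Finset.prod_dvd_prod_of_subset _ _ _ hD
    · intro p hp hd hnd
      have hm : p ∈ n.primeFactors := Nat.mem_primeFactors.2 ⟨hp, hd, hs.ne_zero⟩
      have h1 := h p hm
      unfold gen at h1
      rwa [if_neg fun hh => hnd ((mem_iff_dvd hPD hp).2 hh)] at h1
    · intro p hp hd
      have hm := (mem_iff_dvd hPD hp).1 hd
      have h1 := h p (hD hm)
      unfold gen at h1
      rw [if_pos hm] at h1
      rw [hn]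
      exact h1

/-- the number of the divisors -/
theorem card_red {n : ℕ} (hs : Squarefree n) (hodd : n % 2 = 1) :
    Nat.card {d : ℕ // Red n d} = Pool.Agent.NH4.XJ.nx n.primeFactors := by
  have hP : ∀ p ∈ n.primeFactors, p.Prime ∧ p ≠ 2 := fun p hp =>
    ⟨Nat.prime_of_mem_primeFactors hp, by
      rintro rfl
      have := Nat.dvd_of_mem_primeFactors hp
      omega⟩
  have hP' : ∀ p ∈ n.primeFactors, p.Prime := fun p hp => (hP p hp).1
  unfold Pool.Agent.NH4.XJ.nx
  have hpf : ∀ {d : ℕ}, d ∣ n → pr d.primeFactors = d := fun hd => pr_pf' (hs.squarefree_of_dvd hd)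
  have hsub : ∀ {d : ℕ}, d ∣ n → d.primeFactors ⊆ n.primeFactors := fun hd =>
    Nat.primeFactors_mono hd hs.ne_zero
  have hpr : ∀ {T : Finset ℕ}, T ⊆ n.primeFactors → (pr T).primeFactors = T := fun {T} hT =>
    Nat.primeFactors_prod fun p hp => hP' p (hT hp)
  let e : {d : ℕ // Red n d} ≃ {T // T ∈ n.primeFactors.powerset.filter fun T =>
      Sol n.primeFactors fun p => if p ∈ T then 1 else 0} :=
    { toFun := fun d => ⟨d.1.primeFactors, by
        rw [mem_filter, mem_powerset]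
        refine ⟨hsub d.2.1, ?_⟩
        rw [sol_gen hP (hsub d.2.1), ← red_iff hs (hsub d.2.1), hpf d.2.1]
        exact d.2⟩
      invFun := fun T => ⟨pr T.1, by
        have h := mem_filter.1 T.2
        rw [mem_powerset] at h
        rw [red_iff hs h.1, ← sol_gen hP h.1]
        exact h.2⟩
      left_inv := fun d => Subtype.ext (hpf d.2.1)
      right_inv := fun T => Subtype.ext (hpr (mem_powerset.1 (mem_filter.1 T.2).1)) }
  rw [Nat.card_congr e, Nat.card_eq_fintype_card, Fintype.card_coe]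

/-- the criterion -/
theorem kr_red {n : ℕ} (hs : Squarefree n) :
    Kr n.primeFactors ↔ ∀ d, Red n d → d = 1 ∨ d = n := by
  have hP' : ∀ p ∈ n.primeFactors, p.Prime := fun p hp => Nat.prime_of_mem_primeFactors hp
  have hpf : ∀ {d : ℕ}, d ∣ n → pr d.primeFactors = d := fun hd => pr_pf' (hs.squarefree_of_dvd hd)
  have hsub : ∀ {d : ℕ}, d ∣ n → d.primeFactors ⊆ n.primeFactors := fun hd =>
    Nat.primeFactors_mono hd hs.ne_zero
  have hpr : ∀ {T : Finset ℕ}, T ⊆ n.primeFactors → (pr T).primeFactors = T := fun {T} hT =>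
    Nat.primeFactors_prod fun p hp => hP' p (hT hp)
  constructor
  · intro h d hd
    have h1 := h d.primeFactors (hsub hd.1) ((red_iff hs (hsub hd.1)).1 (by rw [hpf hd.1]; exact hd))
    rcases h1 with h1 | h1
    · left
      rw [← hpf hd.1, h1]
      rfl
    · right
      rw [← hpf hd.1, h1, pr_pf' hs]
  · intro h D hD hg
    have h1 := h (pr D) ((red_iff hs hD).2 hg)
    rcases h1 with h1 | h1
    · left
      rw [← hpr hD, h1, Nat.primeFactors_one]
    · right
      rw [← hpr hD, h1]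

/-- the trivial divisors -/
theorem red_one {n : ℕ} (hs : Squarefree n) : Red n 1 ∧ Red n n := by
  have hP' : ∀ p ∈ n.primeFactors, p.Prime := fun p hp => Nat.prime_of_mem_primeFactors hp
  constructor
  · refine ⟨one_dvd _, fun p _ _ _ => by simp, fun p hp hd => ?_⟩
    exact absurd (Nat.dvd_one.1 hd) hp.one_lt.ne'
  · refine ⟨dvd_refl _, fun p _ hd hnd => absurd hd hnd, fun p hp _ => ?_⟩
    rw [Nat.div_self (Nat.pos_of_ne_zero hs.ne_zero)]
    simp

theorem card_two {n : ℕ} (hs : Squarefree n) (hn : 1 < n) :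
    Nat.card {d : ℕ // Red n d} = 2 ↔ ∀ d, Red n d → d = 1 ∨ d = n := by
  obtain ⟨h1, h2⟩ := red_one hs
  constructor
  · intro h d hd
    have : Finite {d : ℕ // Red n d} := Nat.finite_of_card_ne_zero (by omega)
    have := Fintype.ofFinite {d : ℕ // Red n d}
    rw [Nat.card_eq_fintype_card] at h
    by_contra hcon
    rw [not_or] at hcon
    have h3 : ({⟨1, h1⟩, ⟨n, h2⟩, ⟨d, hd⟩} : Finset {d : ℕ // Red n d}).card ≤ 2 := by
      rw [← h]
      exact Finset.card_le_univ _
    rw [Finset.card_insert_of_notMem, Finset.card_insert_of_notMem, Finset.card_singleton] at h3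
    · omega
    · rw [Finset.mem_singleton]
      intro he
      exact hcon.2 (congrArg Subtype.val he).symm
    · rw [Finset.mem_insert, Finset.mem_singleton]
      rintro (he | he)
      · have := congrArg Subtype.val he
        simp only at this
        omega
      · exact hcon.1 (congrArg Subtype.val he).symm
  · intro h
    rw [Nat.card_eq_two_iff]
    refine ⟨⟨1, h1⟩, ⟨n, h2⟩, ?_, ?_⟩
    · intro he
      have := congrArg Subtype.val he
      simp only at this
      omega
    · ext d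
      simp only [Set.mem_insert_iff, Set.mem_singleton_iff, Set.mem_univ, iff_true]
      rcases h d.1 d.2 with h3 | h3
      · exact Or.inl (Subtype.ext h3)
      · exact Or.inr (Subtype.ext h3)

/-- the two counts for `n = 3 mod 4` -/
theorem nx_eq {n : ℕ} (hs : Squarefree n) (h4 : n % 4 = 3) :
    Pool.Agent.NH4.XG.nx n.primeFactors = Pool.Agent.NH4.XJ.nx n.primeFactors := by
  have h2 : 2 ∉ n.primeFactors := fun h => by
    have := Nat.dvd_of_mem_primeFactors h
    omega
  have hR : Pool.Agent.NH4.XG.Ram n.primeFactors = n.primeFactors := by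
    unfold Pool.Agent.NH4.XG.Ram
    rw [if_pos]
    have := pr_pf' hs
    unfold pr at this
    rw [this]
    exact h4
  unfold Pool.Agent.NH4.XG.nx Pool.Agent.NH4.XJ.nx
  rw [hR]
  refine Pool.Agent.NH3.XD.card_iff fun T hT => ?_
  have hT2 : 2 ∉ T := fun h => h2 (mem_powerset.1 hT h)
  unfold Pool.Agent.NH4.XG.SolG Sol
  rw [erase_eq_of_notMem h2]
  refine forall₂_congr fun p _ => ?_
  simp only [h2, hT2, if_false, mul_zero, add_zero]

/-! ### the law -/

/-- the probabilities -/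
noncomputable def law (r : ℕ) : ℝ := (1 / 2 : ℝ) ^ (r ^ 2) /
  (∏ i ∈ range r, (1 - (1 / 2 : ℝ) ^ (i + 1))) * ∏' i : ℕ, (1 - (1 / 2 : ℝ) ^ (r + i + 1))

theorem law_eq (r : ℕ) : Pool.Agent.NH4.PJ.law 0 r = law r := by
  unfold Pool.Agent.NH4.PJ.law law
  congr 1
  · congr 1
    rw [mul_zero, zero_sub, zpow_neg, one_div, inv_pow]
    norm_cast
  · refine tprod_congr fun i => ?_
    congr 1
    rw [show (0 - (r : ℤ) - ((i : ℤ) + 1)) = -((r + i + 1 : ℕ) : ℤ) by push_cast; ring, zpow_neg,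
      zpow_natCast, one_div, inv_pow]

/-- the number of the `n ≤ X`, squarefree and `≡ 23, 47 mod 60`, with a property -/
noncomputable def cF (P : ℕ → Prop) (X : ℕ) : ℕ :=
  ((Icc 1 X).filter fun n => (Squarefree n ∧ (n % 60 = 23 ∨ n % 60 = 47)) ∧ P n).card

theorem cF_eq (P : ℕ → Prop) (X : ℕ) : (cF P X : ℝ) = ∑ r ∈ ({23, 47} : Finset ℕ),
    (((Icc 1 X).filter fun N => Squarefree N ∧ N % 60 = r ∧ P N).card : ℝ) := by
  have h := Pool.Agent.NH3.XD.cN_eq 60 {23, 47} P X
  rw [← Nat.cast_sum, ← h]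
  unfold cF Pool.Agent.NH3.XD.cN
  congr 1
  refine Pool.Agent.NH3.XD.card_iff fun n _ => ?_
  simp only [mem_insert, mem_singleton]
  tauto

theorem law_cF (r : ℕ) : Tendsto (fun X : ℕ =>
    (cF (fun n => Pool.Agent.NH4.XJ.nx n.primeFactors = 2 ^ (r + 1)) X : ℝ) /
      (cF (fun _ => True) X : ℝ)) atTop (𝓝 (law r)) := by
  have h := Pool.Agent.NH3.XD.ratio_sum ({23, 47} : Finset ℕ) (by simp)
    (fun t X => (((Icc 1 X).filter fun N => Squarefree N ∧ N % 60 = t ∧
      Pool.Agent.NH4.XJ.nx N.primeFactors = 2 ^ (r + 1)).card : ℝ))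
    (fun t X => (((Icc 1 X).filter fun N => Squarefree N ∧ N % 60 = t).card : ℝ)) (law r) ?_ ?_
  · refine h.congr fun X => ?_
    rw [cF_eq, cF_eq]
    refine congrArg₂ (· / ·) (Finset.sum_congr rfl fun t _ => ?_) (Finset.sum_congr rfl fun t _ => ?_)
    · congr 1
      exact Pool.Agent.NH3.XD.card_iff fun N _ => Iff.rfl
    · congr 1
      exact Pool.Agent.NH3.XD.card_iff fun N _ => by simp
  · intro t ht
    have hok : Pool.Agent.NH4.XJ.OkJ 60 t ∧ t % 4 = 3 := by
      rw [mem_insert, mem_singleton] at ht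
      rcases ht with rfl | rfl <;> refine ⟨⟨by norm_num, by norm_num, by norm_num, by norm_num⟩, by norm_num⟩
    have h1 := Pool.Agent.NH4.XJ.f_XJDEN 1 60 t (fun _ => ∅) (fun _ => r) hok.1
      ⟨Function.injective_of_subsingleton _, fun a u hu => absurd hu (notMem_empty u), fun a => by
        rw [Finset.prod_empty, mul_one]
        exact hok.2⟩
    rw [Fin.prod_univ_one, law_eq] at h1
    refine h1.congr fun X => ?_
    congr 2
    refine Pool.Agent.NH3.XD.card_iff fun N _ => ?_
    unfold Pool.Agent.NH4.XJ.Ev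
    simp only [union_empty, forall_const]
  · intro t ht
    have hok : Pool.Agent.NH3.XD.Ok 60 t := by
      rw [mem_insert, mem_singleton] at ht
      rcases ht with rfl | rfl <;>
        exact ⟨by norm_num, by norm_num, by norm_num, by norm_num, by norm_num⟩
    obtain ⟨c, X₀, hc, g⟩ := Pool.Agent.NH3.XD.low_class hok
    filter_upwards [eventually_ge_atTop (max X₀ 1)] with X hX
    refine lt_of_lt_of_le ?_ (g X ((le_max_left _ _).trans hX))
    have : (1 : ℝ) ≤ X := by exact_mod_cast (le_max_right X₀ 1).trans hX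
    positivity

theorem dens_cF : Tendsto (fun X : ℕ => (cF (fun _ => True) X : ℝ) / X) atTop
    (𝓝 (5 / (16 * Real.pi ^ 2))) := by
  refine Pool.Agent.NH3.XD.dens_DB.congr fun X => ?_
  congr 2
  rw [Pool.Agent.NH3.XD.cZ_neg _ (fun D hD => hD.1)]
  unfold cF
  refine Pool.Agent.NH3.XD.card_iff fun n hn => ?_
  have h0 := (mem_Icc.1 hn).1
  unfold Pool.Agent.NH3.XD.DB
  rw [Pool.Agent.NH3.XD.sqf_neg]
  constructor
  · rintro ⟨h1, h2, h3⟩
    exact ⟨⟨h2, by omega⟩, trivial⟩
  · rintro ⟨⟨h2, h3⟩, -⟩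
    exact ⟨by omega, h2, by omega⟩

end Pool.Agent.H464.XB
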