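import Pool.Graph.R_pool_sql_team_seeded_620a6dc7.H757_X15.MT.Ap15

/-!
The coefficients `a_l` of the imaginary twists of `X_0(15)`.
-/

set_option autoImplicit false
set_option linter.style.haveILetI false

open scoped Classical

namespace Pool.Agent.H464.XB

open Pool.Agent.W97.MT (affCount ap)
open Pool.Agent.H757_X15 (WD E15 WD_one WD_coeff affCount_odd ap_dvd)

theorem ap_odd {M : ℕ} (hM : M % 4 = 3) (p : ℕ) [Fact p.Prime] (hp : p ≠ 2) (h : ¬ p ∣ M) :
    ap (WD (-(M : ℤ))) p = jacobiSym p M * ap E15 p := by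
  have hpp : p.Prime := Fact.out
  have hM0 : ((-(M : ℤ) : ℤ) : ZMod p) ≠ 0 := by
    intro h1
    rw [ZMod.intCast_zmod_eq_zero_iff_dvd, dvd_neg, Int.natCast_dvd_natCast] at h1
    exact h h1
  have h5 : quadraticChar (ZMod p) ((-(M : ℤ) : ℤ) : ZMod p) = jacobiSym p M := by
    have h6 : quadraticChar (ZMod p) ((-(M : ℤ) : ℤ) : ZMod p) = legendreSym p (-(M : ℤ)) := rfl
    have hodd : Odd M := Nat.odd_iff.2 (by omega)
    have hpo : Odd p := hpp.odd_of_ne_two hp
    rw [h6, jacobiSym.legendreSym.to_jacobiSym, jacobiSym.neg _ hpo]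
    rcases (by have := Nat.odd_iff.1 hpo; omega : p % 4 = 1 ∨ p % 4 = 3) with h4 | h4
    · rw [ZMod.χ₄_nat_one_mod_four h4, one_mul]
      exact (jacobiSym.quadratic_reciprocity_one_mod_four h4 hodd).symm
    · rw [ZMod.χ₄_nat_three_mod_four h4, jacobiSym.quadratic_reciprocity_three_mod_four hM h4]
      ring
  rw [← WD_one]
  unfold ap
  rw [affCount_odd (by omega) p hp, affCount_odd (by norm_num) p hp, ← h5, sub_add_cancel_left,
    sub_add_cancel_left, mul_neg, Finset.mul_sum]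
  congr 1
  symm
  refine Fintype.sum_equiv (Equiv.mulLeft₀ ((-(M : ℤ) : ℤ) : ZMod p) hM0) _ _ fun x => ?_
  have h4 : quadraticChar (ZMod p) ((-(M : ℤ) : ℤ) : ZMod p) =
      quadraticChar (ZMod p) (((-(M : ℤ) : ℤ) : ZMod p) ^ 3) := by
    rw [pow_succ, map_mul, quadraticChar_sq_one' hM0, one_mul]
  rw [h4, ← map_mul, Equiv.mulLeft₀_apply]
  congr 1
  push_cast
  ring

theorem ap_two {M : ℕ} (hM : M % 4 = 3) : ap (WD (-(M : ℤ))) 2 = -jacobiSym 2 M := by
  have hodd : Odd M := Nat.odd_iff.2 (by omega)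
  rw [jacobiSym.at_two hodd, ZMod.χ₈_nat_eq_if_mod_eight]
  obtain ⟨a, b, c, hW, ha, hb, hc⟩ := WD_coeff (M := -(M : ℤ)) (by omega)
  unfold ap affCount
  rw [hW]
  rcases (by omega : M % 8 = 7 ∨ M % 8 = 3) with h8 | h8
  · obtain ⟨k, hk⟩ : ∃ k : ℤ, -(M : ℤ) = 8 * k + 1 := ⟨-(M : ℤ) / 8, by omega⟩
    have a0 : (a : ZMod 2) = 1 := by
      have : a = 2 * (5 * k) + 1 := by omega
      rw [this]
      push_cast
      have : (2 : ZMod 2) = 0 := rfl
      rw [this]
      ring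
    have b0 : (b : ZMod 2) = 0 := (ZMod.intCast_zmod_eq_zero_iff_dvd b 2).2
      ⟨-(304 * k ^ 2 + 76 * k + 5), by push_cast; rw [hk] at hb; linarith⟩
    have c0 : (c : ZMod 2) = 0 := (ZMod.intCast_zmod_eq_zero_iff_dvd c 2).2
      ⟨-(2496 * k ^ 3 + 936 * k ^ 2 + 117 * k + 5), by push_cast; rw [hk] at hc; linarith⟩
    have e : Nat.card {P : ZMod 2 × ZMod 2 //
        ((⟨1, a, 1, b, c⟩ : WeierstrassCurve ℤ).map (Int.castRingHom (ZMod 2))).toAffine.Equation
          P.1 P.2} = Nat.card {P : ZMod 2 × ZMod 2 //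
            P.2 ^ 2 + P.1 * P.2 + P.2 = P.1 ^ 3 + P.1 ^ 2} := by
      refine Nat.card_congr (Equiv.subtypeEquivRight fun P => ?_)
      rw [WeierstrassCurve.Affine.equation_iff]
      simp only [WeierstrassCurve.map, map_one, eq_intCast, a0, b0, c0]
      ring_nf
    rw [e, Nat.card_eq_fintype_card]
    have e2 : Fintype.card {P : ZMod 2 × ZMod 2 //
        P.2 ^ 2 + P.1 * P.2 + P.2 = P.1 ^ 3 + P.1 ^ 2} = 3 := by
      decide
    have h3 : M % 2 = 1 := by omega
    simp only [e2, h3, h8]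
    norm_num
  · obtain ⟨k, hk⟩ : ∃ k : ℤ, -(M : ℤ) = 8 * k + 5 := ⟨-(M : ℤ) / 8, by omega⟩
    have a0 : (a : ZMod 2) = 0 := (ZMod.intCast_zmod_eq_zero_iff_dvd a 2).2
      ⟨5 * k + 3, by push_cast; omega⟩
    have b0 : (b : ZMod 2) = 0 := (ZMod.intCast_zmod_eq_zero_iff_dvd b 2).2
      ⟨-(304 * k ^ 2 + 380 * k + 119), by push_cast; rw [hk] at hb; linarith⟩
    have c0 : (c : ZMod 2) = 1 := by
      have : c = 2 * (-(2496 * k ^ 3 + 4680 * k ^ 2 + 2925 * k + 610)) + 1 := by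
        rw [hk] at hc; linarith
      rw [this]
      push_cast
      have : (2 : ZMod 2) = 0 := rfl
      rw [this]
      ring
    have e : Nat.card {P : ZMod 2 × ZMod 2 //
        ((⟨1, a, 1, b, c⟩ : WeierstrassCurve ℤ).map (Int.castRingHom (ZMod 2))).toAffine.Equation
          P.1 P.2} = Nat.card {P : ZMod 2 × ZMod 2 //
            P.2 ^ 2 + P.1 * P.2 + P.2 = P.1 ^ 3 + 1} := by
      refine Nat.card_congr (Equiv.subtypeEquivRight fun P => ?_)
      rw [WeierstrassCurve.Affine.equation_iff]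
      simp only [WeierstrassCurve.map, map_one, eq_intCast, a0, b0, c0]
      ring_nf
    rw [e, Nat.card_eq_fintype_card]
    have e2 : Fintype.card {P : ZMod 2 × ZMod 2 //
        P.2 ^ 2 + P.1 * P.2 + P.2 = P.1 ^ 3 + 1} = 1 := by
      decide
    have h3 : M % 2 = 1 := by omega
    simp only [e2, h3, h8]
    norm_num

end Pool.Agent.H464.XB
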