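import Pool.Graph.R_seed8.R343.HalfSum
import Pool.Graph.R_seed8.H491R3.J.Defs

/-!
The Gauss sum of the Jacobi symbol modulo `d = 3 mod 4`.
-/

set_option autoImplicit false

open Finset

namespace Pool.Agent.H464.XB

open Pool.Agent.H491R3.J (OS chi chi_natCast)

theorem gauss_chi (d : OS) (h3 : d.1 % 4 = 3) :
    gaussSum (chi d) (ZMod.stdAddChar (N := d.1)) = Complex.I * Real.sqrt d.1 := by
  have hd1 : 1 < d.1 := d.2.2.2
  have h := Pool.Agent.R343.CFP.gauss_sum d.1 (d.1 - 1) h3 d.2.2.1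
  have hd0 : (d.1 : ℂ) ≠ 0 := by exact_mod_cast (by omega : d.1 ≠ 0)
  have hj : jacobiSym ((d.1 - 1 : ℕ) : ℤ) d.1 = -1 := by
    have e : jacobiSym ((d.1 - 1 : ℕ) : ℤ) d.1 = jacobiSym (-1) d.1 := by
      refine jacobiSym.mod_left' ?_
      have : ((d.1 - 1 : ℕ) : ℤ) = -1 + d.1 * 1 := by omega
      rw [this, Int.add_mul_emod_self_left]
    rw [e]
    exact Pool.Agent.R343.CFP.jacobi_neg_one d.1 h3
  rw [hj] at h
  have h1 : gaussSum (chi d) (ZMod.stdAddChar (N := d.1)) =
      ∑ r ∈ range d.1, ((jacobiSym (r : ℤ) d.1 : ℤ) : ℂ) *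
      Complex.exp (-(2 * Real.pi * Complex.I * ((r : ℂ) * (d.1 - 1 : ℕ)) / d.1)) := by
    unfold gaussSum
    apply Finset.sum_nbij' (fun x : ZMod d.1 => x.val) (fun i : ℕ => (i : ZMod d.1))
    · intro x _
      exact mem_range.2 (ZMod.val_lt x)
    · intro i _
      exact mem_univ _
    · intro x _
      exact ZMod.natCast_zmod_val x
    · intro i hi
      exact ZMod.val_natCast_of_lt (mem_range.1 hi)
    · intro x _
      have e1 : chi d x = ((jacobiSym (x.val : ℤ) d.1 : ℤ) : ℂ) := by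
        rw [← chi_natCast, ZMod.natCast_zmod_val]
      rw [e1]
      congr 1
      have h5 : x = ((x.val : ℤ) : ZMod d.1) := by
        push_cast
        rw [ZMod.natCast_zmod_val]
      have h6 : ZMod.stdAddChar (N := d.1) x =
          Complex.exp (2 * Real.pi * Complex.I * ((x.val : ℤ) : ℂ) / d.1) := by
        have := ZMod.stdAddChar_coe (N := d.1) (x.val : ℤ)
        rw [← h5] at this
        exact this
      rw [h6]
      have h7 : (-(2 * Real.pi * Complex.I * ((x.val : ℂ) * (d.1 - 1 : ℕ)) / d.1) : ℂ) =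
          2 * Real.pi * Complex.I * ((x.val : ℤ) : ℂ) / d.1 - (x.val : ℤ) * (2 * Real.pi * Complex.I) := by
        rw [Nat.cast_sub hd1.le]
        push_cast
        field_simp
        ring
      rw [h7, Complex.exp_sub, Complex.exp_int_mul_two_pi_mul_I, div_one]
  rw [h1, h]
  push_cast
  ring

end Pool.Agent.H464.XB
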