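import Pool.Graph.R_pool_sql_team_seeded_3dad9d7b.XV.MT.All
import Pool.Graph.R_pool_sql_team_seeded_620a6dc7.H757_X15.MT.Lm15
import Pool.Agent.H464.XB.Ap
import Pool.Agent.H464.XB.Gs

/-!
# The `L`-functions of the imaginary twists of `X_0(15)` and their central values
-/

set_option autoImplicit false
set_option linter.style.haveILetI false

open Complex Filter Topology Set UpperHalfPlane MatrixGroups CongruenceSubgroup ZMod

namespace Pool.Agent.H464.XB

open Pool.Agent.W97.MT (affCount ap)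
open Pool.Agent.Y687 (SS rr mem_rr p_cpow sum_rrC)
open Pool.Agent.H491R3.J (OS chi)
open Pool.Agent.H757_X15 (WD IsL ap_dvd Delta_WD ap2)
open Pool.Agent.XV.MT (II a_xl a_ii)

theorem E15_eq : Pool.Agent.XV.E15 = Pool.Agent.H757_X15.E15 := rfl

theorem dvd_Delta {M : ℕ} (hM : M % 4 = 3) {p : ℕ} (hp : p.Prime) :
    (p : ℤ) ∣ (WD (-(M : ℤ))).Δ ↔ p ∣ 15 ∨ p ∣ M := by
  rw [Delta_WD (by omega)]
  have e : ((3 ^ 4 * 5 ^ 4) * (-(M : ℤ)) ^ 6) = (((3 ^ 4 * 5 ^ 4 * M ^ 6 : ℕ) : ℤ)) := by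
    push_cast; ring
  rw [e, Int.natCast_dvd_natCast, hp.dvd_mul, hp.dvd_mul]
  constructor
  · rintro ((h | h) | h)
    · exact Or.inl ((hp.dvd_of_dvd_pow h).trans (by norm_num))
    · exact Or.inl ((hp.dvd_of_dvd_pow h).trans (by norm_num))
    · exact Or.inr (hp.dvd_of_dvd_pow h)
  · rintro (h | h)
    · rw [show (15 : ℕ) = 3 * 5 by norm_num, hp.dvd_mul] at h
      rcases h with h | h
      · exact Or.inl (Or.inl (dvd_pow h (by norm_num)))
      · exact Or.inl (Or.inr (dvd_pow h (by norm_num)))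
    · exact Or.inr (dvd_pow h (by norm_num))

/-- the `L`-function of the twist by `-M` -/
theorem exists_LM (M : ℕ) [NeZero M] (hsq : Squarefree M) (h1 : 1 < M) (h4 : M % 4 = 3)
    (h15 : Nat.Coprime M 15) :
    ∃ f : ℂ → ℂ, IsL (WD (-(M : ℤ))) f ∧
      (Complex.I * Real.sqrt M) * f 1 =
        ∑ u : (ZMod M)ˣ, ((jacobiSym (((u : ZMod M).val : ℕ) : ℤ) M : ℤ) : ℂ) *
        II (((u : ZMod M).val : ℚ) / M) := by
  classical
  have hodd : Odd M := Nat.odd_iff.2 (by omega)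
  set d : OS := ⟨M, hodd, hsq, h1⟩ with hd
  obtain ⟨g, hg1, hg2, hg3⟩ := a_xl M h15 (chi d) (Pool.Agent.H491R3.J.chi_primitive d)
  have hchi : ∀ m : ℕ, chi d (m : ZMod M) = ((jacobiSym (m : ℤ) M : ℤ) : ℂ) :=
    Pool.Agent.H491R3.J.chi_natCast d
  refine ⟨g, ⟨hg1, ?_⟩, ?_⟩
  · intro s hs
    refine (congrArg (fun g => HasProd g _) (funext fun p => ?_)).mp (hg2 s hs)
    have hpp : (p : ℕ).Prime := p.2
    haveI : Fact (p : ℕ).Prime := ⟨hpp⟩
    rw [hchi, E15_eq]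
    by_cases hpM : (p : ℕ) ∣ M
    · have hbad : ((p : ℕ) : ℤ) ∣ (WD (-(M : ℤ))).Δ := (dvd_Delta h4 hpp).2 (Or.inr hpM)
      have h0 : jacobiSym ((p : ℕ) : ℤ) M = 0 := by
        rw [jacobiSym.eq_zero_iff_not_coprime, Int.gcd_natCast_natCast]
        intro hg
        have := Nat.dvd_gcd (dvd_refl (p : ℕ)) hpM
        rw [hg] at this
        exact hpp.one_lt.ne' (Nat.dvd_one.1 this)
      have hp2 : (p : ℕ) ≠ 2 := by
        intro h
        rw [h] at hpM
        omega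
      rw [h0, if_pos hbad, ap_dvd (by omega) _ hp2 (by
        rw [dvd_neg]
        exact_mod_cast hpM)]
      simp
    · have hx : jacobiSym ((p : ℕ) : ℤ) M = 1 ∨ jacobiSym ((p : ℕ) : ℤ) M = -1 := by
        refine jacobiSym.eq_one_or_neg_one ?_
        rw [Int.gcd_natCast_natCast]
        exact (Nat.Prime.coprime_iff_not_dvd hpp).2 hpM
      have hx2 : ((jacobiSym ((p : ℕ) : ℤ) M : ℤ) : ℂ) ^ 2 = 1 := by
        rcases hx with h | h <;> rw [h] <;> norm_num
      have hap : ap (WD (-(M : ℤ))) p = jacobiSym ((p : ℕ) : ℤ) M * ap Pool.Agent.H757_X15.E15 p := by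
        by_cases hp2 : (p : ℕ) = 2
        · rw [hp2, ap_two h4, ap2]
          push_cast
          ring
        · exact ap_odd h4 _ hp2 hpM
      rw [hap, hx2]
      have hΔ : ((p : ℕ) : ℤ) ∣ (WD (-(M : ℤ))).Δ ↔ (p : ℕ) ∣ 15 := by
        rw [dvd_Delta h4 hpp]
        tauto
      by_cases h15' : (p : ℕ) ∣ 15
      · rw [if_pos h15', if_pos (hΔ.2 h15')]
        push_cast
        ring
      · rw [if_neg h15', if_neg (fun h => h15' (hΔ.1 h)), mul_one, p_cpow hpp.ne_zero]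
        push_cast
        ring
  · have hinv : (chi d)⁻¹ = chi d := Pool.Agent.H491R3.J.chi_inv d
    have hgs := gauss_chi d h4
    rw [hinv] at hg3
    have hgs' : gaussSum (chi d) (stdAddChar (N := M)) = Complex.I * Real.sqrt M := hgs
    rw [hgs'] at hg3
    rw [hg3]
    refine Finset.sum_congr rfl fun u _ => ?_
    rw [← hchi, ZMod.natCast_zmod_val]

/-- the sum over the classes is imaginary -/
theorem sum_im (M : ℕ) [NeZero M] (h1 : 1 < M) (h4 : M % 4 = 3) :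
    (∑ u : (ZMod M)ˣ, ((jacobiSym (((u : ZMod M).val : ℕ) : ℤ) M : ℤ) : ℂ) *
        II (((u : ZMod M).val : ℚ) / M)).re = 0 := by
  set T := ∑ u : (ZMod M)ˣ, ((jacobiSym (((u : ZMod M).val : ℕ) : ℤ) M : ℤ) : ℂ) *
        II (((u : ZMod M).val : ℚ) / M) with hT
  have h : -T = starRingEnd ℂ T := by
    rw [hT, map_sum, ← Finset.sum_neg_distrib]
    refine Fintype.sum_equiv (Equiv.neg (ZMod M)ˣ) _ _ fun u => ?_
    rw [map_mul, map_intCast, ← a_ii.conj]
    haveI : Nontrivial (ZMod M) := ZMod.nontrivial_iff.2 (by omega)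
    have hu0 : (u : ZMod M) ≠ 0 := u.ne_zero
    haveI : NeZero (u : ZMod M) := ⟨hu0⟩
    have hval : (((Equiv.neg (ZMod M)ˣ) u : (ZMod M)ˣ) : ZMod M).val = M - (u : ZMod M).val := by
      rw [Equiv.neg_apply, Units.val_neg, ZMod.val_neg_of_ne_zero]
    have hlt : (u : ZMod M).val ≤ M := (ZMod.val_lt _).le
    rw [hval, ← neg_mul]
    congr 1
    · rw [← Int.cast_neg]
      congr 1
      rw [Nat.cast_sub hlt]
      rw [show ((M : ℤ) - (((u : ZMod M).val : ℕ) : ℤ)) = -(((u : ZMod M).val : ℕ) : ℤ) + M * 1 by ring]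
      have e2 : jacobiSym (-(((u : ZMod M).val : ℕ) : ℤ) + M * 1) M =
          jacobiSym (-(((u : ZMod M).val : ℕ) : ℤ)) M := by
        refine jacobiSym.mod_left' ?_
        rw [Int.add_mul_emod_self_left]
      rw [e2, jacobiSym.neg _ (Nat.odd_iff.2 (by omega)), ZMod.χ₄_nat_eq_if_mod_four, h4]
      have : M % 2 = 1 := by omega
      rw [this]
      norm_num
    · have hMQ : (M : ℚ) ≠ 0 := by exact_mod_cast (by omega : M ≠ 0)
      have e3 : -(((M - (u : ZMod M).val : ℕ) : ℚ) / M) + 1 = ((u : ZMod M).val : ℚ) / M := by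
        rw [Nat.cast_sub hlt]
        field_simp
        ring
      rw [← e3, a_ii.per]
  have h3 := congrArg Complex.re h
  rw [Complex.conj_re, Complex.neg_re] at h3
  linarith

/-- the central value -/
theorem value {M : ℕ} (hsq : Squarefree M) (h1 : 1 < M) (h4 : M % 4 = 3)
    (h15 : Nat.Coprime M 15) {s : ℚ → ℤ} {Om : ℝ} (hs : ∀ r : ℚ, (4 : ℝ) * (II r).im = s r * Om) :
    ∃ f : ℂ → ℂ, IsL (WD (-(M : ℤ))) f ∧
      f 1 = ((SS s M M * Om / (4 * Real.sqrt M) : ℝ) : ℂ) := by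
  haveI : NeZero M := ⟨by omega⟩
  obtain ⟨f, hf, hv⟩ := exists_LM M hsq h1 h4 h15
  have hre := sum_im M h1 h4
  have him : (∑ u : (ZMod M)ˣ, ((jacobiSym (((u : ZMod M).val : ℕ) : ℤ) M : ℤ) : ℂ) *
        II (((u : ZMod M).val : ℚ) / M)).im * 4 = SS s M M * Om := by
    unfold SS
    rw [sum_rrC (M := M) (fun a => ((jacobiSym (a : ℤ) M : ℤ) : ℂ) * II ((a : ℚ) / M)) |>.symm,
      Complex.im_sum]
    push_cast
    rw [Finset.sum_mul, Finset.sum_mul]
    refine Finset.sum_congr rfl fun a _ => ?_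
    have h3 : ((jacobiSym (a : ℤ) M : ℤ) : ℂ) = (((jacobiSym (a : ℤ) M : ℤ) : ℝ) : ℂ) := by
      push_cast; rfl
    rw [h3, Complex.im_ofReal_mul]
    have := hs ((a : ℚ) / M)
    linear_combination ((jacobiSym (a : ℤ) M : ℝ)) * this
  set T := ∑ u : (ZMod M)ˣ, ((jacobiSym (((u : ZMod M).val : ℕ) : ℤ) M : ℤ) : ℂ) *
        II (((u : ZMod M).val : ℚ) / M) with hT
  have hTr : T = Complex.I * ((SS s M M * Om / 4 : ℝ) : ℂ) := by
    apply Complex.ext
    · rw [hre]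
      simp
    · rw [mul_comm, Complex.im_ofReal_mul, Complex.I_im]
      linarith
  have hMR : (0 : ℝ) < M := by exact_mod_cast (by omega : 0 < M)
  have hsq0 : (Real.sqrt M) ≠ 0 := (Real.sqrt_pos.2 hMR).ne'
  have hsqc : ((Real.sqrt M : ℝ) : ℂ) ≠ 0 := by exact_mod_cast hsq0
  refine ⟨f, hf, ?_⟩
  rw [hTr, mul_assoc] at hv
  have hv2 := mul_left_cancel₀ Complex.I_ne_zero hv
  rw [Complex.ofReal_div, Complex.ofReal_mul (4 : ℝ)]
  rw [Complex.ofReal_div] at hv2
  field_simp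
  field_simp at hv2
  push_cast at hv2 ⊢
  linear_combination hv2

end Pool.Agent.H464.XB
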