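import Pool.Agent.H464.XB.Sel2
import Pool.Graph.R_pool_sql_team_seeded_2aa45f1a.Q243.PR.Min

/-!
# The order of the 2-Selmer group, the rank and the elements of order two of `Ш`
-/

set_option autoImplicit false
set_option linter.all false

namespace Pool.Agent.H464.XB

open WeierstrassCurve
open Pool.Agent.TH841.SH (IsR selHom tors_fix)
open Pool.Agent.TH841.SH.D (Coch ShaTor rk Sha)
open Pool.Agent.NH3.XT (Loc Sel)
open Pool.Agent.Q243.PR (sel2Coc cob2 Sel2 scl card_sel hdiv fg_of two_le)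

theorem mem_iff {W : WeierstrassCurve ℚ} {a b c : ℚ} (h : IsR W a b c) (f : Coch W) :
    f ∈ selHom W ↔ f ∈ sel2Coc W := by
  constructor
  · intro hf
    have h1 : f ∈ Pool.Agent.W262.SH.shaCoc W := Pool.Agent.TH841.SH.sel_le h hf
    exact ⟨(Pool.Agent.TH841.SH.D.sha_iff W f).2 h1, hf.2.1⟩
  · rintro ⟨h1, h2⟩
    have h3 := (Pool.Agent.TH841.SH.D.sha_iff W f).1 h1
    refine ⟨h3.1.1, h2, fun σ τ => ?_, h3.2.1, h3.2.2⟩
    have h4 := h3.1.2 σ τ
    rw [tors_fix h (h2 τ)] at h4
    exact h4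

theorem sel2_card {W : WeierstrassCurve ℚ} {a b c : ℚ} (h : IsR W a b c) :
    Nat.card (Sel2 W) = Nat.card (selHom W) := by
  have h1 : Nat.card (selHom W) = Nat.card (sel2Coc W) :=
    Nat.card_congr (Equiv.subtypeEquivRight (mem_iff h))
  rw [h1]
  symm
  refine Nat.card_eq_of_bijective (scl W) ⟨?_, fun x => Pool.Agent.Q243.PR.scl_surj x⟩
  rw [injective_iff_map_eq_zero]
  intro c hc
  obtain ⟨P, hP, hPσ⟩ := (Pool.Agent.Q243.PR.scl_zero_iff c).1 hc
  apply Subtype.ext
  funext σ
  have h2 := hPσ σ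
  have h3 := tors_fix h hP σ
  exact h2.trans (sub_eq_zero.2 h3)

section tor

variable {W : WeierstrassCurve ℚ} {a b c : ℚ}

theorem rat_four (h : IsR W a b c) (hab : a ≠ b) (hac : a ≠ c) (hbc : b ≠ c) :
    Nat.card {x : W.toAffine.Point // x + x = 0} = 4 := by
  classical
  have hQ := (two_le (W := W) (a := algebraMap ℚ _ a) (b := algebraMap ℚ _ b)
    (c := algebraMap ℚ _ c) (h.base _) ((algebraMap ℚ _).injective.ne hab)
    ((algebraMap ℚ _).injective.ne hac) ((algebraMap ℚ _).injective.ne hbc))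
  obtain ⟨hf, hle⟩ := hQ
  refine le_antisymm hle ?_
  have na := h.nons two_ne_zero hab hac hbc (x := a) (y := 0) (by ring)
  have nb := h.nons two_ne_zero hab hac hbc (x := b) (y := 0) (by ring)
  have nc := h.nons two_ne_zero hab hac hbc (x := c) (y := 0) (by ring)
  let g : Fin 4 → {x : W.toAffine.Point // x + x = 0} :=
    ![⟨0, add_zero 0⟩, ⟨.some _ _ na, (h.add_self two_ne_zero na).2 rfl⟩,
      ⟨.some _ _ nb, (h.add_self two_ne_zero nb).2 rfl⟩,
      ⟨.some _ _ nc, (h.add_self two_ne_zero nc).2 rfl⟩]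
  have hg : Function.Injective g := by
    have key : ∀ i j : Fin 4, i < j → g i ≠ g j := by
      intro i j hij
      fin_cases i <;> fin_cases j <;>
        first
        | exact absurd hij (by decide)
        | (intro h; exact (Affine.Point.some_ne_zero _) (congrArg Subtype.val h).symm)
        | (intro h; exact hab (Affine.Point.some.inj (congrArg Subtype.val h)).1)
        | (intro h; exact hac (Affine.Point.some.inj (congrArg Subtype.val h)).1)
        | (intro h; exact hbc (Affine.Point.some.inj (congrArg Subtype.val h)).1)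
    intro i j h
    rcases lt_trichotomy i j with h' | h' | h'
    · exact absurd h (key i j h')
    · exact h'
    · exact absurd h.symm (key j i h')
  have := Nat.card_le_card_of_injective g hg
  simpa using this

end tor

/-- **The order of the Selmer group.** -/
theorem sel_formula {W : WeierstrassCurve ℚ} {A B : ℤ} {a b c l : ℚ} (m : Md W A B a b c l)
    (hfin : (Sel A B).Finite) :
    Finite (ShaTor W 2) ∧ Nat.card (Sel A B) = 2 ^ rk W * 4 * Nat.card (ShaTor W 2) := by
  have hb := m.r.base (AlgebraicClosure ℚ)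
  have kab := (algebraMap ℚ (AlgebraicClosure ℚ)).injective.ne m.ab
  have kac := (algebraMap ℚ (AlgebraicClosure ℚ)).injective.ne m.ac
  have kbc := (algebraMap ℚ (AlgebraicClosure ℚ)).injective.ne m.bc
  have h4 := rat_four m.r m.ab m.ac m.bc
  have hdv := hdiv (W := W) hb kab kac kbc
  haveI : Finite (Sel A B) := hfin
  have hne : Nonempty (selHom W) := ⟨0⟩
  obtain ⟨e⟩ := sel_bij m
  haveI hfs : Finite (selHom W) := Finite.of_equiv _ e.symm
  have hfs2 : Finite (Sel2 W) := by
    apply Nat.finite_of_card_ne_zero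
    rw [sel2_card m.r]
    exact Nat.card_pos.ne'
  have hfr : Finite (Pool.Agent.Q243.PR.toSha W).range :=
    Finite.of_surjective _ (Pool.Agent.Q243.PR.toSha W).rangeRestrict_surjective
  have hS : Finite (ShaTor W 2) := Finite.of_equiv (Pool.Agent.Q243.PR.toSha W).range
    (Equiv.subtypeEquivRight (fun x => Pool.Agent.Q243.PR.toSha_range hdv x))
  haveI := (two_le hb kab kac kbc).1
  obtain ⟨-, h5⟩ := card_sel hdv (fg_of hb kab kac kbc)
  refine ⟨hS, ?_⟩
  rw [← Nat.card_congr e, ← sel2_card m.r, h5, h4]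

/-- **The Selmer group is as small as possible iff `E(ℚ)` is finite and `Ш[2] = 0`.** -/
theorem sel_four {W : WeierstrassCurve ℚ} {A B : ℤ} {a b c l : ℚ} (m : Md W A B a b c l)
    (hfin : (Sel A B).Finite) :
    Nat.card (Sel A B) = 4 ↔ (Finite W.toAffine.Point ∧ ∀ x : Sha W, 2 • x = 0 → x = 0) := by
  have hb := m.r.base (AlgebraicClosure ℚ)
  have kab := (algebraMap ℚ (AlgebraicClosure ℚ)).injective.ne m.ab
  have kac := (algebraMap ℚ (AlgebraicClosure ℚ)).injective.ne m.ac
  have kbc := (algebraMap ℚ (AlgebraicClosure ℚ)).injective.ne m.bc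
  obtain ⟨hS, h5⟩ := sel_formula m hfin
  have hfg := fg_of (W := W) hb kab kac kbc
  have s0 : Nonempty (ShaTor W 2) := ⟨⟨0, smul_zero _⟩⟩
  have s1 : 0 < Nat.card (ShaTor W 2) := Nat.card_pos
  rw [h5]
  constructor
  · intro h
    have h6 : 2 ^ rk W * Nat.card (ShaTor W 2) = 1 := by nlinarith
    have h7 : 2 ^ rk W = 1 := Nat.dvd_one.1 ⟨_, h6.symm⟩
    have h8 : Nat.card (ShaTor W 2) = 1 := Nat.dvd_one.1 ⟨2 ^ rk W, by rw [mul_comm]; exact h6.symm⟩
    refine ⟨?_, fun x hx => ?_⟩
    · haveI : Module.Finite ℤ W.toAffine.Point := Module.Finite.iff_addGroup_fg.2 hfg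
      have hr : rk W = 0 := by
        by_contra h0
        have : 2 ^ 1 ≤ 2 ^ rk W := Nat.pow_le_pow_right (by norm_num) (Nat.one_le_iff_ne_zero.2 h0)
        omega
      exact Pool.Agent.Q243.PR.finite_of_rank hfg hr
    · rw [Nat.card_eq_one_iff_unique] at h8
      obtain ⟨h10, -⟩ := h8
      have h11 : (⟨x, hx⟩ : ShaTor W 2) = ⟨0, smul_zero _⟩ := h10.elim _ _
      exact congrArg Subtype.val h11
  · rintro ⟨h1, h2⟩
    have hsub : Subsingleton (ShaTor W 2) :=
      ⟨fun x y => Subtype.ext ((h2 x.1 x.2).trans (h2 y.1 y.2).symm)⟩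
    have hc : Nat.card (ShaTor W 2) = 1 := Nat.card_eq_one_iff_unique.2 ⟨hsub, s0⟩
    have hr : rk W = 0 := by
      apply Module.finrank_eq_zero_of_rank_eq_zero
      rw [rank_eq_zero_iff]
      intro x
      refine ⟨(addOrderOf x : ℤ), ?_, ?_⟩
      · have := (isOfFinAddOrder_of_finite x).addOrderOf_pos
        exact_mod_cast this.ne'
      · rw [natCast_zsmul]
        exact addOrderOf_nsmul_eq_zero x
    rw [hr, hc]
    norm_num

end Pool.Agent.H464.XB
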