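import Pool.Agent.H464.XB.LG
import Pool.Graph.R_pool_sql_team_seeded_3dad9d7b.NH3.XT.J2a
import Pool.Graph.R_pool_sql_team_seeded_3dad9d7b.NH3.XT.J2b
import Pool.Graph.R_pool_sql_team_seeded_3dad9d7b.NH3.XT.J2c
import Pool.Graph.R_pool_sql_team_seeded_3dad9d7b.NH3.XT.L22a
import Pool.Graph.R_pool_sql_team_seeded_3dad9d7b.NH3.XT.L22b
import Pool.Graph.R_pool_sql_team_seeded_3dad9d7b.NH3.XT.L22c
import Pool.Graph.R_pool_sql_team_seeded_3dad9d7b.NH3.XT.L2R
import Pool.Graph.R_pool_sql_team_seeded_3dad9d7b.NH3.XT.LA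
import Pool.Graph.R_pool_sql_team_seeded_3dad9d7b.NH3.XT.LP1
import Pool.Graph.R_pool_sql_team_seeded_3dad9d7b.NH3.XT.LP2
import Pool.Graph.R_pool_sql_team_seeded_3dad9d7b.NH3.XT.LP3
import Pool.Graph.R_pool_sql_team_seeded_3dad9d7b.NH3.XT.LR
import Pool.Graph.R_pool_sql_team_seeded_3dad9d7b.NH3.XT.SEL
import Pool.Graph.R_pool_sql_team_seeded_3dad9d7b.NH3.XT.TOR
import Pool.Graph.R_pool_sql_team_seeded_3dad9d7b.NH57.SQ.Card

/-!
# The order of the 2-Selmer groups of the imaginary twists of `X_0(15)`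
-/

set_option autoImplicit false
set_option linter.all false

open scoped Classical

namespace Pool.Agent.H464.XB

open Pool.Agent.NH3.XT
open Pool.Agent.NH4.XG (nx)

/-- the Selmer group is the product of the two factors -/
theorem sel_prod {a b c : ℤ} {e : ℕ} (hT : Tri a b c e) {D : ℤ} (hD : Cls a b c e D) :
    Sel (b ^ 2 * D) (a ^ 2 * D) = AS D ×ˢ CS D :=
  t_SEL t_TOR t_LA t_LG (t_LP1 t_TOR) (t_LP2 t_TOR) (t_LP3 t_TOR)
    (t_L2R t_APX t_SQ2 t_J2a t_J2b t_J2c) t_L22a t_L22b t_L22c t_LR a b c e hT D hD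

theorem tri345 : Tri 3 5 1 2 := by
  refine ⟨by norm_num, ⟨2, -1, by norm_num⟩, by norm_num, by norm_num, by norm_num, le_refl _⟩

/-- the discriminants: `3` splits and `5` is inert in `ℚ(√D)` -/
theorem cls345 {D : ℤ} (h0 : D < 0) (hs : Squarefree D) (h : D % 15 = 7 ∨ D % 15 = 13) :
    Cls 3 5 1 2 D := by
  refine ⟨h0, hs, fun p hp hd => ?_, fun p hp hd => ?_, fun h3 => absurd h3 (by norm_num)⟩
  · have h15 : p = 3 ∨ p = 5 := by
      have h1 : p ∣ 3 * 5 := by exact_mod_cast hd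
      rcases (hp.dvd_mul).1 h1 with h2 | h2
      · exact Or.inl ((Nat.prime_dvd_prime_iff_eq hp Nat.prime_three).1 h2)
      · exact Or.inr ((Nat.prime_dvd_prime_iff_eq hp Nat.prime_five).1 h2)
    rcases h15 with rfl | rfl
    · rw [jacobiSym.mod_left]
      have : (-D) % ((3 : ℕ) : ℤ) = 2 := by push_cast; omega
      rw [this]; norm_num
    · rw [jacobiSym.mod_left]
      have : (-D) % ((5 : ℕ) : ℤ) = 2 ∨ (-D) % ((5 : ℕ) : ℤ) = 3 := by push_cast; omega
      rcases this with h1 | h1 <;> rw [h1] <;> norm_num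
  · exfalso
    have h1 : p ∣ 1 := by exact_mod_cast hd
    exact hp.one_lt.ne' (Nat.dvd_one.1 h1)

/-- **The order of the Selmer group.** -/
theorem sel_card_nx {D : ℤ} (h0 : D < 0) (hs : Squarefree D) (h : D % 15 = 7 ∨ D % 15 = 13) :
    (Sel (25 * D) (9 * D)).Finite ∧
      Nat.card (Sel (25 * D) (9 * D)) = nx D.natAbs.primeFactors ^ 2 := by
  have h1 := sel_prod tri345 (cls345 h0 hs h)
  norm_num at h1
  obtain ⟨h2, h3⟩ := Pool.Agent.NH57.SQ.t_CARD D h0 hs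
  rw [h1]
  exact ⟨h2, by rw [← h3, Nat.card_coe_set_eq]⟩

end Pool.Agent.H464.XB
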