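import Pool.Agent.H464.XB.Tors
import Pool.Agent.H464.XB.Crd
import Pool.Agent.H464.XB.Sn
import Pool.Graph.R_pool_sql_team_seeded_3dad9d7b.XV.T.T35
import Pool.Graph.R_pool_sql_team_seeded_620a6dc7.H757_X15.MT.MOD
import Pool.Graph.R_pool_sql_team_seeded_620a6dc7.H757_X15.MT.Lm15
import Pool.Graph.R_seed8.Y700.ShaVC
import Pool.Graph.R_pool_sql_team_seeded_2aa45f1a.Q8.TP.Tr

/-!
# Imaginary twists of `X_0(15)`: the equation, the Tamagawa numbers, torsion, `Ш`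
-/

set_option autoImplicit false
set_option linter.all false

open scoped Classical

open WeierstrassCurve

namespace Pool.Agent.H464.XB.T

open Pool.Agent.H757_X15 (WD IsL)
open Pool.Agent.Y700 (SingRed E0 tam PtP Omega VR)
open Pool.Agent.Y809.BSD14
open Pool.Agent.NH3.XT (Loc Sel)
open Pool.Agent.TH841.SH.D (ShaTor rk Sha)

/-- the class of the discriminants -/
structure Neg (D : ℤ) : Prop where
  neg : D < 0
  sq : Squarefree D
  md : D % 60 = 13 ∨ D % 60 = 37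

namespace Neg

variable {D : ℤ} (h : Neg D)

include h

theorem m4 : D % 4 = 1 := by rcases h.md with h | h <;> omega

theorem m3 : D % 3 = 1 := by rcases h.md with h | h <;> omega

theorem m5 : D % 5 = 2 ∨ D % 5 = 3 := by rcases h.md with h | h <;> omega

theorem m15 : D % 15 = 7 ∨ D % 15 = 13 := by rcases h.md with h | h <;> omega

theorem ne : D ≠ 0 := h.neg.ne

theorem not_sq : ¬ IsSquare (D : ℚ) := by
  rintro ⟨r, hr⟩
  have h1 : (D : ℚ) < 0 := by exact_mod_cast h.neg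
  nlinarith [mul_self_nonneg r]

theorem not_sq' : ¬ IsSquare (-D : ℚ) := by
  rintro ⟨r, hr⟩
  have h2 : IsSquare ((D.natAbs : ℕ) : ℚ) := by
    refine ⟨r, ?_⟩
    have h3 : ((D.natAbs : ℕ) : ℤ) = -D := by have := h.neg; omega
    have h4 : ((D.natAbs : ℕ) : ℚ) = -D := by
      have h5 : (((D.natAbs : ℕ) : ℤ) : ℚ) = ((-D : ℤ) : ℚ) := congrArg _ h3
      push_cast at h5
      rw [← h5, Nat.cast_natAbs]
      push_cast
      rfl
    rw [h4, hr]
  rw [Rat.isSquare_natCast_iff] at h2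
  obtain ⟨k, hk⟩ := h2
  have h3 : IsUnit k := (Int.squarefree_natAbs.2 h.sq) k (by rw [hk])
  rw [Nat.isUnit_iff] at h3
  rw [h3] at hk
  have h4 := h.m4
  have h5 := h.neg
  omega

end Neg

/-- the product of the Tamagawa numbers -/
noncomputable def TamProd (W : WeierstrassCurve ℤ) : ℕ :=
  ∏ p ∈ W.Δ.natAbs.primeFactors, if h : p.Prime then (haveI := Fact.mk h; tam W p) else 1

theorem WD_eq {D : ℤ} (k : ℤ) (h : D = 4 * k + 1) : WD D = Pool.Agent.XV.T.T35.WC k := by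
  subst h
  have e2 : (5 * (4 * k + 1) - 1) / 4 = 5 * k + 1 := by omega
  have e4 : (19 * (4 * k + 1) ^ 2 + 1) / 2 = 152 * k ^ 2 + 76 * k + 10 := by
    have : 19 * (4 * k + 1) ^ 2 + 1 = 2 * (152 * k ^ 2 + 76 * k + 10) := by ring
    rw [this]
    exact Int.mul_ediv_cancel_left _ (by norm_num)
  have e6 : (39 * (4 * k + 1) ^ 3 + 1) / 4 = 624 * k ^ 3 + 468 * k ^ 2 + 117 * k + 10 := by
    have : 39 * (4 * k + 1) ^ 3 + 1 = 4 * (624 * k ^ 3 + 468 * k ^ 2 + 117 * k + 10) := by ring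
    rw [this]
    exact Int.mul_ediv_cancel_left _ (by norm_num)
  unfold WD Pool.Agent.XV.T.T35.WC
  rw [e2, e4, e6]

theorem tamProd_eq {D : ℤ} (h : Neg D) :
    TamProd (WD D) = 2 ^ (2 * D.natAbs.primeFactors.card + 2) := by
  have h4 := h.m4
  have hD0 : D.natAbs ≠ 0 := by have := h.neg; omega
  have hΔ : (WD D).Δ.natAbs = 3 ^ 4 * (5 ^ 4 * D.natAbs ^ 6) := by
    rw [Pool.Agent.H757_X15.Delta_WD h4, Int.natAbs_mul, Int.natAbs_pow]
    norm_num
    ring
  have hpf : (WD D).Δ.natAbs.primeFactors = insert 3 (insert 5 D.natAbs.primeFactors) := by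
    rw [hΔ, Nat.primeFactors_mul (by norm_num) (by positivity), Nat.primeFactors_mul (by norm_num)
      (by positivity), Nat.primeFactors_prime_pow (by norm_num) Nat.prime_three,
      Nat.primeFactors_prime_pow (by norm_num) Nat.prime_five, Nat.primeFactors_pow _ (by norm_num)]
    rfl
  have n3 : ¬ 3 ∣ D.natAbs := by have := h.m3; omega
  have n5 : ¬ 5 ∣ D.natAbs := by have := h.m5; omega
  have n2 : ¬ 2 ∣ D.natAbs := by omega
  obtain ⟨k, hk⟩ : ∃ k, D = 4 * k + 1 := ⟨D / 4, by omega⟩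
  unfold TamProd
  rw [hpf, Finset.prod_insert, Finset.prod_insert]
  · have h3 : (if h : Nat.Prime 3 then (haveI := Fact.mk h; tam (WD D) 3) else 1) = 2 := by
      rw [dif_pos Nat.prime_three, WD_eq k hk]
      exact Pool.Agent.XV.T.T35.tam3 t_E0 (by rw [← hk]; exact h.m3)
    have h5 : (if h : Nat.Prime 5 then (haveI := Fact.mk h; tam (WD D) 5) else 1) = 2 := by
      rw [dif_pos Nat.prime_five, WD_eq k hk]
      haveI := Fact.mk Nat.prime_five
      exact Pool.Agent.XV.T.T35.tam5 t_E0 (by rw [← hk]; exact h.m5)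
    rw [h3, h5]
    have h6 : ∀ p ∈ D.natAbs.primeFactors,
        (if h : p.Prime then (haveI := Fact.mk h; tam (WD D) p) else 1) = 4 := by
      intro p hp
      have hpp := Nat.prime_of_mem_primeFactors hp
      have hpd := Nat.dvd_of_mem_primeFactors hp
      rw [dif_pos hpp]
      haveI := Fact.mk hpp
      refine (BadP.of (q := p) (M := D) h4 ?_ ?_ ?_ (Int.natCast_dvd.2 hpd) h.sq).tam
      · rintro rfl
        exact n2 hpd
      · rintro rfl
        exact n3 hpd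
      · rintro rfl
        exact n5 hpd
    rw [Finset.prod_congr rfl h6, Finset.prod_const, pow_add, pow_mul]
    norm_num
    ring
  · intro h
    exact n5 (Nat.dvd_of_mem_primeFactors h)
  · rw [Finset.mem_insert, not_or]
    exact ⟨by norm_num, fun h => n3 (Nat.dvd_of_mem_primeFactors h)⟩

/-- the minimality of the equation -/
theorem minimal_WD {D : ℤ} (h : Neg D) : Pool.Agent.W97.MT.IsGloballyMinimal (WD D) := by
  refine (Pool.Agent.H757_X15.t_MOD D h.m4 h.sq ?_ ?_).1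
  · have := h.m3; omega
  · have := h.m5; omega

/-- the order of the torsion subgroup -/
theorem tors_WD {D : ℤ} (h : Neg D) :
    Nat.card (AddCommGroup.torsion (EQ D).toAffine.Point) = 4 :=
  tors_card h.m4 h.not_sq h.not_sq'

/-! ### the Selmer side -/

/-- the other equation of the curve -/
def EX (D : ℤ) : WeierstrassCurve ℚ := ⟨0, 41 * (D : ℚ), 0, 400 * (D : ℚ) ^ 2, 0⟩

theorem vr_one {D : ℤ} (hM : D % 4 = 1) : VR (EX D) (EQ D) 2 (-12 * D) 1 4 := by
  have h := isWD (K := ℚ) D hM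
  have h1 : (EQ D).a₁ = 1 := h.a1
  have h3 : (EQ D).a₃ = 1 := h.a3
  have h2 : 4 * (EQ D).a₂ = 5 * D - 1 := h.a2
  have h4 : 2 * (EQ D).a₄ = -(19 * (D : ℚ) ^ 2 + 1) := h.a4
  have h6 : 4 * (EQ D).a₆ = -(39 * (D : ℚ) ^ 3 + 1) := h.a6
  have k1 : (EX D).a₁ = 0 := rfl
  have k2 : (EX D).a₂ = 41 * D := rfl
  have k3 : (EX D).a₃ = 0 := rfl
  have k4 : (EX D).a₄ = 400 * (D : ℚ) ^ 2 := rfl
  have k6 : (EX D).a₆ = 0 := rfl
  refine ⟨two_ne_zero, ?_, ?_, ?_, ?_, ?_⟩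
  · rw [h1, k1]; norm_num
  · rw [k1, k2]; linear_combination h2
  · rw [h3, k1, k3]; norm_num
  · rw [k1, k2, k3, k4]; linear_combination 8 * h4
  · rw [k1, k2, k3, k4, k6]; linear_combination 16 * h6

theorem vr_two {D : ℤ} (hM : D % 4 = 1) :
    VR (EQ D) (EX D) (1 / 2) (3 * D) (-1 / 2) (-(3 * D + 1) / 2) := by
  have h := isWD (K := ℚ) D hM
  have h1 : (EQ D).a₁ = 1 := h.a1
  have h3 : (EQ D).a₃ = 1 := h.a3
  have h2 : 4 * (EQ D).a₂ = 5 * D - 1 := h.a2
  have h4 : 2 * (EQ D).a₄ = -(19 * (D : ℚ) ^ 2 + 1) := h.a4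
  have h6 : 4 * (EQ D).a₆ = -(39 * (D : ℚ) ^ 3 + 1) := h.a6
  have k1 : (EX D).a₁ = 0 := rfl
  have k2 : (EX D).a₂ = 41 * D := rfl
  have k3 : (EX D).a₃ = 0 := rfl
  have k4 : (EX D).a₄ = 400 * (D : ℚ) ^ 2 := rfl
  have k6 : (EX D).a₆ = 0 := rfl
  refine ⟨by norm_num, ?_, ?_, ?_, ?_, ?_⟩
  · rw [h1, k1]; norm_num
  · rw [h1, k2]; linear_combination (-1 / 4) * h2
  · rw [h1, h3, k3]; ring
  · rw [h1, h3, k4]; linear_combination (-1 / 2) * h4 - (3 * D / 2) * h2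
  · rw [h1, h3, k6]; linear_combination (-1 / 4) * h6 - (3 * D / 2) * h4 - (9 * (D : ℚ) ^ 2 / 4) * h2

theorem delta_EX {D : ℤ} (hD : D ≠ 0) : (EX D).Δ ≠ 0 := by
  have e : (EX D).Δ = 2 ^ 12 * 3 ^ 4 * 5 ^ 4 * (D : ℚ) ^ 6 := by
    simp only [EX, WeierstrassCurve.Δ, WeierstrassCurve.b₂, WeierstrassCurve.b₄,
      WeierstrassCurve.b₆, WeierstrassCurve.b₈]
    ring
  rw [e]
  have : (D : ℚ) ≠ 0 := by exact_mod_cast hD
  positivity

theorem delta_EQ {D : ℤ} (hM : D % 4 = 1) : (EQ D).Δ ≠ 0 := by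
  have hD : D ≠ 0 := by omega
  exact (vr_two hM).delta_ne (delta_EX hD)

theorem md_EX {D : ℤ} (hD : D ≠ 0) :
    Md (EX D) (25 * D) (9 * D) (-25 * (D : ℚ)) 0 (-16 * (D : ℚ)) 1 where
  r := by
    refine ⟨rfl, ?_, rfl, ?_, ?_⟩
    · show 41 * (D : ℚ) = _
      ring
    · show 400 * (D : ℚ) ^ 2 = _
      ring
    · show (0 : ℚ) = _
      ring
  l0 := one_ne_zero
  A0 := by simpa using hD
  B0 := by simpa using hD
  AB := by
    intro h
    apply hD
    linarith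
  hb := by push_cast; ring
  hc := by push_cast; ring

/-- `#Sel_2(E_D) = 4 · 2 ^ rank · #Ш[2] = nx ^ 2` -/
theorem sel_eq {D : ℤ} (h : Neg D) :
    Finite (ShaTor (EQ D) 2) ∧
    2 ^ rk (EQ D) * 4 * Nat.card (ShaTor (EQ D) 2) =
      Pool.Agent.NH4.XG.nx D.natAbs.primeFactors ^ 2 := by
  obtain ⟨hf, hc⟩ := sel_card_nx h.neg h.sq h.m15
  obtain ⟨h1, h2⟩ := sel_formula (md_EX h.ne) hf
  have e1 : rk (EQ D) = rk (EX D) := Pool.Agent.Q8.TP.rk_eq (vr_one h.m4) (delta_EQ h.m4)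
  have e2 := Pool.Agent.Q8.TP.tor_card
    (Pool.Agent.Q8.TP.Nat2.sha (Pool.Agent.Q8.TP.nat2 (vr_one h.m4) (delta_EQ h.m4))) 2
  refine ⟨e2.1.2 h1, ?_⟩
  have e3 : Nat.card (ShaTor (EQ D) 2) = Nat.card (ShaTor (EX D) 2) := e2.2
  rw [e1, e3, ← h2, hc]

/-- `E_D(ℚ)` is finite and the `2`-primary part of `Ш(E_D/ℚ)` is zero -/
def FinSha (W : WeierstrassCurve ℚ) : Prop :=
  Finite W.toAffine.Point ∧ ∀ (n : ℕ) (x : Sha W), 2 ^ n • x = 0 → x = 0

theorem finSha_iff {D : ℤ} (h : Neg D) :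
    FinSha (EQ D) ↔ Pool.Agent.NH4.XG.nx D.natAbs.primeFactors = 2 := by
  obtain ⟨hf, hc⟩ := sel_card_nx h.neg h.sq h.m15
  have key := sel_four (md_EX h.ne) hf
  rw [hc] at key
  have e0 : Pool.Agent.NH4.XG.nx D.natAbs.primeFactors = 2 ↔
      Pool.Agent.NH4.XG.nx D.natAbs.primeFactors ^ 2 = 4 := by
    constructor
    · intro h
      rw [h]
      norm_num
    · intro h
      nlinarith
  rw [e0, key]
  have e := Pool.Agent.Q8.TP.Nat2.sha (Pool.Agent.Q8.TP.nat2 (vr_one h.m4) (delta_EQ h.m4))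
  have e2 : (∀ x : Sha (EX D), 2 • x = 0 → x = 0) ↔ ∀ x : Sha (EQ D), 2 • x = 0 → x = 0 := by
    constructor
    · intro h x hx
      have h2 := h (e x) (by rw [← map_nsmul, hx, map_zero])
      exact (map_eq_zero_iff e e.injective).1 h2
    · intro h x hx
      have h2 := h (e.symm x) (by rw [← map_nsmul, hx, map_zero])
      exact (map_eq_zero_iff e.symm e.symm.injective).1 h2
  rw [e2]
  constructor
  · rintro ⟨h1, h2⟩
    refine ⟨Finite.of_equiv _ ((vr_two h.m4).equiv (delta_EX h.ne)).toEquiv.symm, fun x hx => ?_⟩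
    exact h2 1 x (by rw [pow_one]; exact hx)
  · rintro ⟨h1, h2⟩
    refine ⟨Finite.of_equiv _ ((vr_one h.m4).equiv (delta_EQ h.m4)).toEquiv.symm, fun n => ?_⟩
    induction n with
    | zero =>
      intro x hx
      rwa [pow_zero, one_nsmul] at hx
    | succ n ih =>
      intro x hx
      apply h2
      apply ih
      rw [← mul_nsmul', ← pow_succ]
      exact hx

end Pool.Agent.H464.XB.T
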