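import Pool.Graph.R_pool_sql_team_seeded_620a6dc7.H757_X15.MT.OMEGA

/-!
# The real period of the imaginary twists of `X_0(15)` from the period lattice
-/

set_option autoImplicit false

namespace Pool.Agent.H464.XB

open Set Filter Topology PeriodPair MeasureTheory
open Pool.Agent.H285R3.Str (P_conj P'_conj)
open Pool.Agent.Y248.BSD14 (image_eq)
open Pool.Agent.H757_X15 (WD psi_WD int_image)

/-- The Weierstrass function of a lattice stable under conjugation on the imaginary axis. -/
theorem per3 (L : PeriodPair) (T : ℝ) (hT : 0 < T)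
    (h2T : ((2 * T : ℝ) : ℂ) * Complex.I ∈ L.lattice)
    (hnm : ∀ x : ℝ, 0 < x → x < 2 * T → (x : ℂ) * Complex.I ∉ L.lattice)
    (hc : ∀ l ∈ L.lattice, (starRingEnd ℂ) l ∈ L.lattice) (a b e : ℝ)
    (ha : L.g₂ = a) (hb : L.g₃ = b) (he0 : 4 * e ^ 3 - a * e + b = 0)
    (hmax : ∀ x : ℝ, 4 * x ^ 3 - a * x + b = 0 → x ≤ e) :
    ∃ p q : ℝ → ℝ, (∀ x ∈ Ioo (0 : ℝ) T, HasDerivAt p (q x) x) ∧
      (∀ x ∈ Ioo (0 : ℝ) T, q x < 0) ∧
      (∀ x ∈ Ioo (0 : ℝ) T, q x ^ 2 = 4 * p x ^ 3 - a * p x + b) ∧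
      Tendsto p (𝓝[>] 0) atTop ∧ Tendsto p (𝓝[<] T) (𝓝 e) := by
  set p : ℝ → ℝ := fun x => -(L.weierstrassP (x * Complex.I)).re with hp
  set q : ℝ → ℝ := fun x => (L.derivWeierstrassP (x * Complex.I)).im with hq
  have hcx : ∀ x : ℝ, (starRingEnd ℂ) ((x : ℂ) * Complex.I) = -((x : ℂ) * Complex.I) := by
    intro x
    rw [map_mul, Complex.conj_ofReal, Complex.conj_I]
    ring
  have hpx : ∀ x : ℝ, L.weierstrassP (x * Complex.I) = -(p x : ℂ) := by
    intro x
    have := P_conj L hc (x * Complex.I)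
    rw [hcx, L.weierstrassP_neg] at this
    have h2 := (Complex.conj_eq_iff_re.1 this.symm).symm
    rw [h2]
    simp only [hp]
    push_cast
    simp
  have hqx : ∀ x : ℝ, L.derivWeierstrassP (x * Complex.I) = (q x : ℂ) * Complex.I := by
    intro x
    have := P'_conj L hc (x * Complex.I)
    rw [hcx, L.derivWeierstrassP_neg] at this
    apply Complex.ext
    · have h2 := congrArg Complex.re this
      rw [Complex.neg_re, Complex.conj_re] at h2
      have h3 : (L.derivWeierstrassP (x * Complex.I)).re = 0 := by linarith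
      rw [h3]
      simp
    · simp [hq]
  have hopen : IsOpen (L.lattice : Set ℂ)ᶜ := L.isClosed_lattice.isOpen_compl
  have hlin : ∀ x : ℝ, HasDerivAt (fun y : ℂ => y * Complex.I) Complex.I (x : ℂ) := fun x => by
    have := (hasDerivAt_id (x : ℂ)).mul_const Complex.I
    simpa using this
  have hd : ∀ x ∈ Ioo (0 : ℝ) (2 * T), HasDerivAt p (q x) x := by
    intro x hx
    have hx' : (x : ℂ) * Complex.I ∈ (L.lattice : Set ℂ)ᶜ := hnm x hx.1 hx.2
    have h2 : DifferentiableAt ℂ L.weierstrassP ((x : ℂ) * Complex.I) :=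
      (L.differentiableOn_weierstrassP _ hx').differentiableAt (hopen.mem_nhds hx')
    have h3 := h2.hasDerivAt
    rw [L.deriv_weierstrassP] at h3
    have h4 := (h3.comp (x : ℂ) (hlin x)).neg
    have h5 : HasDerivAt (fun y : ℂ => -L.weierstrassP (y * Complex.I))
        ((q x : ℝ) : ℂ) (x : ℂ) := by
      refine h4.congr_deriv ?_
      rw [hqx]
      have hI := Complex.I_mul_I
      linear_combination (-(q x : ℂ)) * hI
    exact h5.real_of_complex
  have hcq : ContinuousOn q (Ioo (0 : ℝ) (2 * T)) := by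
    have h2 : ContinuousOn L.derivWeierstrassP (L.lattice : Set ℂ)ᶜ :=
      L.differentiableOn_derivWeierstrassP.continuousOn
    have h4 : Continuous (fun x : ℝ => (x : ℂ) * Complex.I) := by fun_prop
    have h3 : ContinuousOn (fun x : ℝ => L.derivWeierstrassP (x * Complex.I)) (Ioo (0 : ℝ) (2 * T)) :=
      h2.comp h4.continuousOn (fun x hx => hnm x hx.1 hx.2)
    exact Complex.continuous_im.comp_continuousOn h3
  have hode : ∀ x ∈ Ioo (0 : ℝ) (2 * T), q x ^ 2 = 4 * p x ^ 3 - a * p x + b := by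
    intro x hx
    have h2 := L.derivWeierstrassP_sq (x * Complex.I) (hnm x hx.1 hx.2)
    rw [hpx, hqx, ha, hb] at h2
    have hI := Complex.I_sq
    have h3 : ((q x : ℂ)) ^ 2 = 4 * (p x : ℂ) ^ 3 - a * p x + b := by
      linear_combination -h2 + (q x : ℂ) ^ 2 * hI
    exact_mod_cast h3
  have htop : Tendsto p (𝓝[>] 0) atTop := by
    have h2 : ∀ x : ℝ, p x = -(L.weierstrassPExcept 0 (x * Complex.I)).re + 1 / x ^ 2 := by
      intro x
      have h3 := L.weierstrassPExcept_add 0 (x * Complex.I)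
      simp only [Submodule.coe_zero, sub_zero] at h3
      simp only [hp]
      rw [← h3]
      rw [Complex.add_re]
      have : (1 / ((x : ℂ) * Complex.I) ^ 2 - 1 / (0 : ℂ) ^ 2) = ((-(1 / x ^ 2) : ℝ) : ℂ) := by
        rw [mul_pow, Complex.I_sq]
        push_cast
        simp
      rw [this, Complex.ofReal_re]
      ring
    have h3 : ContinuousAt (fun x : ℝ => -(L.weierstrassPExcept 0 (x * Complex.I)).re) 0 := by
      have h4 : ContinuousAt (L.weierstrassPExcept 0) (((0 : ℝ) : ℂ) * Complex.I) := by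
        refine ((L.differentiableOn_weierstrassPExcept 0).differentiableAt ?_).continuousAt
        have := L.compl_lattice_sdiff_singleton_mem_nhds 0
        rw [Complex.ofReal_zero, zero_mul]
        exact this
      have h5 : ContinuousAt (fun x : ℝ => (x : ℂ) * Complex.I) 0 := by fun_prop
      exact (Complex.continuous_re.continuousAt.comp
        (ContinuousAt.comp (f := fun x : ℝ => (x : ℂ) * Complex.I) h4 h5)).neg
    have h4 : Tendsto (fun x : ℝ => -(L.weierstrassPExcept 0 (x * Complex.I)).re) (𝓝[>] 0)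
        (𝓝 (-(L.weierstrassPExcept 0 (((0 : ℝ) : ℂ) * Complex.I)).re)) :=
      h3.tendsto.mono_left nhdsWithin_le_nhds
    have h5 : Tendsto (fun x : ℝ => 1 / x ^ 2) (𝓝[>] 0) atTop := by
      have h6 : Tendsto (fun x : ℝ => (x⁻¹) ^ 2) (𝓝[>] 0) atTop :=
        (tendsto_pow_atTop two_ne_zero).comp tendsto_inv_nhdsGT_zero
      refine h6.congr fun x => ?_
      rw [one_div, inv_pow]
    have h7 := h4.add_atTop h5
    exact h7.congr fun x => (h2 x).symm
  have hhalf : T ∈ Ioo (0 : ℝ) (2 * T) := by constructor <;> linarith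
  have hq0 : q T = 0 := by
    have h2 : L.derivWeierstrassP (-((T : ℝ) * Complex.I)) =
        - L.derivWeierstrassP ((T : ℝ) * Complex.I) := L.derivWeierstrassP_neg _
    have h3 : L.derivWeierstrassP (-((T : ℝ) * Complex.I) + (⟨_, h2T⟩ : L.lattice)) =
        L.derivWeierstrassP (-((T : ℝ) * Complex.I)) := L.derivWeierstrassP_add_coe _ _
    have h4 : -((T : ℝ) * Complex.I) + ((⟨_, h2T⟩ : L.lattice) : ℂ) = ((T : ℝ) : ℂ) * Complex.I := by
      push_cast; ring
    rw [h4, h2, hqx] at h3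
    have h6 : (q T : ℂ) * Complex.I + q T * Complex.I = 0 := by
      linear_combination h3
    have h7 : (2 * (q T : ℂ)) * Complex.I = 0 := by linear_combination h6
    have h8 := (mul_eq_zero.1 h7).resolve_right Complex.I_ne_zero
    have h5 : 2 * q T = 0 := by exact_mod_cast h8
    linarith
  have hsub : Ioo (0 : ℝ) T ⊆ Ioo (0 : ℝ) (2 * T) := Ioo_subset_Ioo_right (by linarith)
  have hqne : ∀ x ∈ Ioo (0 : ℝ) T, q x ≠ 0 := by
    intro x hx h0
    have h1 : (2 : ℂ) * ((x : ℂ) * Complex.I) ∉ L.lattice := by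
      have := hnm (2 * x) (by linarith [hx.1]) (by linarith [hx.2])
      push_cast at this
      rw [mul_assoc] at this
      exact this
    apply Wg.wpd_ne L _ h1
    rw [hqx, h0]
    simp
  have hneg : ∀ x ∈ Ioo (0 : ℝ) T, q x < 0 := by
    by_contra hcon
    push Not at hcon
    obtain ⟨x0, hx0, hx0'⟩ := hcon
    have hx0pos : 0 < q x0 := lt_of_le_of_ne hx0' (hqne x0 hx0).symm
    have hall : ∀ x ∈ Ioo (0 : ℝ) T, 0 < q x := by
      intro x hx
      by_contra hn
      have hn' : q x ≤ 0 := not_lt.1 hn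
      obtain ⟨y, hy, hy'⟩ := isPreconnected_Ioo.intermediate_value hx hx0
        (hcq.mono hsub) (show (0 : ℝ) ∈ Icc (q x) (q x0) from ⟨hn', hx0pos.le⟩)
      exact hqne y hy hy'
    have hmono : StrictMonoOn p (Ioo (0 : ℝ) T) := by
      refine strictMonoOn_of_deriv_pos (convex_Ioo _ _) ?_ ?_
      · intro x hx
        exact (hd x (hsub hx)).continuousAt.continuousWithinAt
      · intro x hx
        rw [interior_Ioo] at hx
        rw [(hd x (hsub hx)).deriv]
        exact hall x hx
    have h3 : ∀ᶠ x in 𝓝[>] (0 : ℝ), p x0 < p x := htop.eventually_gt_atTop (p x0)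
    have h4 : ∀ᶠ x in 𝓝[>] (0 : ℝ), x ∈ Ioo (0 : ℝ) x0 := Ioo_mem_nhdsGT hx0.1
    obtain ⟨x, hx, hx'⟩ := (h3.and h4).exists
    have := hmono ⟨hx'.1, hx'.2.trans hx0.2⟩ hx0 hx'.2
    linarith
  have heT : Tendsto p (𝓝[<] T) (𝓝 (p T)) :=
    (hd _ hhalf).continuousAt.tendsto.mono_left nhdsWithin_le_nhds
  have hpT : p T = e := by
    have h1 : 4 * p T ^ 3 - a * p T + b = 0 := by
      rw [← hode T hhalf, hq0]; ring
    refine le_antisymm (hmax _ h1) ?_
    by_contra hlt
    push Not at hlt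
    have himg := (image_eq T hT p q (p T) (fun x hx => hd x (hsub hx)) hneg htop heT).2
    have h2 : e ∈ Ioi (p T) := hlt
    rw [← himg] at h2
    obtain ⟨x, hx, hxe⟩ := h2
    have h3 := hode x (hsub hx)
    rw [hxe, he0] at h3
    exact hqne x hx (by simpa using h3)
  refine ⟨p, q, fun x hx => hd x (hsub hx), hneg, fun x hx => hode x (hsub hx), htop, ?_⟩
  rw [← hpT]
  exact heT

/-- **the period of the imaginary twists** -/
theorem omega_neg (L : PeriodPair) (Op Om : ℝ) (_hOp : 0 < Op) (hOm : 0 < Om)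
    (hg2 : L.g₂ = 481 / 12) (hg3 : L.g₃ = 4879 / 216)
    (hL : ∀ w : ℂ, w ∈ L.lattice ↔ ∃ a b : ℤ, w = a * Op + b * Om * Complex.I)
    (N : ℤ) (hN : (-N) % 4 = 1) (hN0 : 0 < N) :
    Pool.Agent.Y700.Omega (WD (-N)) = 2 * Om / Real.sqrt N := by
  have hN0' : (0 : ℝ) < N := by exact_mod_cast hN0
  set T : ℝ := Om / 2 with hTdef
  have hT : 0 < T := by positivity
  have h2T' : 2 * T = Om := by rw [hTdef]; ring
  -- the lattice
  have h2T : ((2 * T : ℝ) : ℂ) * Complex.I ∈ L.lattice := by
    rw [hL]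
    exact ⟨0, 1, by rw [h2T']; push_cast; ring⟩
  have hnm : ∀ x : ℝ, 0 < x → x < 2 * T → (x : ℂ) * Complex.I ∉ L.lattice := by
    intro x hx0 hx1 hx
    obtain ⟨a, b, h⟩ := (hL _).1 hx
    have hi := congrArg Complex.im h
    simp at hi
    rw [h2T'] at hx1
    rw [hi] at hx0 hx1
    have h2 : (0 : ℝ) < b := by
      by_contra hn
      push Not at hn
      have := mul_nonpos_of_nonpos_of_nonneg hn hOm.le
      linarith
    have h3 : (b : ℝ) < 1 := by
      by_contra hn
      push Not at hn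
      nlinarith
    have h4 : (0 : ℤ) < b := by exact_mod_cast h2
    have h5 : b < (1 : ℤ) := by exact_mod_cast h3
    omega
  have hc : ∀ l ∈ L.lattice, (starRingEnd ℂ) l ∈ L.lattice := by
    intro l hl
    obtain ⟨a, b, rfl⟩ := (hL _).1 hl
    rw [hL]
    refine ⟨a, -b, ?_⟩
    simp
  have hfac : ∀ x : ℝ, 4 * x ^ 3 - 481 / 12 * x + 4879 / 216 =
      4 * ((x - 17 / 6) * ((x - 7 / 12) * (x + 41 / 12))) := by
    intro x; ring
  obtain ⟨p, q, hd, hq, hode, h0, h1⟩ := per3 L T hT h2T hnm hc (481 / 12) (4879 / 216) (17 / 6)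
    (by rw [hg2]; push_cast; ring) (by rw [hg3]; push_cast; ring) (by norm_num)
    (by
      intro x hx
      rw [hfac] at hx
      by_contra hn
      push Not at hn
      have h2 : 0 < x - 17 / 6 := by linarith
      have h3 : 0 < x - 7 / 12 := by linarith
      have h4 : 0 < x + 41 / 12 := by linarith
      have h5 : 0 < 4 * ((x - 17 / 6) * ((x - 7 / 12) * (x + 41 / 12))) := by positivity
      linarith)
  obtain ⟨hinj, himg⟩ := image_eq T hT p q _ hd hq h0 h1
  have hpgt : ∀ x ∈ Ioo (0 : ℝ) T, 17 / 6 < p x := by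
    intro x hx
    have : p x ∈ p '' Ioo (0 : ℝ) T := ⟨x, hx, rfl⟩
    rw [himg] at this
    exact this
  have hpsi : ∀ v : ℝ, Pool.Agent.Y700.psi (WD (-N)) (N * (v + 5 / 12)) =
      N ^ 3 * (4 * v ^ 3 - 481 / 12 * v + 4879 / 216) := by
    intro v
    rw [psi_WD (-N) hN]
    push_cast
    ring
  -- the unbounded component
  have himgA : (fun x => (N : ℝ) * (p x + 5 / 12)) '' Ioo (0 : ℝ) T = Ioi (13 / 4 * N : ℝ) := by
    have h2 : (fun x => (N : ℝ) * (p x + 5 / 12)) '' Ioo (0 : ℝ) T =
        (fun v => (N : ℝ) * (v + 5 / 12)) '' (p '' Ioo (0 : ℝ) T) := by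
      rw [image_image]
    rw [h2, himg]
    ext v
    simp only [mem_image, mem_Ioi]
    constructor
    · rintro ⟨w, hw, rfl⟩
      nlinarith
    · intro hv
      refine ⟨v / N - 5 / 12, ?_, by field_simp; ring⟩
      have : 13 / 4 < v / N := by rw [lt_div_iff₀ hN0']; exact hv
      linarith
  have hA := int_image T hT.le (fun x => (N : ℝ) * (p x + 5 / 12)) (fun x => N * q x) (WD (-N)) N hN0'
    (fun x hx => ((hd x hx).add_const _).const_mul _)
    (fun x hx => mul_ne_zero hN0'.ne' (hq x hx).ne)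
    (by
      intro x hx y hy hxy
      apply hinj hx hy
      have h2 : (N : ℝ) * (p x + 5 / 12) = N * (p y + 5 / 12) := hxy
      have := mul_left_cancel₀ hN0'.ne' h2
      linarith)
    (by
      intro x hx
      rw [hpsi, ← hode x hx]
      ring)
  -- the bounded component
  have hsec : ∀ x ∈ Ioo (0 : ℝ) T, 0 < p x + 41 / 12 := by
    intro x hx
    have := hpgt x hx
    linarith
  have himgB : (fun x => (N : ℝ) * ((-41 / 12 + 25 / (p x + 41 / 12)) + 5 / 12)) ''
      Ioo (0 : ℝ) T = Ioo (-3 * N : ℝ) N := by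
    have h2 : (fun x => (N : ℝ) * ((-41 / 12 + 25 / (p x + 41 / 12)) + 5 / 12)) '' Ioo (0 : ℝ) T =
        (fun v => (N : ℝ) * ((-41 / 12 + 25 / (v + 41 / 12)) + 5 / 12)) '' (p '' Ioo (0 : ℝ) T) := by
      rw [image_image]
    rw [h2, himg]
    ext v
    simp only [mem_image, mem_Ioi, mem_Ioo]
    constructor
    · rintro ⟨w, hw, rfl⟩
      have h3 : 0 < w + 41 / 12 := by linarith
      have h4 : 0 < 25 / (w + 41 / 12) := by positivity
      have h5 : 25 / (w + 41 / 12) < 4 := by
        rw [div_lt_iff₀ h3]; linarith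
      constructor <;> nlinarith
    · rintro ⟨hv1, hv2⟩
      have h3 : 0 < v / N + 3 := by
        have : -3 < v / N := by rw [lt_div_iff₀ hN0']; exact hv1
        linarith
      have h4 : v / N + 3 < 4 := by
        have : v / N < 1 := by rw [div_lt_iff₀ hN0']; linarith
        linarith
      refine ⟨25 / (v / N + 3) - 41 / 12, ?_, ?_⟩
      · have : 25 / 4 < 25 / (v / N + 3) := by
          rw [lt_div_iff₀ h3]; linarith
        linarith
      · rw [sub_add_cancel, div_div_cancel₀ (by norm_num)]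
        field_simp
        ring
  have hB := int_image T hT.le
    (fun x => (N : ℝ) * ((-41 / 12 + 25 / (p x + 41 / 12)) + 5 / 12))
    (fun x => N * (-(25 * q x) / (p x + 41 / 12) ^ 2)) (WD (-N)) N hN0'
    (by
      intro x hx
      have h2 := ((hd x hx).add_const (41 / 12)).fun_inv (hsec x hx).ne'
      have h3 := (((h2.const_mul 25).const_add (-41 / 12)).add_const (5 / 12)).const_mul (N : ℝ)
      refine (h3.congr_deriv ?_).congr_of_eventuallyEq ?_
      · ring
      · exact Filter.Eventually.of_forall fun y => by simp only [div_eq_mul_inv])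
    (fun x hx => mul_ne_zero hN0'.ne' (div_ne_zero (neg_ne_zero.2 (mul_ne_zero (by norm_num)
      (hq x hx).ne)) (pow_ne_zero 2 (hsec x hx).ne')))
    (by
      intro x hx y hy hxy
      apply hinj hx hy
      have h2 := mul_left_cancel₀ hN0'.ne' hxy
      have h3 : 25 / (p x + 41 / 12) = 25 / (p y + 41 / 12) := by linarith
      have hx' := (hsec x hx).ne'
      have hy' := (hsec y hy).ne'
      rw [div_eq_div_iff hx' hy'] at h3
      linarith)
    (by
      intro x hx
      have h2 := (hsec x hx).ne'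
      have h3 := hode x hx
      have h5 : p x = (p x + 41 / 12) - 41 / 12 := by ring
      rw [hpsi]
      set w : ℝ := p x + 41 / 12 with hw
      rw [h5] at h3
      have h4 : (N * (-(25 * q x) / w ^ 2)) ^ 2 =
          (N : ℝ) ^ 2 * (25 ^ 2 * q x ^ 2) / w ^ 4 := by
        field_simp
      rw [h4, h3]
      field_simp
      ring)
  have hset : {x : ℝ | 0 < Pool.Agent.Y700.psi (WD (-N)) x} =
      Ioi (13 / 4 * N : ℝ) ∪ Ioo (-3 * N : ℝ) N := by
    ext x
    simp only [mem_ofPred_eq, mem_union, mem_Ioi, mem_Ioo]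
    have h2 : Pool.Agent.Y700.psi (WD (-N)) x = (x - N) * ((x + 3 * N) * (4 * x - 13 * N)) := by
      rw [psi_WD (-N) hN]
      push_cast
      ring
    rw [h2]
    constructor
    · intro h
      by_contra hn
      push Not at hn
      obtain ⟨hn1, hn2⟩ := hn
      rcases le_or_gt x (-3 * N) with h3 | h3
      · have h4 : x - N < 0 := by linarith
        have h5 : x + 3 * N ≤ 0 := by linarith
        have h6 : 4 * x - 13 * N < 0 := by linarith
        have h7 : 0 ≤ (x + 3 * N) * (4 * x - 13 * N) := mul_nonneg_of_nonpos_of_nonpos h5 h6.le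
        nlinarith
      · have h4 := hn2 h3
        have h5 : 0 ≤ x - N := by linarith
        have h6 : 0 ≤ x + 3 * N := by linarith
        have h7 : 4 * x - 13 * N ≤ 0 := by linarith
        have h8 : (x + 3 * N) * (4 * x - 13 * N) ≤ 0 := mul_nonpos_of_nonneg_of_nonpos h6 h7
        nlinarith
    · rintro (h | ⟨h3, h4⟩)
      · have h5 : 0 < x - N := by linarith
        have h6 : 0 < x + 3 * N := by linarith
        have h7 : 0 < 4 * x - 13 * N := by linarith
        positivity
      · have h5 : x - N < 0 := by linarith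
        have h6 : 0 < x + 3 * N := by linarith
        have h7 : 4 * x - 13 * N < 0 := by linarith
        exact mul_pos_of_neg_of_neg h5 (mul_neg_of_pos_of_neg h6 h7)
  have hdis : Disjoint (Ioi (13 / 4 * N : ℝ)) (Ioo (-3 * N : ℝ) N) := by
    rw [Set.disjoint_left]
    intro x h2 h3
    have h4 : 13 / 4 * (N : ℝ) < x := h2
    have h5 : x < (N : ℝ) := h3.2
    linarith
  rw [himgA] at hA
  rw [himgB] at hB
  rw [Pool.Agent.Y700.Omega, hset, setIntegral_union hdis measurableSet_Ioo hA.1 hB.1, hA.2, hB.2]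
  rw [h2T']
  ring

end Pool.Agent.H464.XB
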