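import Pool.Agent.H464.XB.Sm

/-!
# The odd modular symbol of `X_0(15)`, normalised
-/

set_option autoImplicit false

open Filter Topology

namespace Pool.Agent.H464.XB

open Pool.Agent.XV (Coc CocR SyM t_CM E15)
open Pool.Agent.XV.Uod
open Pool.Agent.XV.MT
open Pool.Agent.W97.MT (ap)

theorem hm_of {f : ℤ → ℤ → ℤ} (hf : Coc f) (hodd : ∀ x M : ℤ, f (-x) M = - f x M) :
    Hm (fun x M => (f x M : ℚ)) := by
  have hq : CocR (fun x M => (f x M : ℚ)) :=
    ⟨fun x M _ => by exact_mod_cast hf.neg2 x M, fun x M _ => by exact_mod_cast hf.per x M,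
      fun a b c d h1 h2 x M h3 _ _ => by exact_mod_cast hf.aff a b c d h1 h2 x M h3⟩
  have hp : ∀ x M : ℤ, M ≠ 0 → (fun x M => (f x M : ℚ)) (-x) M = - (fun x M => (f x M : ℚ)) x M :=
    fun x M _ => by
      have := hodd x M
      simp [this]
  have H := comb hq hq hp hp 0 1
  simpa using H

/-- **the symbol** -/
theorem sym_data : ∃ (L : PeriodPair) (Op Om : ℝ) (sm : ℚ → ℤ), 0 < Op ∧ 0 < Om ∧
    L.g₂ = 481 / 12 ∧ L.g₃ = 4879 / 216 ∧
    (∀ w : ℂ, w ∈ L.lattice ↔ ∃ a b : ℤ, w = a * Op + b * Om * Complex.I) ∧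
    (∀ r : ℚ, 4 * (II r).im = sm r * Om) ∧ SyM sm (fun q => ap E15 q) ∧ sm (1 / 4) = 4 := by
  obtain ⟨L, Op, Om, hOp, hOm, g2, g3, hL⟩ := t_LAT
  have hI := a_int L g2 g3
  have hP := a_opt L g2 g3
  have hii := a_ii
  have hab : ∀ r : ℚ, ∃ a b : ℤ, (4 : ℂ) * II r = a * Op + b * Om * Complex.I :=
    fun r => (hL _).1 (hI.four r)
  choose sp sm hs using hab
  have him : ∀ r : ℚ, 4 * (II r).im = sm r * Om := by
    intro r
    have h := congrArg Complex.im (hs r)
    simpa using h
  have injm : ∀ x y : ℤ, (x : ℝ) * Om = y * Om → x = y := fun x y h => by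
    exact_mod_cast mul_right_cancel₀ hOm.ne' h
  have hneg : ∀ x, sm (-x) = -sm x := by
    intro x
    apply injm
    push_cast
    rw [← him, neg_mul, ← him, hii.conj, Complex.conj_im]
    ring
  have hsm0 : sm 0 = 0 := by
    have := hneg 0
    rw [neg_zero] at this
    omega
  have hper : ∀ x, sm (x + 1) = sm x := by
    intro x
    apply injm
    rw [← him, ← him, hii.per]
  have hS : SyM sm (fun q => ap E15 q) := by
    refine ⟨hper, hneg, ?_, ?_, ?_⟩
    · intro q hq hq15 x
      apply injm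
      push_cast
      have h1 := congrArg Complex.im (hii.hec q hq hq15 x)
      rw [Complex.add_im, Complex.im_sum] at h1
      have h2 : ((ap E15 q : ℂ) * II x).im = (ap E15 q : ℝ) * (II x).im := by
        simp
      rw [h2] at h1
      rw [add_mul, Finset.sum_mul, ← him, mul_assoc, ← him]
      have h3 : ∀ b ∈ Finset.range q, (sm ((x + b) / q) : ℝ) * Om = 4 * (II ((x + b) / q)).im :=
        fun b _ => (him _).symm
      rw [Finset.sum_congr rfl h3, ← Finset.mul_sum]
      linear_combination 4 * h1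
    · intro A B C' D hdet x c hc
      apply injm
      push_cast
      have h1 := congrArg Complex.im (hii.aff A B C' D hdet x c hc)
      rw [Complex.sub_im, Complex.add_im] at h1
      have h0 := him 0
      rw [hsm0] at h0
      have e1 := him (((A * x + B * c : ℤ) : ℚ) / ((15 * C' * x + D * c : ℤ) : ℚ))
      have e2 := him ((x : ℚ) / c)
      have e3 := him ((B : ℚ) / D)
      push_cast at e1 h1 h0
      rw [← e1, add_mul, ← e2, ← e3, h1]
      linarith
    · have h1 := t_MIN.1
      simp only [ap, h1]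
      norm_num
  refine ⟨L, Op, Om, sm, hOp, hOm, g2, g3, hL, him, hS, ?_⟩
  -- multiples of the value at `1/4`
  obtain ⟨hcoc, hodd, h516⟩ := t_CM sm _ hS
  have H := hm_of hcoc hodd
  have h516' : (fun x M : ℤ => ((sm ((x : ℚ) / M) : ℤ) : ℚ)) (5 : ℤ) (16 : ℤ) = 0 := by
    push_cast
    rw [h516]
    norm_num
  have h411 := elev H h516'
  obtain ⟨G, hG⟩ : ∃ G : AddSubgroup ℚ, G = AddSubgroup.zmultiples ((sm (1 / 4) : ℤ) : ℚ) :=
    ⟨_, rfl⟩
  have m14 : (fun x M : ℤ => ((sm ((x : ℚ) / M) : ℤ) : ℚ)) (1 : ℤ) (4 : ℤ) ∈ G := by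
    rw [hG]
    push_cast
    exact AddSubgroup.mem_zmultiples _
  have hz := van G H m14 (by rw [h411]; exact m14)
  -- the period
  have hmem : ((Om : ℂ) * Complex.I) ∈ L.lattice := (hL _).2 ⟨0, 1, by push_cast; ring⟩
  obtain ⟨a, b, c, d, hdet, hF⟩ := (hP _).1 hmem
  have hv := hii.pval a b c d hdet _ hF
  have hcop : IsCoprime (15 * b) d := ⟨-c, a, by linear_combination hdet⟩
  have hd0 : d ≠ 0 := by
    rintro rfl
    have h1 : b * c * 15 = -1 := by linear_combination -hdet
    omega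
  have hbd := hz _ b d rfl hd0 hcop
  rw [hG, AddSubgroup.mem_zmultiples_iff] at hbd
  obtain ⟨k, hk⟩ := hbd
  have hk' : k * sm (1 / 4) = sm ((b : ℚ) / d) := by
    have h : ((k * sm (1 / 4) : ℤ) : ℚ) = ((sm ((b : ℚ) / d) : ℤ) : ℚ) := by
      rw [← hk, zsmul_eq_mul]
      push_cast
      rfl
    exact_mod_cast h
  have h4 : sm ((b : ℚ) / d) = 4 := by
    have h1 := congrArg Complex.im hv
    rw [Complex.sub_im, hii.im0] at h1
    have h2 := him ((b : ℚ) / d)
    simp at h1
    rw [← h1] at h2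
    apply injm
    push_cast
    linarith
  -- divisibility
  have hq := hI.cop (1 / 4) (by norm_num) (by norm_num)
  obtain ⟨a', b', hab'⟩ := (hL _).1 hq
  have h6 : (II (1 / 4)).im = b' * Om := by
    have h1 := congrArg Complex.im hab'
    rw [Complex.sub_im, hii.im0] at h1
    simpa using h1
  have h7 : sm (1 / 4) = 4 * b' := by
    apply injm
    rw [← him, h6]
    push_cast
    ring
  rw [h4, h7] at hk'
  have h8 : k * b' = 1 := by linarith
  have h9 : 0 < b' := by
    have h10 := II_im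
    have h11 := F_z0_im
    rw [h6] at h10
    have h12 : 0 < (b' : ℝ) * Om := by rw [h10]; linarith
    exact_mod_cast (pos_iff_pos_of_mul_pos h12).2 hOm
  have h10 : b' = 1 := by
    have h11 : b' ∣ 1 := ⟨k, by linarith⟩
    have := Int.le_of_dvd one_pos h11
    omega
  rw [h7, h10]
  norm_num

end Pool.Agent.H464.XB
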