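import Pool.Graph.R_pool_sql_team_seeded_3dad9d7b.XV.T.Core
import Pool.Agent.H464.XB.An
import Pool.Agent.H464.XB.SmB
import Pool.Agent.H464.XB.Om
import Pool.Agent.H464.XB.Bsd

/-!
# The central value of the imaginary twists of `X_0(15)`
-/

set_option autoImplicit false
set_option linter.all false

namespace Pool.Agent.H464.XB

open Pool.Agent.XV
open Pool.Agent.Z700 (pr)
open Pool.Agent.Y687 (SS)
open Pool.Agent.H757_X15 (WD IsL)
open Pool.Agent.XV.MT (II)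

theorem pr_pf {n : ℕ} (hs : Squarefree n) : pr n.primeFactors = n := Nat.prod_primeFactors_of_squarefree hs

theorem pq_pf {n : ℕ} (h : n % 60 = 23 ∨ n % 60 = 47) : Pq n.primeFactors := by
  intro p hp
  have hpp := Nat.prime_of_mem_primeFactors hp
  have hd := Nat.dvd_of_mem_primeFactors hp
  refine ⟨hpp, ?_, ?_, ?_⟩
  · rintro rfl; omega
  · rintro rfl; omega
  · rintro rfl; omega

/-- the sum of the symbols -/
theorem ss_sq {s : ℚ → ℤ} {a : ℕ → ℤ} (hs : SyM s a) (h14 : s (1 / 4) = 4) {n : ℕ}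
    (hn : Squarefree n) (h : n % 60 = 23 ∨ n % 60 = 47) :
    ∃ y : ℕ, SS s n n = 2 * 4 ^ n.primeFactors.card * (y : ℤ) ^ 2 ∧
      (Odd y ↔ Kr n.primeFactors) := by
  have hP := pq_pf h
  have hpr := pr_pf hn
  have hb : Kb (pr n.primeFactors) := by rw [hpr]; exact h
  have hβ : (3 : ℤ) ∣ 1 ^ 2 + (pr n.primeFactors : ℤ) := by
    rw [hpr]
    rcases h with h | h <;> omega
  obtain ⟨T, z, hT, hS⟩ := (f_MAIN _ hP).1 hb 1 hβ
  obtain ⟨T', hT', hK⟩ := u_V5 _ hP hb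
  have hTT : T' = T := by
    rw [hT] at hT'
    have : (2 : ℤ) ^ n.primeFactors.card ≠ 0 := by positivity
    exact (mul_left_cancel₀ this hT').symm
  rw [hTT] at hK
  have h1 := (f_E56 s a hs _ hP).1 hb 1 hβ
  rw [hS, h14, hpr] at h1
  obtain ⟨u, hu⟩ : ∃ u : ℤ, u = T + 2 * z := ⟨_, rfl⟩
  obtain ⟨k, hk⟩ : ∃ k : ℕ, k = n.primeFactors.card := ⟨_, rfl⟩
  rw [← hu, ← hk] at h1
  rw [← hk]
  have hp : ((2 : ℤ) ^ k * u) ^ 2 = 4 ^ k * u ^ 2 := by
    rw [mul_pow, ← pow_mul, mul_comm k 2, pow_mul]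
    norm_num
  rw [hp] at h1
  -- `3` divides `u`
  have h3 : (3 : ℤ) ∣ u := by
    have h4 : (3 : ℤ) ∣ 4 ^ k * u ^ 2 := by
      have h5 : (3 : ℤ) ∣ 2 * (4 ^ k * u ^ 2) := ⟨3 * SS s n n, by linarith⟩
      exact (IsCoprime.dvd_of_dvd_mul_left (by norm_num) h5)
    have hp3 : Prime (3 : ℤ) := Int.prime_three
    rcases hp3.dvd_or_dvd h4 with h5 | h5
    · exfalso
      have h6 := hp3.dvd_of_dvd_pow h5
      norm_num at h6
    · exact hp3.dvd_of_dvd_pow h5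
  obtain ⟨v, hv⟩ := h3
  refine ⟨v.natAbs, ?_, ?_⟩
  · rw [hv] at h1
    have h6 : ((v.natAbs : ℕ) : ℤ) ^ 2 = v ^ 2 := by
      rw [Int.natCast_natAbs, sq_abs]
    rw [h6]
    linarith
  · rw [← hK, Int.natAbs_odd]
    have e : T = 3 * v - 2 * z := by linarith
    rw [e]
    constructor
    · rintro ⟨w, hw⟩
      exact ⟨3 * w + 1 - z, by rw [hw]; ring⟩
    · rintro ⟨w, hw⟩
      exact ⟨w + z - v, by linarith⟩

/-- **the central value** -/
theorem lval {D : ℤ} (h : T.Neg D) : ∃ f : ℂ → ℂ, IsL (WD D) f ∧ 0 < Pool.Agent.Y700.Omega (WD D) ∧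
    ∃ y : ℕ, f 1 = (((y : ℝ) ^ 2 * 4 ^ D.natAbs.primeFactors.card *
      Pool.Agent.Y700.Omega (WD D) / 4 : ℝ) : ℂ) ∧ (Odd y ↔ Kr D.natAbs.primeFactors) := by
  obtain ⟨L, Op, Om, sm, hOp, hOm, g2, g3, hL, him, hS, h14⟩ := sym_data
  obtain ⟨n, hn⟩ : ∃ n : ℕ, n = D.natAbs := ⟨_, rfl⟩
  have hD : D = -(n : ℤ) := by have := h.neg; omega
  have hsq : Squarefree n := by rw [hn]; exact Int.squarefree_natAbs.2 h.sq
  have hn60 : n % 60 = 23 ∨ n % 60 = 47 := by have := h.md; omega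
  have h15 : Nat.Coprime n 15 := by
    have h3 : Nat.Coprime n 3 := by
      rw [Nat.coprime_comm, Nat.Prime.coprime_iff_not_dvd Nat.prime_three]
      omega
    have h5 : Nat.Coprime n 5 := by
      rw [Nat.coprime_comm, Nat.Prime.coprime_iff_not_dvd Nat.prime_five]
      omega
    exact Nat.Coprime.mul_right h3 h5
  obtain ⟨f, hf, hf1⟩ := value hsq (by omega) (by omega) h15 him
  obtain ⟨y, hy, hodd⟩ := ss_sq hS h14 hsq hn60
  have hΩ := omega_neg L Op Om hOp hOm g2 g3 hL (n : ℤ) (by omega) (by omega)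
  rw [← hn, hD]
  have hnR : (0 : ℝ) < n := by exact_mod_cast (by omega : 0 < n)
  have hsn : 0 < Real.sqrt n := Real.sqrt_pos.2 hnR
  have hΩ' : Pool.Agent.Y700.Omega (WD (-(n : ℤ))) = 2 * Om / Real.sqrt n := by
    rw [hΩ]
    push_cast
    rfl
  refine ⟨f, hf, ?_, y, ?_, hodd⟩
  · rw [hΩ']
    positivity
  · rw [hf1, hy, hΩ']
    congr 1
    push_cast
    field_simp

end Pool.Agent.H464.XB
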