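import Pool.Graph.R_seed8.TH841.SH.Grp

/-!
# Points with prescribed classes on curves with full 2-torsion over prime fields (copy of a file of helper468)
-/

set_option autoImplicit false
set_option linter.all false

open scoped Classical

namespace Pool.Agent.H464.XB

open WeierstrassCurve
open Pool.Agent.TH841.SH

theorem card_hom {G H : Type} [AddCommGroup G] [AddCommGroup H] (f : G →+ H) :
    Nat.card G = Nat.card f.range * Nat.card f.ker := by
  rw [AddSubgroup.card_eq_card_quotient_mul_card_addSubgroup f.ker]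
  congr 1
  exact Nat.card_congr (QuotientAddGroup.quotientKerEquivRange f).toEquiv

/-- a theorem of Lang type for the points of order two -/
theorem lang {G : Type} [AddCommGroup G] (F : G →+ G) (hdiv : ∀ P : G, ∃ Q, P = Q + Q)
    (hfix : ∀ T : G, T + T = 0 → F T = T) (hfin : Finite {P : G // F P = P}) (T : G)
    (hT : T + T = 0) : ∃ Q, F Q - Q = T := by
  let δ : G →+ G := F - AddMonoidHom.id G
  have hδ : ∀ Q, δ Q = F Q - Q := fun Q => rfl
  let D2 : G →+ G := AddMonoidHom.id G + AddMonoidHom.id G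
  have hD2 : ∀ Q, D2 Q = Q + Q := fun Q => rfl
  have hA : ∀ P, P ∈ δ.ker ↔ F P = P := fun P => by
    rw [AddMonoidHom.mem_ker, hδ, sub_eq_zero]
  have hG2 : ∀ P, P ∈ D2.ker ↔ P + P = 0 := fun P => by
    rw [AddMonoidHom.mem_ker, hD2]
  let H : AddSubgroup G := (δ.comp D2).ker
  have hH : ∀ Q, Q ∈ H ↔ F (Q + Q) = Q + Q := fun Q => by
    show Q ∈ (δ.comp D2).ker ↔ _
    rw [AddMonoidHom.mem_ker, AddMonoidHom.comp_apply, hD2, hδ, sub_eq_zero]
  haveI fA : Finite δ.ker := Finite.of_equiv _ (Equiv.subtypeEquivRight fun P => (hA P).symm)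
  have hsub : D2.ker ≤ δ.ker := fun P hP => (hA P).2 (hfix P ((hG2 P).1 hP))
  haveI fG2 : Finite D2.ker := Finite.of_injective (AddSubgroup.inclusion hsub)
    (AddSubgroup.inclusion_injective hsub)
  let α : H →+ δ.ker := (D2.comp H.subtype).codRestrict δ.ker fun Q => by
    rw [hA]
    exact (hH Q).1 Q.2
  have hα : ∀ Q : H, (α Q : G) = (Q : G) + Q := fun Q => rfl
  let β : H →+ D2.ker := (δ.comp H.subtype).codRestrict D2.ker fun Q => by
    rw [hG2]
    show (F (Q : G) - Q) + (F (Q : G) - Q) = 0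
    have h1 := (hH Q).1 Q.2
    rw [map_add] at h1
    have h2 : (F (Q : G) - Q) + (F (Q : G) - Q) = (F (Q : G) + F (Q : G)) - ((Q : G) + Q) := by abel
    rw [h2, h1, sub_self]
  have hβ : ∀ Q : H, (β Q : G) = F (Q : G) - Q := fun Q => rfl
  have c1 := card_hom α
  have c2 := card_hom β
  have r1 : α.range = ⊤ := by
    rw [AddMonoidHom.range_eq_top]
    intro P
    obtain ⟨Q, hQ⟩ := hdiv P
    refine ⟨⟨Q, (hH Q).2 ?_⟩, Subtype.ext ?_⟩
    · rw [← hQ]; exact (hA _).1 P.2
    · rw [hα]; exact hQ.symm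
  have k1 : Nat.card α.ker = Nat.card D2.ker := by
    refine Nat.card_congr
      { toFun := fun Q => ⟨Q.1.1, ?_⟩
        invFun := fun Q => ⟨⟨Q.1, ?_⟩, ?_⟩
        left_inv := fun Q => rfl
        right_inv := fun Q => rfl }
    · have h := Q.2
      rw [AddMonoidHom.mem_ker] at h
      have h' := congrArg Subtype.val h
      exact (hG2 _).2 h'
    · have h := (hG2 _).1 Q.2
      rw [hH, h, map_zero]
    · rw [AddMonoidHom.mem_ker]
      exact Subtype.ext ((hG2 _).1 Q.2)
  have k2 : Nat.card β.ker = Nat.card δ.ker := by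
    refine Nat.card_congr
      { toFun := fun Q => ⟨Q.1.1, ?_⟩
        invFun := fun Q => ⟨⟨Q.1, ?_⟩, ?_⟩
        left_inv := fun Q => rfl
        right_inv := fun Q => rfl }
    · have h := Q.2
      rw [AddMonoidHom.mem_ker] at h
      have h' := congrArg Subtype.val h
      rw [AddMonoidHom.mem_ker]
      exact h'
    · have h := (hA _).1 Q.2
      rw [hH, map_add, h]
    · rw [AddMonoidHom.mem_ker]
      have h := Q.2
      rw [AddMonoidHom.mem_ker] at h
      exact Subtype.ext h
  have r1' : Nat.card α.range = Nat.card δ.ker := by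
    rw [r1]
    exact Nat.card_congr (Equiv.Set.univ _)
  rw [k1, r1'] at c1
  rw [k2, c1, mul_comm] at c2
  have pA : 0 < Nat.card δ.ker := Nat.card_pos
  have c3 : Nat.card D2.ker = Nat.card β.range := Nat.eq_of_mul_eq_mul_right pA c2
  have htop : β.range = ⊤ := AddSubgroup.eq_top_of_card_eq _ c3.symm
  obtain ⟨Q, hQ⟩ := (AddMonoidHom.range_eq_top.1 htop) ⟨T, (hG2 T).2 hT⟩
  exact ⟨Q, congrArg Subtype.val hQ⟩

section ff

variable {k : Type} [Field k]

theorem isR_base {W : WeierstrassCurve k} {a b c : k} (h : IsR W a b c) (L : Type) [Field L]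
    [Algebra k L] : IsR (W.baseChange L) (algebraMap k L a) (algebraMap k L b)
      (algebraMap k L c) where
  h1 := by
    show algebraMap k L W.a₁ = 0
    rw [h.h1, map_zero]
  h2 := by
    show algebraMap k L W.a₂ = _
    rw [h.h2, map_neg, map_add, map_add]
  h3 := by
    show algebraMap k L W.a₃ = 0
    rw [h.h3, map_zero]
  h4 := by
    show algebraMap k L W.a₄ = _
    rw [h.h4, map_add, map_add, map_mul, map_mul, map_mul]
  h6 := by
    show algebraMap k L W.a₆ = _
    rw [h.h6, map_neg, map_mul, map_mul]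

theorem map_gf {W : WeierstrassCurve k} {a b c : k} {L : Type} [Field L]
    [Algebra k L] (φ : L →ₐ[k] L) (R : (W.baseChange L).toAffine.Point) :
    φ (gf (W.baseChange L) (algebraMap k L a) (algebraMap k L b) (algebraMap k L c) R) =
      gf (W.baseChange L) (algebraMap k L a) (algebraMap k L b) (algebraMap k L c)
        (Affine.Point.map (W' := W) φ R) := by
  rcases R with _ | ⟨u, v, h⟩
  · exact map_zero φ
  · rw [Affine.Point.map_some]
    show φ (((u - algebraMap k L a) ^ 2 - (algebraMap k L a - algebraMap k L b) *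
      (algebraMap k L a - algebraMap k L c)) / (2 * v)) = ((φ u - algebraMap k L a) ^ 2 -
      (algebraMap k L a - algebraMap k L b) * (algebraMap k L a - algebraMap k L c)) / (2 * φ v)
    simp only [map_div₀, map_sub, map_pow, map_mul, map_ofNat, AlgHom.commutes]

end ff

section prime

variable {p : ℕ} [hp : Fact p.Prime]

theorem fix_frob {L : Type} [Field L] [Algebra (ZMod p) L] {x : L} (hx : x ^ p = x) :
    ∃ y : ZMod p, algebraMap (ZMod p) L y = x := by
  by_contra hcon
  push Not at hcon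
  have hinj : Function.Injective (algebraMap (ZMod p) L) := (algebraMap (ZMod p) L).injective
  set f : Polynomial L := Polynomial.X ^ p - Polynomial.X with hf
  have hp1 : 1 < p := hp.out.one_lt
  have hf0 : f ≠ 0 := FiniteField.X_pow_card_sub_X_ne_zero L hp1
  have hdeg : f.natDegree = p := FiniteField.X_pow_card_sub_X_natDegree_eq L hp1
  set S : Finset L := insert x (Finset.univ.image (algebraMap (ZMod p) L)) with hS
  have hcard : S.card = p + 1 := by
    rw [hS, Finset.card_insert_of_notMem, Finset.card_image_of_injective _ hinj,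
      Finset.card_univ, ZMod.card]
    intro h
    rw [Finset.mem_image] at h
    obtain ⟨y, -, hy⟩ := h
    exact hcon y hy
  have hsub : S.val ⊆ f.roots := by
    intro z hz
    rw [Polynomial.mem_roots hf0, Polynomial.IsRoot.def, hf]
    simp only [Polynomial.eval_sub, Polynomial.eval_pow, Polynomial.eval_X]
    have hz' : z ∈ S := hz
    rw [hS, Finset.mem_insert, Finset.mem_image] at hz'
    rcases hz' with rfl | ⟨y, -, rfl⟩
    · rw [hx, sub_self]
    · rw [← map_pow, ZMod.pow_card, sub_self]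
  have := Polynomial.card_le_degree_of_subset_roots hsub
  rw [hcard, hdeg] at this
  omega

/-- a point whose class is nontrivial at `a` and `b` -/
theorem ff_point (hp2 : p ≠ 2) {a b c : ZMod p} (hab : a ≠ b) (hac : a ≠ c) (hbc : b ≠ c) :
    ∃ x : ZMod p, IsSquare (x - c) ∧ (x ≠ a → ¬ IsSquare (x - a)) ∧
      (x ≠ b → ¬ IsSquare (x - b)) := by
  let Ω : Type := AlgebraicClosure (ZMod p)
  have hinj : Function.Injective (algebraMap (ZMod p) Ω) := (algebraMap (ZMod p) Ω).injective
  have h2k : (2 : ZMod p) ≠ 0 := by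
    intro h
    have h3 : ((2 : ℕ) : ZMod p) = 0 := by exact_mod_cast h
    rw [ZMod.natCast_eq_zero_iff] at h3
    exact hp2 ((Nat.prime_dvd_prime_iff_eq hp.out Nat.prime_two).1 h3)
  have h2 : (2 : Ω) ≠ 0 := by
    have h3 := (map_ne_zero (algebraMap (ZMod p) Ω)).2 h2k
    rwa [map_ofNat] at h3
  let W : WeierstrassCurve (ZMod p) := ⟨0, -(a + b + c), 0, a * b + a * c + b * c, -(a * b * c)⟩
  have hW : IsR W a b c := ⟨rfl, rfl, rfl, rfl, rfl⟩
  have hb := isR_base hW Ω
  have kab := hinj.ne hab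
  have kac := hinj.ne hac
  have kbc := hinj.ne hbc
  let φ : Ω →ₐ[ZMod p] Ω := FiniteField.frobeniusAlgHom (ZMod p) Ω
  have hφ : ∀ x, φ x = x ^ p := by
    intro x
    show (FiniteField.frobeniusAlgHom (ZMod p) Ω) x = x ^ p
    rw [FiniteField.coe_frobeniusAlgHom]
    simp only [ZMod.card]
  let F : (W.baseChange Ω).toAffine.Point →+ (W.baseChange Ω).toAffine.Point :=
    Affine.Point.map (W' := W) φ
  have hrat : ∀ x, φ x = x → ∃ y : ZMod p, algebraMap (ZMod p) Ω y = x := by
    intro x hx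
    rw [hφ] at hx
    exact fix_frob hx
  have hfix : ∀ T : (W.baseChange Ω).toAffine.Point, T + T = 0 → F T = T := by
    intro T hT
    have key : ∀ (e : ZMod p) (hn : (W.baseChange Ω).toAffine.Nonsingular
        (algebraMap (ZMod p) Ω e) 0),
        F (.some (algebraMap (ZMod p) Ω e) 0 hn) = .some (algebraMap (ZMod p) Ω e) 0 hn := by
      intro e hn
      show Affine.Point.map (W' := W) φ _ = _
      rw [Affine.Point.map_some]
      congr 1
      · exact φ.commutes e
      · exact map_zero φ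
    rcases hb.tors h2 hT with rfl | ⟨ha, rfl⟩ | ⟨hb', rfl⟩ | ⟨hc, rfl⟩
    · exact map_zero _
    · exact key a ha
    · exact key b hb'
    · exact key c hc
  have hfin : Finite {P : (W.baseChange Ω).toAffine.Point // F P = P} := by
    have hch : ∀ P : {P : (W.baseChange Ω).toAffine.Point // F P = P},
        ∃ o : Option (ZMod p × ZMod p), (o = none ∧ P.1 = 0) ∨
          ∃ (u v : ZMod p) (h : (W.baseChange Ω).toAffine.Nonsingular (algebraMap (ZMod p) Ω u)
            (algebraMap (ZMod p) Ω v)), o = some (u, v) ∧ P.1 = .some _ _ h := by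
      rintro ⟨P, hP⟩
      rcases P with _ | ⟨u, v, h⟩
      · exact ⟨none, Or.inl ⟨rfl, rfl⟩⟩
      · have h3 : Affine.Point.map (W' := W) φ (.some u v h) = .some u v h := hP
        rw [Affine.Point.map_some, Affine.Point.some.injEq] at h3
        obtain ⟨u', rfl⟩ := hrat u h3.1
        obtain ⟨v', rfl⟩ := hrat v h3.2
        exact ⟨some (u', v'), Or.inr ⟨u', v', h, rfl, rfl⟩⟩
    choose o ho using hch
    refine Finite.of_injective o ?_
    intro P P' h
    apply Subtype.ext
    rcases ho P with ⟨h1, h3⟩ | ⟨u, v, hn, h1, h3⟩ <;>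
      rcases ho P' with ⟨h1', h3'⟩ | ⟨u', v', hn', h1', h3'⟩
    · rw [h3, h3']
    · rw [h, h1'] at h1; exact absurd h1 (by simp)
    · rw [h, h1'] at h1; exact absurd h1 (by simp)
    · rw [h, h1'] at h1
      have h4 := Option.some.inj h1
      rw [Prod.mk.injEq] at h4
      obtain ⟨rfl, rfl⟩ := h4
      rw [h3, h3']
  have nc := hb.nons h2 kab kac kbc (x := algebraMap (ZMod p) Ω c) (y := 0) (by ring)
  have hTc := (hb.add_self h2 nc).2 rfl
  obtain ⟨Q, hQ⟩ := lang F (hb.div h2 kab kac kbc) hfix hfin _ hTc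
  have hFQ : F Q = Q + .some _ _ nc := by rw [← hQ]; abel
  -- `Q + Q` is rational and not zero
  have hQ2 : Q + Q ≠ 0 := by
    intro h0
    have h3 := hfix Q h0
    rw [h3, sub_self] at hQ
    exact Affine.Point.some_ne_zero _ hQ.symm
  rcases Q with _ | ⟨u, v, hn⟩
  · exact absurd (add_zero 0) hQ2
  have hv : v ≠ 0 := fun hv => hQ2 ((hb.add_self h2 hn).2 hv)
  obtain ⟨X, Y, hn', e1, hXa⟩ := hb.dup h2 hn hv
  obtain ⟨X', Y', hn'', e1', hXb⟩ := hb.swap.dup h2 hn hv
  rw [e1, Affine.Point.some.injEq] at e1'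
  obtain ⟨rfl, rfl⟩ := e1'
  obtain ⟨X', Y', hn''', e1', hXc⟩ := hb.rot.rot.dup h2 hn hv
  rw [e1, Affine.Point.some.injEq] at e1'
  obtain ⟨rfl, rfl⟩ := e1'
  have hFP : F (.some X Y hn') = .some X Y hn' := by
    rw [← e1, map_add, hFQ]
    have : ∀ A B : (W.baseChange Ω).toAffine.Point, (A + B) + (A + B) = (A + A) + (B + B) :=
      fun A B => by abel
    rw [this, hTc, add_zero]
  have hFP' : Affine.Point.map (W' := W) φ (.some X Y hn') = .some X Y hn' := hFP
  rw [Affine.Point.map_some, Affine.Point.some.injEq] at hFP'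
  obtain ⟨x, rfl⟩ := hrat X hFP'.1
  -- signs
  obtain ⟨u1, v1, m1, q1, -, -, sa⟩ := hb.sign h2 kab kac kbc hn hv hTc
  have sa' := sa (not_isX nc kac.symm)
  obtain ⟨u2, v2, m2, q2, -, -, sb⟩ := hb.swap.sign h2 kab.symm kbc kac hn hv hTc
  have sb' := sb (not_isX nc kbc.symm)
  obtain ⟨u3, v3, m3, q3, -, sc, -⟩ := hb.rot.rot.sign h2 kac.symm kbc.symm kab hn hv hTc
  have sc' := sc (isX_some nc)
  rw [← q1, ← hFQ] at sa'
  rw [← q2, ← hFQ] at sb'
  rw [← q3, ← hFQ] at sc'
  have ga := map_gf (W := W) (a := a) (b := b) (c := c) φ (.some u v hn)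
  have gb := map_gf (W := W) (a := b) (b := a) (c := c) φ (.some u v hn)
  have gc := map_gf (W := W) (a := c) (b := a) (c := b) φ (.some u v hn)
  have ga' := ga.trans sa'
  have gb' := gb.trans sb'
  have gc' := gc.trans sc'
  have key : ∀ (e w : ZMod p) (g : Ω), algebraMap (ZMod p) Ω x - algebraMap (ZMod p) Ω e = g ^ 2 →
      φ g = -g → x - e = w * w → x = e := by
    intro e w g hg1 hg2 hw
    have h3 : g ^ 2 = (algebraMap (ZMod p) Ω w) ^ 2 := by
      rw [← hg1, ← map_sub, hw, map_mul, sq]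
    have h4 : φ g = g := by
      rcases sq_eq_sq_iff_eq_or_eq_neg.1 h3 with h | h
      · rw [h]; exact φ.commutes w
      · rw [h, map_neg]; congr 1; exact φ.commutes w
    rw [h4] at hg2
    have h5 : g = 0 := by
      have h6 : 2 * g = 0 := by linear_combination hg2
      exact (mul_eq_zero.1 h6).resolve_left h2
    rw [h5, zero_pow two_ne_zero, ← map_sub] at hg1
    exact sub_eq_zero.1 ((map_eq_zero _).1 hg1)
  obtain ⟨w, hw⟩ := hrat _ gc'
  refine ⟨x, ⟨w, ?_⟩, ?_, ?_⟩
  · apply hinj
    rw [map_mul, map_sub, hw, ← sq]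
    exact hXc
  · rintro hne ⟨w, hw⟩
    exact hne (key a w _ hXa ga' hw)
  · rintro hne ⟨w, hw⟩
    exact hne (key b w _ hXb gb' hw)

end prime

end Pool.Agent.H464.XB
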