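import Pool.Agent.H464.XB.Sel

/-!
# The bijection between the Selmer homomorphisms and the pairs of square classes
-/

set_option autoImplicit false
set_option linter.all false

open scoped Classical

namespace Pool.Agent.H464.XB

open WeierstrassCurve
open Pool.Agent.TH841.SH
open Pool.Agent.W262.SH (QB Pt act LocTriv Sha)
open Pool.Agent.NH3.XT (Loc Sel)

section padic

variable {p : ℕ} [hp : Fact p.Prime]

theorem norm_four_le : ‖(4 : ℚ_[p])‖ ≤ 1 := by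
  have := Padic.norm_int_le_one (p := p) 4
  exact_mod_cast this

theorem norm_four_pos : 0 < ‖(4 : ℚ_[p])‖ := norm_pos_iff.2 (by norm_num)

/-- numbers close to one are squares -/
theorem hens {e : ℚ_[p]} (h : ‖e‖ < ‖(4 : ℚ_[p])‖) : IsSquare (1 + e) := by
  have he1 : ‖e‖ ≤ 1 := h.le.trans norm_four_le
  let ε : ℤ_[p] := ⟨e, he1⟩
  let F : Polynomial ℤ_[p] := Polynomial.X ^ 2 - Polynomial.C (1 + ε)
  have h1 : ‖F.aeval (1 : ℤ_[p])‖ < ‖F.derivative.aeval (1 : ℤ_[p])‖ ^ 2 := by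
    have e1 : F.aeval (1 : ℤ_[p]) = -ε := by
      simp [F]
    have e2 : F.derivative.aeval (1 : ℤ_[p]) = 2 := by
      simp [F]
      norm_num
    rw [e1, e2, norm_neg]
    have e3 : ‖(2 : ℤ_[p])‖ = ‖(2 : ℚ_[p])‖ := by
      rw [PadicInt.norm_def]; rfl
    have e4 : ‖(2 : ℚ_[p])‖ ^ 2 = ‖(4 : ℚ_[p])‖ := by
      rw [← norm_pow]; norm_num
    rw [e3, e4]
    exact h
  obtain ⟨z, hz, -⟩ := hensels_lemma h1
  refine ⟨z, ?_⟩
  have h2 : z ^ 2 - (1 + ε) = 0 := by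
    have : F.aeval z = z ^ 2 - (1 + ε) := by simp [F]
    rw [← this]; exact hz
  have h3 := congrArg (fun x : ℤ_[p] => (x : ℚ_[p])) h2
  simp only [PadicInt.coe_sub, PadicInt.coe_pow, PadicInt.coe_add, PadicInt.coe_one,
    PadicInt.coe_zero] at h3
  have h4 : ((ε : ℤ_[p]) : ℚ_[p]) = e := rfl
  rw [h4] at h3
  linear_combination -h3

theorem pt_p (A B : ℤ) : ∃ q r1 r2 r3 : ℚ_[p], r1 ≠ 0 ∧ r2 ≠ 0 ∧ r3 ≠ 0 ∧ q = r1 ^ 2 ∧
    q - A = r2 ^ 2 ∧ q - B = r3 ^ 2 := by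
  have hpz : (p : ℚ_[p]) ≠ 0 := by exact_mod_cast hp.out.ne_zero
  have hp1 : (1 : ℝ) < p := by exact_mod_cast hp.out.one_lt
  have hpn : ‖(p : ℚ_[p])‖ = (p : ℝ)⁻¹ := Padic.norm_p
  have h4 : ‖(p : ℚ_[p]) ^ 4‖ < ‖(4 : ℚ_[p])‖ := by
    by_cases h2 : p = 2
    · subst h2
      have e : ((2 : ℕ) : ℚ_[2]) ^ 4 = 4 * 4 := by norm_num
      rw [e, norm_mul]
      have h5 : ‖(4 : ℚ_[2])‖ < 1 := by
        have h6 : ‖((4 : ℤ) : ℚ_[2])‖ < 1 := Padic.norm_intCast_lt_one_iff.2 (by norm_num)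
        exact_mod_cast h6
      exact mul_lt_of_lt_one_left norm_four_pos h5
    · have h5 : ‖(4 : ℚ_[p])‖ = 1 := by
        have h6 : ¬ (p : ℤ) ∣ 4 := by
          intro h'
          have h7 : (p : ℤ) ∣ 2 ^ 2 := by norm_num; exact h'
          have h8 := (Nat.prime_iff_prime_int.1 hp.out).dvd_of_dvd_pow h7
          exact h2 ((Nat.prime_dvd_prime_iff_eq hp.out Nat.prime_two).1 (by exact_mod_cast h8))
        have h8 : ‖((4 : ℤ) : ℚ_[p])‖ = 1 := by
          rcases (Padic.norm_int_le_one (p := p) 4).lt_or_eq with h2 | h2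
          · exact absurd (Padic.norm_intCast_lt_one_iff.1 h2) h6
          · exact h2
        exact_mod_cast h8
      rw [h5, norm_pow, hpn]
      exact pow_lt_one₀ (by positivity) (inv_lt_one_of_one_lt₀ hp1) (by norm_num)
  have key : ∀ c : ℤ, ∃ r : ℚ_[p], r ≠ 0 ∧ ((p : ℚ_[p]) ^ 2)⁻¹ ^ 2 + c = r ^ 2 := by
    intro c
    have h5 : ‖(c : ℚ_[p]) * (p : ℚ_[p]) ^ 4‖ < ‖(4 : ℚ_[p])‖ := by
      rw [norm_mul]
      exact (mul_le_of_le_one_left (norm_nonneg _) (Padic.norm_int_le_one c)).trans_lt h4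
    obtain ⟨r, hr⟩ := hens h5
    refine ⟨r / (p : ℚ_[p]) ^ 2, div_ne_zero ?_ (pow_ne_zero 2 hpz), ?_⟩
    · rintro rfl
      rw [mul_zero] at hr
      have : (c : ℚ_[p]) * (p : ℚ_[p]) ^ 4 = -1 := by linear_combination hr
      rw [this, norm_neg, norm_one] at h5
      exact absurd norm_four_le (not_le.2 h5)
    · rw [div_pow, sq r, ← hr]
      field_simp
  obtain ⟨r2, n2, e2⟩ := key (-A)
  obtain ⟨r3, n3, e3⟩ := key (-B)
  push_cast at e2 e3
  exact ⟨((p : ℚ_[p]) ^ 2)⁻¹ ^ 2, ((p : ℚ_[p]) ^ 2)⁻¹, r2, r3, inv_ne_zero (pow_ne_zero 2 hpz),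
    n2, n3, rfl, by rw [← e2]; ring, by rw [← e3]; ring⟩

end padic

theorem pt_R (A B : ℤ) : ∃ q r1 r2 r3 : ℝ, r1 ≠ 0 ∧ r2 ≠ 0 ∧ r3 ≠ 0 ∧ q = r1 ^ 2 ∧
    q - A = r2 ^ 2 ∧ q - B = r3 ^ 2 := by
  have h1 : (A : ℝ) ≤ |(A : ℝ)| := le_abs_self _
  have h2 : (B : ℝ) ≤ |(B : ℝ)| := le_abs_self _
  have h3 : 0 ≤ |(A : ℝ)| := abs_nonneg _
  have h4 : 0 ≤ |(B : ℝ)| := abs_nonneg _
  set q : ℝ := 1 + |(A : ℝ)| + |(B : ℝ)| with hq
  have a0 : 0 < q := by linarith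
  have a1 : 0 < q - A := by linarith
  have a2 : 0 < q - B := by linarith
  exact ⟨q, Real.sqrt q, Real.sqrt (q - A), Real.sqrt (q - B), (Real.sqrt_pos.2 a0).ne',
    (Real.sqrt_pos.2 a1).ne', (Real.sqrt_pos.2 a2).ne', (Real.sq_sqrt a0.le).symm,
    (Real.sq_sqrt a1.le).symm, (Real.sq_sqrt a2.le).symm⟩

/-- a local point trivializes the class -/
theorem loc_triv {W : WeierstrassCurve ℚ} {A B : ℤ} {a b c l : ℚ} (m : Md W A B a b c l)
    {f : (QB ≃ₐ[ℚ] QB) → Pt W QB} (hf : ∀ σ, f σ + f σ = 0) {e e' : ℤ} (he : e ≠ 0) (he' : e' ≠ 0)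
    {s s' : QB} (hs : s ^ 2 = e) (hs' : s' ^ 2 = e')
    (h1 : ∀ σ : QB ≃ₐ[ℚ] QB, σ s = s ↔ IsX (W.baseChange QB) (algebraMap ℚ QB a) (f σ))
    (h2 : ∀ σ : QB ≃ₐ[ℚ] QB, σ s' = s' ↔ IsX (W.baseChange QB) (algebraMap ℚ QB b) (f σ))
    {K : Type} [Field K] [Algebra ℚ K] (h2K : (2 : K) ≠ 0) (hL : Loc K A B e e') :
    LocTriv W K f := by
  have hcz : CharZero K := charZero_of_injective_algebraMap (algebraMap ℚ K).injective
  obtain ⟨x, y, hy, hxy, ⟨u, hu⟩, ⟨w, hw⟩⟩ := hL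
  set L : K := algebraMap ℚ K l with hLd
  have hL0 : L ≠ 0 := by rw [hLd, Ne, map_eq_zero]; exact m.l0
  have eb : algebraMap ℚ K b = algebraMap ℚ K a + A * L ^ 2 := by
    rw [m.hb, map_add, map_mul, map_pow, map_intCast]
  have ec : algebraMap ℚ K c = algebraMap ℚ K a + B * L ^ 2 := by
    rw [m.hc, map_add, map_mul, map_pow, map_intCast]
  have hne : x * (x - A) * (x - B) ≠ 0 := by
    rw [← hxy]; exact pow_ne_zero 2 hy
  have nA := left_ne_zero_of_mul (left_ne_zero_of_mul hne)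
  have nB := right_ne_zero_of_mul (left_ne_zero_of_mul hne)
  have hu0 : u ≠ 0 := by
    rintro rfl
    rw [mul_zero] at hu
    exact (mul_ne_zero nA (by exact_mod_cast he)) hu
  have hw0 : w ≠ 0 := by
    rintro rfl
    rw [mul_zero] at hw
    exact (mul_ne_zero nB (by exact_mod_cast he')) hw
  refine pt_triv m.r m.ab m.ac m.bc hf hs hs' h1 h2 h2K (X := algebraMap ℚ K a + L ^ 2 * x)
    (Y := L ^ 3 * y) (α := L * u) (β := L * w) (mul_ne_zero hL0 hu0) (mul_ne_zero hL0 hw0) ?_ ?_ ?_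
  · rw [eb, ec, mul_pow, hxy]; ring
  · rw [mul_pow, sq u, ← hu]; ring
  · rw [eb, mul_pow, sq w, ← hw]; ring

/-- the homomorphism attached to a pair -/
theorem exists_hom {W : WeierstrassCurve ℚ} {a b c : ℚ} (h : IsR W a b c) (hab : a ≠ b)
    (hac : a ≠ c) (hbc : b ≠ c) {e e' : ℤ} (he : e ≠ 0) (he' : e' ≠ 0)
    {s s' : QB} (hs : s ^ 2 = e) (hs' : s' ^ 2 = e') :
    ∃ f : (QB ≃ₐ[ℚ] QB) → Pt W QB, IsLocallyConstant f ∧ (∀ σ, f σ + f σ = 0) ∧
      (∀ σ τ, f (σ * τ) = f σ + f τ) ∧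
      (∀ σ : QB ≃ₐ[ℚ] QB, σ s = s ↔ IsX (W.baseChange QB) (algebraMap ℚ QB a) (f σ)) ∧
      (∀ σ : QB ≃ₐ[ℚ] QB, σ s' = s' ↔ IsX (W.baseChange QB) (algebraMap ℚ QB b) (f σ)) := by
  have hinj : Function.Injective (algebraMap ℚ QB) := (algebraMap ℚ QB).injective
  have hb := h.base QB
  have kab := hinj.ne hab
  have kac := hinj.ne hac
  have kbc := hinj.ne hbc
  have na := hb.nons two_ne_zero kab kac kbc (x := algebraMap ℚ QB a) (y := 0) (by ring)
  have nb := hb.nons two_ne_zero kab kac kbc (x := algebraMap ℚ QB b) (y := 0) (by ring)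
  have nc := hb.nons two_ne_zero kab kac kbc (x := algebraMap ℚ QB c) (y := 0) (by ring)
  have key : ∀ (r : QB) (d : ℤ), d ≠ 0 → r ^ 2 = d → ∀ σ τ : QB ≃ₐ[ℚ] QB,
      (σ * τ) r = r ↔ (σ r = r ↔ τ r = r) := by
    intro r d hd hr σ τ
    have hr0 : r ≠ 0 := by
      rintro rfl
      rw [zero_pow two_ne_zero] at hr
      exact hd (by exact_mod_cast hr.symm)
    have hrr : -r ≠ r := by
      intro h
      have h1 : (2 : QB) * r = 0 := by linear_combination -h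
      exact hr0 ((mul_eq_zero.1 h1).resolve_left two_ne_zero)
    have mv : ∀ ρ : QB ≃ₐ[ℚ] QB, ρ r = r ∨ ρ r = -r := by
      intro ρ
      have h6 : (ρ r) ^ 2 = r ^ 2 := by rw [← map_pow, hr, map_intCast]
      exact sq_eq_sq_iff_eq_or_eq_neg.1 h6
    rw [AlgEquiv.mul_apply]
    rcases mv σ with h1 | h1 <;> rcases mv τ with h2 | h2 <;>
      simp [h1, h2, hrr]
  let f : (QB ≃ₐ[ℚ] QB) → Pt W QB := fun σ =>
    if σ s = s then (if σ s' = s' then 0 else .some _ _ na) else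
      (if σ s' = s' then .some _ _ nb else .some _ _ nc)
  have hf2 : ∀ σ, f σ + f σ = 0 := by
    intro σ
    by_cases h1 : σ s = s <;> by_cases h2 : σ s' = s'
    · simp only [f, h1, h2, if_true]; exact add_zero _
    · simp only [f, h1, h2, if_true, if_false]; exact (hb.add_self two_ne_zero na).2 rfl
    · simp only [f, h1, h2, if_true, if_false]; exact (hb.add_self two_ne_zero nb).2 rfl
    · simp only [f, h1, h2, if_false]; exact (hb.add_self two_ne_zero nc).2 rfl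
  have ha : ∀ σ : QB ≃ₐ[ℚ] QB, σ s = s ↔ IsX (W.baseChange QB) (algebraMap ℚ QB a) (f σ) := by
    intro σ
    by_cases h1 : σ s = s <;> by_cases h2 : σ s' = s'
    · simp only [f, h1, h2, if_true, true_iff]; exact isX_zero _
    · simp only [f, h1, h2, if_true, if_false, true_iff]; exact isX_some na
    · simp only [f, h1, h2, if_true, if_false, false_iff]; exact not_isX nb kab.symm
    · simp only [f, h1, h2, if_false, false_iff]; exact not_isX nc kac.symm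
  have hb' : ∀ σ : QB ≃ₐ[ℚ] QB, σ s' = s' ↔ IsX (W.baseChange QB) (algebraMap ℚ QB b) (f σ) := by
    intro σ
    by_cases h1 : σ s = s <;> by_cases h2 : σ s' = s'
    · simp only [f, h1, h2, if_true, true_iff]; exact isX_zero _
    · simp only [f, h1, h2, if_true, if_false, false_iff]; exact not_isX na kab
    · simp only [f, h1, h2, if_true, if_false, true_iff]; exact isX_some nb
    · simp only [f, h1, h2, if_false, false_iff]; exact not_isX nc kbc.symm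
  refine ⟨f, ?_, hf2, ?_, ha, hb'⟩
  · have h1 : IsLocallyConstant (fun σ : QB ≃ₐ[ℚ] QB => (σ s, σ s')) :=
      (lc_apply s).prodMk (lc_apply s')
    exact h1.comp fun x => if x.1 = s then (if x.2 = s' then (0 : Pt W QB) else .some _ _ na) else
      (if x.2 = s' then .some _ _ nb else .some _ _ nc)
  · intro σ τ
    have h12 : (f σ + f τ) + (f σ + f τ) = 0 := by
      have : (f σ + f τ) + (f σ + f τ) = (f σ + f σ) + (f τ + f τ) := by abel
      rw [this, hf2, hf2, add_zero]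
    refine hb.ext two_ne_zero kab kac kbc (hf2 _) h12 ?_ ?_
    · rw [← ha, hb.isX_add two_ne_zero kab kac kbc (hf2 σ) (hf2 τ), key s e he hs, ha σ, ha τ]
    · rw [← hb', hb.swap.isX_add two_ne_zero kab.symm kbc kac (hf2 σ) (hf2 τ),
        key s' e' he' hs', hb' σ, hb' τ]

/-- squarefree integers with the same square roots up to automorphisms are equal -/
theorem char_inj {e e' : ℤ} (he : Squarefree e) (he' : Squarefree e') {s s' : QB}
    (hs : s ^ 2 = e) (hs' : s' ^ 2 = e')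
    (h : ∀ σ : QB ≃ₐ[ℚ] QB, σ s = s ↔ σ s' = s') : e = e' := by
  have he0 := he.ne_zero
  have he0' := he'.ne_zero
  have mv : ∀ (r : QB) (d : ℤ), r ^ 2 = d → ∀ ρ : QB ≃ₐ[ℚ] QB, ρ r = r ∨ ρ r = -r := by
    intro r d hr ρ
    have h6 : (ρ r) ^ 2 = r ^ 2 := by rw [← map_pow, hr, map_intCast]
    exact sq_eq_sq_iff_eq_or_eq_neg.1 h6
  have hne : ∀ (r : QB) (d : ℤ), d ≠ 0 → r ^ 2 = d → -r ≠ r := by
    intro r d hd hr h
    have hr0 : r ≠ 0 := by
      rintro rfl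
      rw [zero_pow two_ne_zero] at hr
      exact hd (by exact_mod_cast hr.symm)
    have h1 : (2 : QB) * r = 0 := by linear_combination -h
    exact hr0 ((mul_eq_zero.1 h1).resolve_left two_ne_zero)
  obtain ⟨q, hq⟩ := fix_mem (K := ℚ) (s * s') (fun σ => by
    rw [map_mul]
    rcases mv s e hs σ with h1 | h1 <;> rcases mv s' e' hs' σ with h2 | h2
    · rw [h1, h2]
    · exact absurd (h2.symm.trans ((h σ).1 h1)) (hne s' e' he0' hs')
    · exact absurd (h1.symm.trans ((h σ).2 h2)) (hne s e he0 hs)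
    · rw [h1, h2]; ring)
  have h2 : q ^ 2 = ((e * e' : ℤ) : ℚ) := by
    apply (algebraMap ℚ QB).injective
    rw [map_pow, hq, mul_pow, hs, hs', map_intCast]
    push_cast; ring
  have h3 : IsSquare ((e * e' : ℤ) : ℚ) := ⟨q, by rw [← h2]; ring⟩
  rw [Rat.isSquare_intCast_iff] at h3
  obtain ⟨w, hw⟩ := h3
  -- squarefree numbers whose product is a square are equal
  have hw0 : w ≠ 0 := by
    rintro rfl
    rw [mul_zero] at hw
    exact (mul_ne_zero he0 he0') hw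
  have d1 : w ∣ e' := Squarefree.dvd_of_squarefree_of_mul_dvd_mul_right he ⟨1, by rw [mul_one]; exact hw⟩
  have d2 : w ∣ e := Squarefree.dvd_of_squarefree_of_mul_dvd_mul_left he' ⟨1, by rw [mul_one]; exact hw⟩
  obtain ⟨k', hk'⟩ := d1
  obtain ⟨k, hk⟩ := d2
  have hkk : k * k' = 1 := by
    have h5 : (w * w) * (k * k') = (w * w) * 1 := by
      have h6 : (w * k) * (w * k') = w * w := by rw [← hk, ← hk', hw]
      linear_combination h6
    exact mul_left_cancel₀ (mul_ne_zero hw0 hw0) h5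
  rcases Int.eq_one_or_neg_one_of_mul_eq_one' hkk with ⟨h6, h7⟩ | ⟨h6, h7⟩
  · rw [hk, hk', h6, h7]
  · rw [hk, hk', h6, h7]

/-- **The Selmer homomorphisms and the pairs of square classes.** -/
theorem sel_bij {W : WeierstrassCurve ℚ} {A B : ℤ} {a b c l : ℚ} (m : Md W A B a b c l) :
    Nonempty (selHom W ≃ Sel A B) := by
  have hinj : Function.Injective (algebraMap ℚ QB) := (algebraMap ℚ QB).injective
  have hb := m.r.base QB
  have kab := hinj.ne m.ab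
  have kac := hinj.ne m.ac
  have kbc := hinj.ne m.bc
  have hch : ∀ f : selHom W, ∃ v : ℤ × ℤ, Squarefree v.1 ∧ Squarefree v.2 ∧
      (∀ s : QB, s ^ 2 = v.1 → ∀ σ : QB ≃ₐ[ℚ] QB,
        σ s = s ↔ IsX (W.baseChange QB) (algebraMap ℚ QB a) (f.1 σ)) ∧
      (∀ s : QB, s ^ 2 = v.2 → ∀ σ : QB ≃ₐ[ℚ] QB,
        σ s = s ↔ IsX (W.baseChange QB) (algebraMap ℚ QB b) (f.1 σ)) := by
    intro f
    obtain ⟨e, h2, h3⟩ := exists_char m.r m.ab m.ac m.bc f.2
    obtain ⟨e', h2', h3'⟩ := exists_char m.r.swap m.ab.symm m.bc m.ac f.2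
    exact ⟨(e, e'), h2, h2', h3, h3'⟩
  choose φ hφ using hch
  have hmem : ∀ f : selHom W, φ f ∈ Sel A B := by
    intro f
    obtain ⟨k0, k0', k1, k2⟩ := hφ f
    refine ⟨k0, k0', ?_, fun p _ => ?_⟩
    · exact loc_gen m f.2.2.1 two_ne_zero inferInstance f.2.2.2.2.2 (pt_R A B) k1 k2
    · exact loc_gen m f.2.2.1 two_ne_zero inferInstance (f.2.2.2.2.1 p) (pt_p A B) k1 k2
  refine ⟨Equiv.ofBijective (fun f => ⟨φ f, hmem f⟩) ⟨?_, ?_⟩⟩
  · intro f g hfg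
    have hfg' : φ f = φ g := congrArg Subtype.val hfg
    apply Subtype.ext
    funext σ
    obtain ⟨-, -, k1, k2⟩ := hφ f
    obtain ⟨-, -, k3, k4⟩ := hφ g
    rw [← hfg'] at k3 k4
    obtain ⟨s, hs⟩ := IsAlgClosed.exists_pow_nat_eq ((φ f).1 : QB) (n := 2) (by norm_num)
    obtain ⟨s', hs'⟩ := IsAlgClosed.exists_pow_nat_eq ((φ f).2 : QB) (n := 2) (by norm_num)
    exact hb.ext two_ne_zero kab kac kbc (f.2.2.1 σ) (g.2.2.1 σ)
      ((k1 s hs σ).symm.trans (k3 s hs σ)) ((k2 s' hs' σ).symm.trans (k4 s' hs' σ))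
  · rintro ⟨⟨e, e'⟩, he, he', hR, hp⟩
    have he0 : e ≠ 0 := he.ne_zero
    have he0' : e' ≠ 0 := he'.ne_zero
    obtain ⟨s, hs⟩ := IsAlgClosed.exists_pow_nat_eq (e : QB) (n := 2) (by norm_num)
    obtain ⟨s', hs'⟩ := IsAlgClosed.exists_pow_nat_eq (e' : QB) (n := 2) (by norm_num)
    obtain ⟨f, f1, f2, f3, f4, f5⟩ := exists_hom m.r m.ab m.ac m.bc he0 he0' hs hs'
    have hf : f ∈ selHom W := ⟨f1, f2, f3,
      fun p _ => loc_triv m f2 he0 he0' hs hs' f4 f5 two_ne_zero (hp p),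
      loc_triv m f2 he0 he0' hs hs' f4 f5 two_ne_zero hR⟩
    refine ⟨⟨f, hf⟩, Subtype.ext ?_⟩
    obtain ⟨k0, k0', k1, k2⟩ := hφ ⟨f, hf⟩
    obtain ⟨t, ht⟩ := IsAlgClosed.exists_pow_nat_eq ((φ ⟨f, hf⟩).1 : QB) (n := 2) (by norm_num)
    obtain ⟨t', ht'⟩ := IsAlgClosed.exists_pow_nat_eq ((φ ⟨f, hf⟩).2 : QB) (n := 2) (by norm_num)
    refine Prod.ext ?_ ?_
    · exact char_inj k0 he ht hs fun σ => (k1 t ht σ).trans (f4 σ).symm
    · exact char_inj k0' he' ht' hs' fun σ => (k2 t' ht' σ).trans (f5 σ).symm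

theorem sel_card {W : WeierstrassCurve ℚ} {A B : ℤ} {a b c l : ℚ} (m : Md W A B a b c l) :
    Nat.card (selHom W) = Nat.card (Sel A B) := by
  obtain ⟨e⟩ := sel_bij m
  exact Nat.card_congr e

end Pool.Agent.H464.XB
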