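import Pool.Agent.H464.XB.FF
import Pool.Graph.R_pool_sql_team_seeded_3dad9d7b.NH57.SQ.XL.SQ
import Pool.Graph.R_pool_sql_team_seeded_3dad9d7b.NH3.XT.Stm
import Pool.Agent.H464.XB.Sel2

/-!
# The local conditions of the 2-Selmer groups at the primes of good reduction (the statement `S_LG` of
the library project XT, which has no proof there)
-/

set_option autoImplicit false
set_option linter.all false

open scoped Classical

namespace Pool.Agent.H464.XB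

open Pool.Agent.NH3.XT (Loc S_LG)
open Pool.Agent.NH57.SQ.XL

section nec

variable {p : ℕ} [hp : Fact p.Prime]

theorem one_lt_p : (1 : ℝ) < p := by exact_mod_cast hp.out.one_lt

/-- norms of squares -/
theorem norm_sq_ne {d z u : ℚ_[p]} (hz : z ≠ 0) (hd : ‖d‖ = (p : ℝ)⁻¹)
    (h : ‖z‖ ^ 2 * ‖d‖ = ‖u‖ ^ 2) : False := by
  have hp1 := one_lt_p (p := p)
  have hp0 : (p : ℝ) ≠ 0 := by linarith
  have hz' : ‖z‖ ≠ 0 := norm_ne_zero_iff.2 hz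
  have hu : u ≠ 0 := by
    rintro rfl
    rw [norm_zero, zero_pow two_ne_zero, hd] at h
    exact (mul_ne_zero (pow_ne_zero 2 hz') (inv_ne_zero hp0)) h
  rw [hd, Padic.norm_eq_zpow_neg_valuation hz, Padic.norm_eq_zpow_neg_valuation hu,
    ← zpow_neg_one, ← zpow_natCast, ← zpow_natCast, ← zpow_mul, ← zpow_mul, ← zpow_add₀ hp0] at h
  have := zpow_right_injective₀ (by linarith) (by linarith) h
  omega

theorem norm_unit {n : ℤ} (h : ¬ (p : ℤ) ∣ n) : ‖(n : ℚ_[p])‖ = 1 := by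
  refine le_antisymm (Padic.norm_int_le_one _) (not_lt.1 fun h1 => h ?_)
  exact Padic.norm_intCast_lt_one_iff.1 h1

theorem nsub_max {x u : ℚ_[p]} (h : ‖x‖ ≠ ‖u‖) : ‖x - u‖ = max ‖x‖ ‖u‖ := by
  rw [sub_eq_add_neg, Padic.add_eq_max_of_ne (by rw [norm_neg]; exact h), norm_neg]

/-- the norm of an abscissa is the norm of a square, `u`, `w` units -/
theorem norm_abs {x u w y : ℚ_[p]} (hu : ‖u‖ = 1) (hw : ‖w‖ = 1) (hx : x ≠ 0)
    (h : y ^ 2 = x * (x - u) * (x - w)) : ∃ z : ℚ_[p], z ≠ 0 ∧ ‖x‖ = ‖z‖ ^ 2 ∨ y = 0 := by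
  by_cases hy : y = 0
  · exact ⟨0, Or.inr hy⟩
  have hx' : 0 < ‖x‖ := norm_pos_iff.2 hx
  rcases lt_trichotomy ‖x‖ 1 with h1 | h1 | h1
  · have e1 : ‖x - u‖ = 1 := by
      have h2 := nsub_max (x := x) (u := u)
        (by rw [hu]; exact h1.ne)
      rw [h2, hu]; exact max_eq_right h1.le
    have e2 : ‖x - w‖ = 1 := by
      have h2 := nsub_max (x := x) (u := w)
        (by rw [hw]; exact h1.ne)
      rw [h2, hw]; exact max_eq_right h1.le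
    refine ⟨y, Or.inl ⟨hy, ?_⟩⟩
    have h3 := congrArg norm h
    rw [norm_pow, norm_mul, norm_mul, e1, e2, mul_one, mul_one] at h3
    exact h3.symm
  · exact ⟨1, Or.inl ⟨one_ne_zero, by rw [h1, norm_one, one_pow]⟩⟩
  · have e1 : ‖x - u‖ = ‖x‖ := by
      have h2 := nsub_max (x := x) (u := u)
        (by rw [hu]; exact h1.ne')
      rw [h2, hu]; exact max_eq_left h1.le
    have e2 : ‖x - w‖ = ‖x‖ := by
      have h2 := nsub_max (x := x) (u := w)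
        (by rw [hw]; exact h1.ne')
      rw [h2, hw]; exact max_eq_left h1.le
    refine ⟨y / x, Or.inl ⟨div_ne_zero hy hx, ?_⟩⟩
    have h3 := congrArg norm h
    rw [norm_pow, norm_mul, norm_mul, e1, e2] at h3
    rw [norm_div, div_pow, h3]
    field_simp

/-- squarefree numbers which are squares times an abscissa are units -/
theorem nec_one {x y t : ℚ_[p]} {u w : ℚ_[p]} (hu : ‖u‖ = 1) (hw : ‖w‖ = 1) (hy : y ≠ 0)
    (h : y ^ 2 = x * (x - u) * (x - w)) {d : ℤ} (hd : Squarefree d) (hs : x * d = t * t) :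
    ¬ (p : ℤ) ∣ d := by
  intro hpd
  have hx : x ≠ 0 := by
    rintro rfl
    rw [zero_mul, zero_mul] at h
    exact hy (by simpa using h)
  obtain ⟨z, ⟨hz, h1⟩ | h1⟩ := norm_abs hu hw hx h
  · obtain ⟨d', e1, -, h2⟩ := SQp.sqf_div hd hpd
    have hdn : ‖(d : ℚ_[p])‖ = (p : ℝ)⁻¹ := by
      rw [e1]
      push_cast
      rw [norm_mul, norm_unit h2, mul_one, Padic.norm_p]
    have h3 := congrArg norm hs
    rw [norm_mul, norm_mul, h1, ← sq ‖t‖] at h3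
    exact norm_sq_ne hz hdn h3
  · exact hy h1

end nec

section suf

variable {p : ℕ} [hp : Fact p.Prime]

theorem jac_pm {n : ℤ} (hn : ¬ (p : ℤ) ∣ n) : jacobiSym n p = 1 ∨ jacobiSym n p = -1 := by
  refine jacobiSym.eq_one_or_neg_one ?_
  have h1 : IsCoprime n (p : ℤ) := by
    rw [isCoprime_comm, Prime.coprime_iff_not_dvd (Nat.prime_iff_prime_int.1 hp.out)]
    exact hn
  exact Int.isCoprime_iff_gcd_eq_one.1 h1

theorem ndm {a b : ℤ} (ha : ¬ (p : ℤ) ∣ a) (hb : ¬ (p : ℤ) ∣ b) : ¬ (p : ℤ) ∣ a * b := fun h =>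
  ((Nat.prime_iff_prime_int.1 hp.out).dvd_or_dvd h).elim ha hb

/-- a symbol is determined by the residue class -/
theorem jac_of_sq {n : ℤ} (hn : ¬ (p : ℤ) ∣ n) (h : IsSquare (n : ZMod p)) : jacobiSym n p = 1 := by
  rw [← jacobiSym.legendreSym.to_jacobiSym]
  have h0 : ((n : ℤ) : ZMod p) ≠ 0 := by
    intro h
    exact hn ((ZMod.intCast_zmod_eq_zero_iff_dvd _ _).1 h)
  rwa [legendreSym.eq_one_iff p h0]

theorem jac_of_nsq {n : ℤ} (hn : ¬ (p : ℤ) ∣ n) (h : ¬ IsSquare (n : ZMod p)) :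
    jacobiSym n p = -1 := by
  rcases jac_pm hn with h1 | h1
  · exfalso
    rw [← jacobiSym.legendreSym.to_jacobiSym] at h1
    have h0 : ((n : ℤ) : ZMod p) ≠ 0 := by
      intro h
      exact hn ((ZMod.intCast_zmod_eq_zero_iff_dvd _ _).1 h)
    exact h ((legendreSym.eq_one_iff p h0).1 h1)
  · exact h1

theorem core (hp2 : p ≠ 2) {e1 e2 e3 d0 : ℤ} (h12 : ¬ (p : ℤ) ∣ e1 - e2)
    (h13 : ¬ (p : ℤ) ∣ e1 - e3) (h23 : ¬ (p : ℤ) ∣ e2 - e3) (hd0 : ¬ (p : ℤ) ∣ d0)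
    (hj0 : jacobiSym d0 p = -1) :
    ∃ X : ℤ, X ≠ e1 ∧ X ≠ e2 ∧ X ≠ e3 ∧ IsSquare ((X - e3 : ℤ) : ℚ_[p]) ∧
      ∀ d : ℤ, ¬ (p : ℤ) ∣ d → jacobiSym d p = -1 →
        IsSquare (((X - e1) * d : ℤ) : ℚ_[p]) ∧ IsSquare (((X - e2) * d : ℤ) : ℚ_[p]) := by
  have hpz : (p : ℤ) ≠ 0 := by exact_mod_cast hp.out.ne_zero
  have nz : ∀ {a b : ℤ}, ¬ (p : ℤ) ∣ a - b → (a : ZMod p) ≠ b := by
    intro a b h h'
    apply h
    rw [← ZMod.intCast_zmod_eq_zero_iff_dvd]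
    push_cast
    rw [h', sub_self]
  have nz' : ∀ {a b : ℤ}, (a : ZMod p) ≠ b → ¬ (p : ℤ) ∣ a - b := by
    intro a b h h'
    apply h
    rw [← ZMod.intCast_zmod_eq_zero_iff_dvd] at h'
    push_cast at h'
    exact sub_eq_zero.1 h'
  have sqq : ∀ {n : ℤ}, ¬ (p : ℤ) ∣ n → jacobiSym n p = 1 → IsSquare (n : ℚ_[p]) :=
    fun hn h => (SQp.iff_jac hp2 hn).2 h
  have dd0 : ∀ d : ℤ, ¬ (p : ℤ) ∣ d → jacobiSym d p = -1 →
      IsSquare (((p : ℤ) ^ 2 * d0 * d : ℤ) : ℚ_[p]) := by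
    intro d hd hj
    obtain ⟨z, hz⟩ := sqq (ndm hd0 hd) (by rw [jacobiSym.mul_left, hj0, hj]; norm_num)
    refine ⟨p * z, ?_⟩
    push_cast at hz ⊢
    linear_combination ((p : ℚ_[p]) ^ 2) * hz
  -- the value at a residue class with a given symbol
  have val : ∀ (n : ℤ), ¬ (p : ℤ) ∣ n → jacobiSym n p = -1 → ∀ d : ℤ, ¬ (p : ℤ) ∣ d →
      jacobiSym d p = -1 → IsSquare ((n * d : ℤ) : ℚ_[p]) := fun n hn hj d hd hjd =>
    sqq (ndm hn hd) (by rw [jacobiSym.mul_left, hj, hjd]; norm_num)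
  have shift : ∀ n m : ℤ, jacobiSym (n + (p : ℤ) ^ 2 * m) p = jacobiSym n p := by
    intro n m
    rw [jacobiSym.mod_left, jacobiSym.mod_left n]
    congr 1
    rw [show n + (p : ℤ) ^ 2 * m = n + (p : ℤ) * (p * m) by ring, Int.add_mul_emod_self_left]
  have shift' : ∀ n m : ℤ, ¬ (p : ℤ) ∣ n → ¬ (p : ℤ) ∣ n + (p : ℤ) ^ 2 * m := by
    intro n m hn h
    apply hn
    have h1 : (p : ℤ) ∣ (p : ℤ) ^ 2 * m := ⟨p * m, by ring⟩
    exact (dvd_add_left h1).1 h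
  have ne_of : ∀ {a b : ℤ}, ¬ (p : ℤ) ∣ a - b → a ≠ b := by
    rintro a b h rfl
    exact h (by rw [sub_self]; exact dvd_zero _)
  have n21 : ¬ (p : ℤ) ∣ e2 - e1 := fun h => h12 (by rw [← neg_sub]; exact (dvd_neg).2 h)
  have n31 : ¬ (p : ℤ) ∣ e3 - e1 := fun h => h13 (by rw [← neg_sub]; exact (dvd_neg).2 h)
  have n32 : ¬ (p : ℤ) ∣ e3 - e2 := fun h => h23 (by rw [← neg_sub]; exact (dvd_neg).2 h)
  obtain ⟨x, hc, ha, hb⟩ := ff_point (p := p) hp2 (a := (e1 : ZMod p)) (b := (e2 : ZMod p))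
    (c := (e3 : ZMod p)) (nz h12) (nz h13) (nz h23)
  obtain ⟨r, rfl⟩ := ZMod.intCast_surjective x
  by_cases k3 : (r : ZMod p) = e3
  · -- near the third root
    rw [k3] at ha hb
    have ja : jacobiSym (e3 - e1) p = -1 := jac_of_nsq n31 (by
      push_cast; exact ha (nz n31))
    have jb : jacobiSym (e3 - e2) p = -1 := jac_of_nsq n32 (by
      push_cast; exact hb (nz n32))
    have c1 := shift' (e3 - e1) 1 n31
    have c2 := shift' (e3 - e2) 1 n32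
    have E1 : e3 + (p : ℤ) ^ 2 * 1 - e1 = e3 - e1 + (p : ℤ) ^ 2 * 1 := by ring
    have E2 : e3 + (p : ℤ) ^ 2 * 1 - e2 = e3 - e2 + (p : ℤ) ^ 2 * 1 := by ring
    refine ⟨e3 + (p : ℤ) ^ 2 * 1, ne_of (by rw [E1]; exact c1), ne_of (by rw [E2]; exact c2), ?_,
      ⟨p, by push_cast; ring⟩, fun d hd hj => ⟨?_, ?_⟩⟩
    · have := pow_ne_zero 2 hpz
      intro h
      apply this
      linarith
    · rw [E1]; exact val _ c1 (by rw [shift]; exact ja) d hd hj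
    · rw [E2]; exact val _ c2 (by rw [shift]; exact jb) d hd hj
  by_cases k1 : (r : ZMod p) = e1
  · rw [k1] at hc hb
    have jc : jacobiSym (e1 - e3) p = 1 := jac_of_sq h13 (by push_cast; exact hc)
    have jb : jacobiSym (e1 - e2) p = -1 := jac_of_nsq h12 (by push_cast; exact hb (nz h12))
    have c2 := shift' (e1 - e2) d0 h12
    have c3 := shift' (e1 - e3) d0 h13
    have E2 : e1 + (p : ℤ) ^ 2 * d0 - e2 = e1 - e2 + (p : ℤ) ^ 2 * d0 := by ring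
    have E3 : e1 + (p : ℤ) ^ 2 * d0 - e3 = e1 - e3 + (p : ℤ) ^ 2 * d0 := by ring
    refine ⟨e1 + (p : ℤ) ^ 2 * d0, ?_, ne_of (by rw [E2]; exact c2), ne_of (by rw [E3]; exact c3),
      ?_, fun d hd hj => ⟨?_, ?_⟩⟩
    · have h0 : d0 ≠ 0 := by rintro rfl; exact hd0 (dvd_zero _)
      have := mul_ne_zero (pow_ne_zero 2 hpz) h0
      intro h
      apply this
      linarith
    · rw [E3]; exact sqq c3 (by rw [shift]; exact jc)
    · have : e1 + (p : ℤ) ^ 2 * d0 - e1 = (p : ℤ) ^ 2 * d0 := by ring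
      rw [this]; exact dd0 d hd hj
    · rw [E2]; exact val _ c2 (by rw [shift]; exact jb) d hd hj
  by_cases k2 : (r : ZMod p) = e2
  · rw [k2] at hc ha
    have jc : jacobiSym (e2 - e3) p = 1 := jac_of_sq h23 (by push_cast; exact hc)
    have ja : jacobiSym (e2 - e1) p = -1 := jac_of_nsq n21 (by push_cast; exact ha (nz n21))
    have c1 := shift' (e2 - e1) d0 n21
    have c3 := shift' (e2 - e3) d0 h23
    have E1 : e2 + (p : ℤ) ^ 2 * d0 - e1 = e2 - e1 + (p : ℤ) ^ 2 * d0 := by ring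
    have E3 : e2 + (p : ℤ) ^ 2 * d0 - e3 = e2 - e3 + (p : ℤ) ^ 2 * d0 := by ring
    refine ⟨e2 + (p : ℤ) ^ 2 * d0, ne_of (by rw [E1]; exact c1), ?_, ne_of (by rw [E3]; exact c3),
      ?_, fun d hd hj => ⟨?_, ?_⟩⟩
    · have h0 : d0 ≠ 0 := by rintro rfl; exact hd0 (dvd_zero _)
      have := mul_ne_zero (pow_ne_zero 2 hpz) h0
      intro h
      apply this
      linarith
    · rw [E3]; exact sqq c3 (by rw [shift]; exact jc)
    · rw [E1]; exact val _ c1 (by rw [shift]; exact ja) d hd hj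
    · have : e2 + (p : ℤ) ^ 2 * d0 - e2 = (p : ℤ) ^ 2 * d0 := by ring
      rw [this]; exact dd0 d hd hj
  · have c1 := nz' k1
    have c2 := nz' k2
    have c3 := nz' k3
    have ja : jacobiSym (r - e1) p = -1 := jac_of_nsq c1 (by push_cast; exact ha k1)
    have jb : jacobiSym (r - e2) p = -1 := jac_of_nsq c2 (by push_cast; exact hb k2)
    have jc : jacobiSym (r - e3) p = 1 := jac_of_sq c3 (by push_cast; exact hc)
    exact ⟨r, ne_of c1, ne_of c2, ne_of c3, sqq c3 jc, fun d hd hj =>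
      ⟨val _ c1 ja d hd hj, val _ c2 jb d hd hj⟩⟩

theorem loc_good (hp2 : p ≠ 2) {A B d1 d3 : ℤ} (hA : ¬ (p : ℤ) ∣ A) (hB : ¬ (p : ℤ) ∣ B)
    (hAB : ¬ (p : ℤ) ∣ A - B) (h1 : ¬ (p : ℤ) ∣ d1) (h3 : ¬ (p : ℤ) ∣ d3) :
    Loc ℚ_[p] A B d1 d3 := by
  have hn : ∀ {x : ℤ}, ¬ (p : ℤ) ∣ x → ¬ (p : ℤ) ∣ 0 - x := fun h h' => h (by
    rw [zero_sub] at h'; exact (dvd_neg).1 h')
  have hs : ∀ {x : ℤ}, ¬ (p : ℤ) ∣ x → ¬ (p : ℤ) ∣ x - 0 := fun h => by rwa [sub_zero]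
  have hBA : ¬ (p : ℤ) ∣ B - A := fun h => hAB (by rw [← neg_sub]; exact (dvd_neg).2 h)
  have i0 : ∀ {u : ℤ}, u ≠ 0 → (u : ℚ_[p]) ≠ 0 := fun {u} hu => by exact_mod_cast hu
  have fin : ∀ (X d0 : ℤ), d0 ≠ 0 → X ≠ 0 → X ≠ A → X ≠ B → IsSquare ((X * d1 : ℤ) : ℚ_[p]) →
      IsSquare (((X - A) * d3 : ℤ) : ℚ_[p]) →
      IsSquare ((X * (X - A) * (X - B) : ℤ) : ℚ_[p]) → Loc ℚ_[p] A B d1 d3 := by
    rintro X d0 _ n1 n2 n3 s1 s2 ⟨y, hy⟩
    refine ⟨X, y, ?_, ?_, by exact_mod_cast s1, by exact_mod_cast s2⟩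
    · rintro rfl
      rw [mul_zero] at hy
      exact i0 (mul_ne_zero (mul_ne_zero n1 (sub_ne_zero.2 n2)) (sub_ne_zero.2 n3)) hy
    · rw [sq, ← hy]; push_cast; ring
  have comb : ∀ (u v w d : ℤ), d ≠ 0 → IsSquare ((u * d : ℤ) : ℚ_[p]) →
      IsSquare ((v * d : ℤ) : ℚ_[p]) → IsSquare (w : ℚ_[p]) →
      IsSquare ((u * v * w : ℤ) : ℚ_[p]) := by
    rintro u v w d hd ⟨a, ha⟩ ⟨b, hb⟩ ⟨c, hc⟩
    have hd' := i0 hd
    refine ⟨a * b * c / d, ?_⟩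
    push_cast at ha hb ⊢
    field_simp
    linear_combination ((v : ℚ_[p]) * d * w) * ha + (a * a * w) * hb + (a * a * b * b) * hc
  have d0 : d1 ≠ 0 := by rintro rfl; exact h1 (dvd_zero _)
  have d0' : d3 ≠ 0 := by rintro rfl; exact h3 (dvd_zero _)
  rcases jac_pm h1 with j1 | j1 <;> rcases jac_pm h3 with j3 | j3
  · -- the trivial class
    obtain ⟨q, r1, r2, r3, n1, n2, n3, q1, q2, q3⟩ := pt_p (p := p) A B
    obtain ⟨s, hs⟩ := (SQp.iff_jac hp2 h1).2 j1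
    obtain ⟨t, ht⟩ := (SQp.iff_jac hp2 h3).2 j3
    refine ⟨q, r1 * r2 * r3, mul_ne_zero (mul_ne_zero n1 n2) n3, ?_, ⟨r1 * s, ?_⟩, ⟨r2 * t, ?_⟩⟩
    · rw [q2, q3, q1]; ring
    · rw [hs, q1]; ring
    · rw [ht, q2]; ring
  · obtain ⟨X, n1, n2, n3, s3, hs12⟩ := core (p := p) hp2 (e1 := A) (e2 := B) (e3 := 0) (d0 := d3)
      hAB (hs hA) (hs hB) h3 j3
    obtain ⟨s1, s2⟩ := hs12 d3 h3 j3
    rw [sub_zero] at s3
    obtain ⟨a, ha⟩ := s3
    obtain ⟨b, hb⟩ := (SQp.iff_jac hp2 h1).2 j1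
    refine fin X d3 d0' n3 n1 n2 ⟨a * b, ?_⟩ s1 ?_
    · push_cast; rw [ha, hb]; ring
    · have := comb (X - A) (X - B) X d3 d0' s1 s2 ⟨a, ha⟩
      have e : X * (X - A) * (X - B) = (X - A) * (X - B) * X := by ring
      rw [e]; exact this
  · obtain ⟨X, n1, n2, n3, s3, hs12⟩ := core (p := p) hp2 (e1 := 0) (e2 := B) (e3 := A) (d0 := d1)
      (hn hB) (hn hA) hBA h1 j1
    obtain ⟨s1, s2⟩ := hs12 d1 h1 j1
    obtain ⟨a, ha⟩ := s3
    obtain ⟨b, hb⟩ := (SQp.iff_jac hp2 h3).2 j3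
    refine fin X d1 d0 n1 n3 n2 (by rwa [sub_zero] at s1) ⟨a * b, ?_⟩ ?_
    · rw [Int.cast_mul, ha, hb]; ring
    · have := comb (X - 0) (X - B) (X - A) d1 d0 s1 s2 ⟨a, ha⟩
      have e : X * (X - A) * (X - B) = (X - 0) * (X - B) * (X - A) := by ring
      rw [e]; exact this
  · obtain ⟨X, n1, n2, n3, s3, hs12⟩ := core (p := p) hp2 (e1 := 0) (e2 := A) (e3 := B) (d0 := d1)
      (hn hA) (hn hB) hAB h1 j1
    obtain ⟨s1, s2⟩ := hs12 d1 h1 j1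
    refine fin X d1 d0 n1 n2 n3 (by rwa [sub_zero] at s1) (hs12 d3 h3 j3).2 ?_
    have := comb (X - 0) (X - A) (X - B) d1 d0 s1 s2 s3
    rwa [sub_zero] at this

end suf

/-- **The primes of good reduction.** -/
theorem t_LG : S_LG := by
  intro p _ a b c D d1 d3 hp2 habc ha hb hc hD h1 h3
  have hpp := Nat.prime_iff_prime_int.1 (Fact.out : p.Prime)
  have pw : ∀ {x : ℤ}, ¬ (p : ℤ) ∣ x → ¬ (p : ℤ) ∣ x ^ 2 * D := fun hx h =>
    (hpp.dvd_or_dvd h).elim (fun h' => hx (hpp.dvd_of_dvd_pow h')) hD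
  have e : b ^ 2 * D - a ^ 2 * D = c ^ 2 * D := by rw [← habc]; ring
  have e' : a ^ 2 * D - b ^ 2 * D = -(c ^ 2 * D) := by rw [← habc]; ring
  constructor
  · rintro ⟨x, y, hy, hxy, ⟨u, hu⟩, ⟨w, hw⟩⟩
    refine ⟨nec_one (u := ((b ^ 2 * D : ℤ) : ℚ_[p])) (w := ((a ^ 2 * D : ℤ) : ℚ_[p]))
      (norm_unit (pw hb)) (norm_unit (pw ha)) hy hxy h1 hu, ?_⟩
    refine nec_one (x := x - ((b ^ 2 * D : ℤ) : ℚ_[p])) (u := ((-(b ^ 2 * D) : ℤ) : ℚ_[p]))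
      (w := ((-(c ^ 2 * D) : ℤ) : ℚ_[p])) (norm_unit (by rw [dvd_neg]; exact pw hb))
      (norm_unit (by rw [dvd_neg]; exact pw hc)) hy ?_ h3 hw
    rw [hxy, ← e']
    push_cast
    ring
  · rintro ⟨k1, k3⟩
    exact loc_good hp2 (pw hb) (pw ha) (by rw [e]; exact pw hc) k1 k3

end Pool.Agent.H464.XB
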