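import Mathlib
import Pool.Graph.R_seed8.TH841.SH.Grp
import Pool.Graph.R_pool_sql_team_seeded_3dad9d7b.NH3.XT.Stm

/-!
# The 2-Selmer group of a curve with full 2-torsion over `ℚ` and the pairs of square classes

For `W : y² = (x - a) (x - b) (x - c)`, `b = a + A l²`, `c = a + B l²`, the group of the Selmer
homomorphisms `selHom W` is in bijection with the set `Sel A B` of the pairs of squarefree integers
which come from local points everywhere.
-/

set_option autoImplicit false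
set_option linter.all false

open scoped Classical

namespace Pool.Agent.H464.XB

open WeierstrassCurve
open Pool.Agent.TH841.SH
open Pool.Agent.W262.SH (QB Pt act LocTriv Sha)
open Pool.Agent.NH3.XT (Loc Sel)

/-- `W` has the roots `a`, `b = a + A l²`, `c = a + B l²` -/
structure Md (W : WeierstrassCurve ℚ) (A B : ℤ) (a b c l : ℚ) : Prop where
  r : IsR W a b c
  l0 : l ≠ 0
  A0 : A ≠ 0
  B0 : B ≠ 0
  AB : A ≠ B
  hb : b = a + A * l ^ 2
  hc : c = a + B * l ^ 2

section mod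

variable {W : WeierstrassCurve ℚ} {A B : ℤ} {a b c l : ℚ}

theorem Md.ab (m : Md W A B a b c l) : a ≠ b := by
  intro h
  have h1 := m.hb
  have h2 : (A : ℚ) * l ^ 2 = 0 := by linarith
  exact (mul_ne_zero (by exact_mod_cast m.A0) (pow_ne_zero 2 m.l0)) h2

theorem Md.ac (m : Md W A B a b c l) : a ≠ c := by
  intro h
  have h1 := m.hc
  have h2 : (B : ℚ) * l ^ 2 = 0 := by linarith
  exact (mul_ne_zero (by exact_mod_cast m.B0) (pow_ne_zero 2 m.l0)) h2

theorem Md.bc (m : Md W A B a b c l) : b ≠ c := by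
  intro h
  have h1 := m.hc
  have h3 := m.hb
  have h2 : ((A : ℚ) - B) * l ^ 2 = 0 := by linarith
  refine (mul_ne_zero (sub_ne_zero.2 ?_) (pow_ne_zero 2 m.l0)) h2
  exact_mod_cast m.AB

end mod

theorem xor_aux {P A B : Prop} [Decidable P] [Decidable A] [Decidable B] (h : P ↔ (A ↔ B)) :
    decide (¬ P) = xor (decide (¬ A)) (decide (¬ B)) := by
  by_cases hA : A <;> by_cases hB : B <;> simp [h, hA, hB]

/-- the character of a Selmer homomorphism -/
theorem exists_char {W : WeierstrassCurve ℚ} {a b c : ℚ} (h : IsR W a b c) (hab : a ≠ b)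
    (hac : a ≠ c) (hbc : b ≠ c) {f : (QB ≃ₐ[ℚ] QB) → Pt W QB} (hf : f ∈ selHom W) :
    ∃ e : ℤ, Squarefree e ∧ ∀ s : QB, s ^ 2 = e → ∀ σ : QB ≃ₐ[ℚ] QB,
      σ s = s ↔ IsX (W.baseChange QB) (algebraMap ℚ QB a) (f σ) := by
  have hinj : Function.Injective (algebraMap ℚ QB) := (algebraMap ℚ QB).injective
  obtain ⟨h1, h2, h3, -⟩ := hf
  obtain ⟨e, he, hes⟩ := kum (fun σ => decide (¬ IsX (W.baseChange QB) (algebraMap ℚ QB a) (f σ)))
    (h1.comp fun T => decide (¬ IsX (W.baseChange QB) (algebraMap ℚ QB a) T)) (fun σ τ => by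
      have h4 := (h.base QB).isX_add two_ne_zero (hinj.ne hab) (hinj.ne hac) (hinj.ne hbc)
        (h2 σ) (h2 τ)
      simp only [h3]
      exact xor_aux h4)
  refine ⟨e, he, fun s hs σ => ?_⟩
  rw [hes s hs σ]
  simp

/-- the local points attached to a Selmer homomorphism -/
theorem loc_gen {W : WeierstrassCurve ℚ} {A B : ℤ} {a b c l : ℚ} (m : Md W A B a b c l)
    {f : (QB ≃ₐ[ℚ] QB) → Pt W QB} (hf : ∀ σ, f σ + f σ = 0)
    {K : Type} [Field K] [Algebra ℚ K] (h2K : (2 : K) ≠ 0) (hg : IsGalois K (AlgebraicClosure K))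
    (hloc : LocTriv W K f)
    (hpt : ∃ q r1 r2 r3 : K, r1 ≠ 0 ∧ r2 ≠ 0 ∧ r3 ≠ 0 ∧ q = r1 ^ 2 ∧ q - A = r2 ^ 2 ∧
      q - B = r3 ^ 2)
    {e e' : ℤ} (he : ∀ s : QB, s ^ 2 = e → ∀ σ : QB ≃ₐ[ℚ] QB,
      σ s = s ↔ IsX (W.baseChange QB) (algebraMap ℚ QB a) (f σ))
    (he' : ∀ s : QB, s ^ 2 = e' → ∀ σ : QB ≃ₐ[ℚ] QB,
      σ s = s ↔ IsX (W.baseChange QB) (algebraMap ℚ QB b) (f σ)) :
    Loc K A B e e' := by
  obtain ⟨s, hs⟩ := IsAlgClosed.exists_pow_nat_eq (e : QB) (n := 2) (by norm_num)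
  obtain ⟨s', hs'⟩ := IsAlgClosed.exists_pow_nat_eq (e' : QB) (n := 2) (by norm_num)
  have hinjK : Function.Injective (algebraMap ℚ K) := (algebraMap ℚ K).injective
  have h2Ω : (2 : AlgebraicClosure K) ≠ 0 := by
    have h3 := (map_ne_zero (algebraMap K (AlgebraicClosure K))).2 h2K
    rwa [map_ofNat] at h3
  set L : K := algebraMap ℚ K l with hL
  have hL0 : L ≠ 0 := by rw [hL, Ne, map_eq_zero]; exact m.l0
  have eb : algebraMap ℚ K b = algebraMap ℚ K a + A * L ^ 2 := by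
    rw [m.hb, map_add, map_mul, map_pow, map_intCast]
  have ec : algebraMap ℚ K c = algebraMap ℚ K a + B * L ^ 2 := by
    rw [m.hc, map_add, map_mul, map_pow, map_intCast]
  obtain ⟨x, y, hy, hxy, ⟨u, hu⟩, ⟨w, hw⟩⟩ := loc_step (K := K) (Ω := AlgebraicClosure K)
    h2Ω h2K m.r m.ab m.ac m.bc f hf hloc (by
      obtain ⟨q, r1, r2, r3, n1, n2, n3, q1, q2, q3⟩ := hpt
      refine ⟨algebraMap ℚ K a + L ^ 2 * q, L ^ 3 * (r1 * r2 * r3), ?_, ?_, ⟨L * r1, ?_⟩,
        ⟨L * r2, ?_⟩, ⟨L * r3, ?_⟩⟩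
      · exact mul_ne_zero (pow_ne_zero 3 hL0) (mul_ne_zero (mul_ne_zero n1 n2) n3)
      · rw [eb, ec]
        have : (algebraMap ℚ K a + L ^ 2 * q - algebraMap ℚ K a) *
          (algebraMap ℚ K a + L ^ 2 * q - (algebraMap ℚ K a + A * L ^ 2)) *
          (algebraMap ℚ K a + L ^ 2 * q - (algebraMap ℚ K a + B * L ^ 2)) =
          L ^ 6 * (q * (q - A) * (q - B)) := by ring
        rw [this, q2, q3, q1]
        ring
      · rw [q1]; ring
      · rw [eb]
        have : algebraMap ℚ K a + L ^ 2 * q - (algebraMap ℚ K a + A * L ^ 2) =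
          L ^ 2 * (q - A) := by ring
        rw [this, q2]; ring
      · rw [ec]
        have : algebraMap ℚ K a + L ^ 2 * q - (algebraMap ℚ K a + B * L ^ 2) =
          L ^ 2 * (q - B) := by ring
        rw [this, q3]; ring) e e' s s' hs hs' (he s hs) (he' s' hs')
  rw [eb] at hxy hw
  rw [ec] at hxy
  refine ⟨(x - algebraMap ℚ K a) / L ^ 2, y / L ^ 3, div_ne_zero hy (pow_ne_zero 3 hL0), ?_,
    ⟨u / L, ?_⟩, ⟨w / L, ?_⟩⟩
  · rw [div_pow, hxy]
    field_simp
    ring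
  · rw [div_mul_div_comm, ← hu]
    field_simp
  · rw [div_mul_div_comm, ← hw]
    field_simp
    ring

/-- the class is locally trivial where it comes from a point -/
theorem pt_triv {W : WeierstrassCurve ℚ} {a b c : ℚ} (h : IsR W a b c) (hab : a ≠ b) (hac : a ≠ c)
    (hbc : b ≠ c) {f : (QB ≃ₐ[ℚ] QB) → Pt W QB} (hf : ∀ σ, f σ + f σ = 0) {e e' : ℤ}
    {s s' : QB} (hs : s ^ 2 = e) (hs' : s' ^ 2 = e')
    (h1 : ∀ σ : QB ≃ₐ[ℚ] QB, σ s = s ↔ IsX (W.baseChange QB) (algebraMap ℚ QB a) (f σ))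
    (h2 : ∀ σ : QB ≃ₐ[ℚ] QB, σ s' = s' ↔ IsX (W.baseChange QB) (algebraMap ℚ QB b) (f σ))
    {K : Type} [Field K] [Algebra ℚ K] (h2K : (2 : K) ≠ 0)
    {X Y α β : K} (hα : α ≠ 0) (hβ : β ≠ 0)
    (hY : Y ^ 2 = (X - algebraMap ℚ K a) * (X - algebraMap ℚ K b) * (X - algebraMap ℚ K c))
    (h3 : (X - algebraMap ℚ K a) * e = α ^ 2) (h4 : (X - algebraMap ℚ K b) * e' = β ^ 2) :
    LocTriv W K f := by
  intro ι
  have h2Ω : (2 : AlgebraicClosure K) ≠ 0 := by
    have h3 := (map_ne_zero (algebraMap K (AlgebraicClosure K))).2 h2K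
    rwa [map_ofNat] at h3
  have hinj : Function.Injective (algebraMap ℚ (AlgebraicClosure K)) :=
    (algebraMap ℚ (AlgebraicClosure K)).injective
  have hinjK : Function.Injective (algebraMap ℚ K) := (algebraMap ℚ K).injective
  have hinjQ : Function.Injective (algebraMap ℚ QB) := (algebraMap ℚ QB).injective
  have hbΩ := h.base (AlgebraicClosure K)
  -- the point over `K`
  have hn1 : (W.baseChange K).toAffine.Nonsingular X Y :=
    (h.base K).nons h2K (hinjK.ne hab) (hinjK.ne hac) (hinjK.ne hbc) hY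
  let j : K →ₐ[ℚ] AlgebraicClosure K := IsScalarTower.toAlgHom ℚ K (AlgebraicClosure K)
  set P : Pt W (AlgebraicClosure K) := act W j (.some X Y hn1) with hP
  have hPfix : ∀ τ : AlgebraicClosure K ≃ₐ[K] AlgebraicClosure K,
      act W (τ.toAlgHom.restrictScalars ℚ) P = P := by
    intro τ
    rw [hP, act_act]
    congr 1
    congr 1
    ext w
    exact τ.commutes w
  have hP0 : P ≠ 0 := by
    rw [hP, act_some]
    exact Affine.Point.some_ne_zero _
  obtain ⟨Q, hQ⟩ := hbΩ.div h2Ω (hinj.ne hab) (hinj.ne hac) (hinj.ne hbc) P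
  refine ⟨Q, fun τ σ hτ => ?_⟩
  set T := act W (τ.toAlgHom.restrictScalars ℚ) Q - Q with hT
  have hTT : T + T = 0 := by
    have e : T + T = (act W (τ.toAlgHom.restrictScalars ℚ) Q +
        act W (τ.toAlgHom.restrictScalars ℚ) Q) - (Q + Q) := by rw [hT]; abel
    rw [e, ← map_add, ← hQ, hPfix, sub_self]
  have hQT : act W (τ.toAlgHom.restrictScalars ℚ) Q = Q + T := by rw [hT]; abel
  rcases Q with _ | ⟨u, v, hn⟩
  · exact absurd (hQ.trans (add_zero 0)) hP0
  have hv : v ≠ 0 := fun hv => hP0 (hQ.trans ((hbΩ.add_self h2Ω hn).2 hv))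
  obtain ⟨X1, Y1, hn', e1, hXa⟩ := hbΩ.dup h2Ω hn hv
  obtain ⟨X2, Y2, hn'', e1', hXb⟩ := hbΩ.swap.dup h2Ω hn hv
  rw [← hQ, hP, act_some, Affine.Point.some.injEq] at e1 e1'
  rw [← e1.1] at hXa
  rw [← e1'.1] at hXb
  have hcomm : ∀ w : QB, τ (ι w) = ι (σ w) := fun w => DFunLike.congr_fun hτ w
  have key : ∀ (r : QB) (g : AlgebraicClosure K) (α' : K), α' ≠ 0 →
      (g * ι r) ^ 2 = (algebraMap K (AlgebraicClosure K) α') ^ 2 → g ≠ 0 ∧ (τ g = g ↔ σ r = r) := by
    intro r g α' hα' hg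
    have h4 : τ (g * ι r) = g * ι r := by
      rcases sq_eq_sq_iff_eq_or_eq_neg.1 hg with h | h
      · rw [h]; exact τ.commutes α'
      · rw [h, map_neg]; congr 1; exact τ.commutes α'
    have hne : g * ι r ≠ 0 := by
      intro h0
      rw [h0, zero_pow two_ne_zero] at hg
      exact (pow_ne_zero 2 ((map_ne_zero (algebraMap K (AlgebraicClosure K))).2 hα')) hg.symm
    have hg0 : g ≠ 0 := left_ne_zero_of_mul hne
    have hιr : ι r ≠ 0 := right_ne_zero_of_mul hne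
    refine ⟨hg0, ?_⟩
    rw [map_mul, hcomm] at h4
    constructor
    · intro h5
      rw [h5] at h4
      exact ι.injective (mul_left_cancel₀ hg0 h4)
    · intro h5
      rw [h5] at h4
      exact mul_right_cancel₀ hιr h4
  have eQs : (ι s) ^ 2 = algebraMap K (AlgebraicClosure K) (e : K) := by
    rw [← map_pow, hs, map_intCast, map_intCast]
  have eQs' : (ι s') ^ 2 = algebraMap K (AlgebraicClosure K) (e' : K) := by
    rw [← map_pow, hs', map_intCast, map_intCast]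
  have ga := act_gf (a := a) (b := b) (c := c) (τ.toAlgHom.restrictScalars ℚ) (.some u v hn)
  have gb := act_gf (a := b) (b := a) (c := c) (τ.toAlgHom.restrictScalars ℚ) (.some u v hn)
  rw [hQT] at ga gb
  obtain ⟨u1, v1, m1, q1, -, sa, sa'⟩ := hbΩ.sign h2Ω (hinj.ne hab) (hinj.ne hac) (hinj.ne hbc)
    hn hv hTT
  obtain ⟨u2, v2, m2, q2, -, sb, sb'⟩ := hbΩ.swap.sign h2Ω (hinj.ne hab.symm) (hinj.ne hbc)
    (hinj.ne hac) hn hv hTT
  rw [← q1] at sa sa'
  rw [← q2] at sb sb'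
  have ka := key s (gf (W.baseChange (AlgebraicClosure K)) (algebraMap ℚ _ a) (algebraMap ℚ _ b)
    (algebraMap ℚ _ c) (.some u v hn)) α hα (by
      rw [mul_pow, eQs, ← map_pow, ← h3, map_mul, map_sub, ← IsScalarTower.algebraMap_apply]
      congr 1
      exact hXa.symm)
  have kb := key s' (gf (W.baseChange (AlgebraicClosure K)) (algebraMap ℚ _ b) (algebraMap ℚ _ a)
    (algebraMap ℚ _ c) (.some u v hn)) β hβ (by
      rw [mul_pow, eQs', ← map_pow, ← h4, map_mul, map_sub, ← IsScalarTower.algebraMap_apply]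
      congr 1
      exact hXb.symm)
  have fin : ∀ (g g' : AlgebraicClosure K) (I : Prop), g ≠ 0 → τ g = g' → (I → g' = g) →
      (¬ I → g' = -g) → (I ↔ τ g = g) := by
    intro g g' I hg h4 h5 h6
    constructor
    · intro hI; rw [h4, h5 hI]
    · intro h7
      by_contra hI
      have h8 := h6 hI
      rw [← h4, h7] at h8
      have h9 : 2 * g = 0 := by linear_combination h8
      exact hg ((mul_eq_zero.1 h9).resolve_left h2Ω)
  have ia := (fin _ _ _ ka.1 ga sa sa').trans ka.2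
  have ib := (fin _ _ _ kb.1 gb sb sb').trans kb.2
  have hι2 : act W ι (f σ) + act W ι (f σ) = 0 := by
    rw [← map_add, hf, map_zero]
  refine hbΩ.ext h2Ω (hinj.ne hab) (hinj.ne hac) (hinj.ne hbc) hι2 hTT ?_ ?_
  · rw [act_isX, ia, h1]
  · rw [act_isX, ib, h2]

end Pool.Agent.H464.XB
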