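import Pool.Graph.R_pool_sql_team_seeded_3dad9d7b.XV.MT.All

/-!
# The sign of the imaginary part of the primitive at the fixed point `1/3 + i√5/15`
-/

set_option autoImplicit false

open Filter Topology

namespace Pool.Agent.H464.XB

open Pool.Agent.XV.MT
open Pool.Agent.W97.TW (Q)
open Pool.Agent.W97.MT (qq norm_qq_lt)

theorem tprod_bd {f : ℕ → ℂ} {S : ℝ} (hf : HasSum (fun i => ‖f i‖) S) :
    ‖∏' i, (1 + f i) - 1‖ ≤ Real.exp S - 1 := by
  have hm : HasProd (fun i => 1 + f i) (∏' i, (1 + f i)) :=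
    (multipliable_one_add_of_summable hf.summable).hasProd
  have h1 : Tendsto (fun s : Finset ℕ => ‖∏ i ∈ s, (1 + f i) - 1‖) atTop
      (𝓝 ‖∏' i, (1 + f i) - 1‖) := ((hm.sub_const 1)).norm
  refine le_of_tendsto h1 (Eventually.of_forall fun s => ?_)
  refine (Finset.norm_prod_one_add_sub_one_le s f).trans ?_
  have h2 : ∑ i ∈ s, ‖f i‖ ≤ S := sum_le_hasSum s (fun i _ => norm_nonneg _) hf
  have := Real.exp_le_exp.2 h2
  linarith

theorem mul_bd {A B : ℂ} {a b : ℝ} (hA : ‖A - 1‖ ≤ Real.exp a - 1) (hB : ‖B - 1‖ ≤ Real.exp b - 1) :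
    ‖A * B - 1‖ ≤ Real.exp (a + b) - 1 := by
  have e : A * B - 1 = (A - 1) * (B - 1) + (A - 1) + (B - 1) := by ring
  have hA0 := norm_nonneg (A - 1)
  have hB0 := norm_nonneg (B - 1)
  rw [e, Real.exp_add]
  refine (norm_add_le _ _).trans ?_
  have h1 := norm_add_le ((A - 1) * (B - 1)) (A - 1)
  rw [norm_mul] at h1
  have h2 : ‖A - 1‖ * ‖B - 1‖ ≤ (Real.exp a - 1) * (Real.exp b - 1) :=
    mul_le_mul hA hB hB0 (hA0.trans hA)
  linarith

theorem geo {w : ℂ} (hw : ‖w‖ < 1) (k : ℕ) : HasSum (fun i : ℕ => ‖-w ^ (i + k)‖)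
    (‖w‖ ^ k / (1 - ‖w‖)) := by
  have h := (hasSum_geometric_of_lt_one (norm_nonneg w) hw).mul_left (‖w‖ ^ k)
  rw [← div_eq_mul_inv] at h
  refine h.congr_fun ?_ |> fun h => h
  intro i
  rw [norm_neg, norm_pow, pow_add, mul_comm]

theorem Q_bd {w : ℂ} (hw : ‖w‖ < 1) : ‖Q w - 1‖ ≤ Real.exp (‖w‖ / (1 - ‖w‖)) - 1 := by
  have h := tprod_bd (geo hw 1)
  rw [pow_one] at h
  unfold Q
  simpa only [sub_eq_add_neg] using h

theorem Q_split {w : ℂ} (hw : ‖w‖ < 1) : ∃ R : ℂ, Q w = (1 - w) * R ∧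
    ‖R - 1‖ ≤ Real.exp (‖w‖ ^ 2 / (1 - ‖w‖)) - 1 := by
  refine ⟨∏' i : ℕ, (1 + -w ^ (i + 2)), ?_, tprod_bd (geo hw 2)⟩
  have hm : Multipliable (fun i : ℕ => 1 - w ^ (i + 1 + 1)) := by
    have := multipliable_one_add_of_summable (geo hw 2).summable
    simpa only [sub_eq_add_neg] using this
  unfold Q
  rw [tprod_eq_zero_mul' hm]
  simp only [zero_add, pow_one]
  congr 1

theorem phi_bd {w : ℂ} (hw : ‖w‖ ≤ 2 / 5) : ‖phi w - 1 + w‖ ≤ 19 / 25 := by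
  have hw1 : ‖w‖ < 1 := by linarith
  have h0 := norm_nonneg w
  have hp : ∀ k : ℕ, k ≠ 0 → ‖w ^ k‖ < 1 := fun k hk => by
    rw [norm_pow]
    exact pow_lt_one₀ h0 hw1 hk
  obtain ⟨R, hR, hR1⟩ := Q_split hw1
  have h3 := Q_bd (hp 3 (by norm_num))
  have h5 := Q_bd (hp 5 (by norm_num))
  have h15 := Q_bd (hp 15 (by norm_num))
  have hall := mul_bd (mul_bd (mul_bd hR1 h3) h5) h15
  have e : phi w - 1 + w = (1 - w) * (R * Q (w ^ 3) * Q (w ^ 5) * Q (w ^ 15) - 1) := by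
    unfold phi
    rw [hR]
    ring
  rw [e, norm_mul]
  have h1 : ‖1 - w‖ ≤ 7 / 5 := by
    have := norm_sub_le (1 : ℂ) w
    rw [norm_one] at this
    linarith
  have b : ∀ k : ℕ, ‖w ^ k‖ ≤ (2 / 5 : ℝ) ^ k := fun k => by
    rw [norm_pow]
    exact pow_le_pow_left₀ h0 hw k
  have q : ∀ {x c : ℝ}, 0 ≤ x → x ≤ c → c < 1 → x / (1 - x) ≤ c / (1 - c) := fun {x c} hx hc h1 => by
    rw [div_le_div_iff₀ (by linarith) (by linarith)]
    nlinarith
  have s2 : ‖w‖ ^ 2 / (1 - ‖w‖) ≤ 4 / 15 := by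
    rw [div_le_iff₀ (by linarith)]
    nlinarith
  have s3 := q (norm_nonneg _) (b 3) (by norm_num)
  have s5 := q (norm_nonneg _) (b 5) (by norm_num)
  have s15 := q (norm_nonneg _) (b 15) (by norm_num)
  have hS : ‖w‖ ^ 2 / (1 - ‖w‖) + ‖w ^ 3‖ / (1 - ‖w ^ 3‖) + ‖w ^ 5‖ / (1 - ‖w ^ 5‖) +
      ‖w ^ 15‖ / (1 - ‖w ^ 15‖) ≤ 7 / 20 := by
    norm_num at s3 s5 s15 ⊢
    linarith
  have he : Real.exp (7 / 20) ≤ 20 / 13 := by
    have h := Real.add_one_le_exp (-(7 / 20))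
    rw [Real.exp_neg] at h
    have hp := Real.exp_pos (7 / 20)
    have h2 : (13 / 20 : ℝ) ≤ (Real.exp (7 / 20))⁻¹ := by linarith
    rw [le_inv_comm₀ (by norm_num) hp] at h2
    norm_num at h2 ⊢
    exact h2
  have h9 := hall.trans (sub_le_sub_right ((Real.exp_le_exp.2 hS).trans he) 1)
  have h10 := norm_nonneg (R * Q (w ^ 3) * Q (w ^ 5) * Q (w ^ 15) - 1)
  have h11 := norm_nonneg (1 - w)
  calc ‖1 - w‖ * ‖R * Q (w ^ 3) * Q (w ^ 5) * Q (w ^ 15) - 1‖ ≤ 7 / 5 * (20 / 13 - 1) :=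
        mul_le_mul h1 h9 h10 (by norm_num)
    _ ≤ 19 / 25 := by norm_num

theorem Phi_bd {q : ℂ} (hq : ‖q‖ ≤ 2 / 5) : ‖Phi q - (q - q ^ 2 / 2)‖ ≤ 19 / 25 * ‖q‖ := by
  have hconv : Convex ℝ (Metric.closedBall (0 : ℂ) (2 / 5)) := convex_closedBall _ _
  have hd : ∀ x ∈ Metric.closedBall (0 : ℂ) (2 / 5),
      HasDerivWithinAt (fun w : ℂ => Phi w - (w - w ^ 2 / 2)) (phi x - 1 + x)
        (Metric.closedBall (0 : ℂ) (2 / 5)) x := by
    intro x hx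
    rw [Metric.mem_closedBall, dist_zero_right] at hx
    have h1 : HasDerivAt Phi (phi x) x := Phi_deriv (by linarith)
    have h2 : HasDerivAt (fun w : ℂ => w - w ^ 2 / 2) (1 - x) x := by
      have h3 := (hasDerivAt_id x).sub (((hasDerivAt_id x).pow 2).div_const 2)
      refine h3.congr_deriv ?_
      simp
    have h4 := (h1.sub h2).hasDerivWithinAt (s := Metric.closedBall (0 : ℂ) (2 / 5))
    refine h4.congr_deriv ?_
    ring
  have h := hconv.norm_image_sub_le_of_norm_hasDerivWithin_le hd (fun x hx => by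
    rw [Metric.mem_closedBall, dist_zero_right] at hx
    exact phi_bd hx) (x := 0) (y := q) (Metric.mem_closedBall_self (by norm_num))
      (by simpa using hq)
  simpa [Phi_zero] using h

theorem qbound : Real.exp (-(2 * Real.pi * Real.sqrt 5 / 15)) ≤ 2 / 5 := by
  have h5 : (2.236 : ℝ) ≤ Real.sqrt 5 := Real.le_sqrt_of_sq_le (by norm_num)
  have hpi : (3.14 : ℝ) < Real.pi := Real.pi_gt_d2
  have h1 : (0.936 : ℝ) ≤ 2 * Real.pi * Real.sqrt 5 / 15 := by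
    have : (3.14 : ℝ) * 2.236 ≤ Real.pi * Real.sqrt 5 :=
      mul_le_mul hpi.le h5 (by norm_num) (by positivity)
    linarith
  have h2 : (5 / 2 : ℝ) ≤ Real.exp (2 * Real.pi * Real.sqrt 5 / 15) := by
    refine le_trans ?_ (Real.exp_le_exp.2 h1)
    have h3 : Real.exp 0.936 = Real.exp 1 * Real.exp (-0.064) := by
      rw [← Real.exp_add]
      norm_num
    rw [h3]
    have h4 := Real.add_one_le_exp (-0.064)
    have h6 := Real.exp_one_gt_d9
    have h7 : (2.7182818283 : ℝ) * (-0.064 + 1) ≤ Real.exp 1 * Real.exp (-0.064) :=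
      mul_le_mul h6.le h4 (by norm_num) (Real.exp_pos _).le
    norm_num at h7 ⊢
    linarith
  rw [Real.exp_neg]
  have := inv_anti₀ (by norm_num) h2
  norm_num at this ⊢
  exact this

/-- the fixed point of `m5` -/
noncomputable def z0 : ℂ := 1 / 3 + (Real.sqrt 5 / 15 : ℝ) * Complex.I

theorem z0_im : 0 < z0.im := by
  unfold z0
  simp

theorem qq_z0 : qq z0 = (Real.exp (-(2 * Real.pi * Real.sqrt 5 / 15)) : ℝ) *
    (-1 / 2 + (Real.sqrt 3 / 2 : ℝ) * Complex.I) := by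
  unfold qq z0
  have e : (2 * Real.pi * Complex.I * (1 / 3 + ((Real.sqrt 5 / 15 : ℝ) : ℂ) * Complex.I) : ℂ) =
      ((-(2 * Real.pi * Real.sqrt 5 / 15) : ℝ) : ℂ) + ((2 * Real.pi / 3 : ℝ) : ℂ) * Complex.I := by
    push_cast
    have hI := Complex.I_sq
    linear_combination (2 * (Real.pi : ℂ) * ((Real.sqrt 5 : ℝ) : ℂ) / 15) * hI
  rw [e, Complex.exp_add, Complex.exp_mul_I, ← Complex.ofReal_exp, ← Complex.ofReal_cos,
    ← Complex.ofReal_sin]
  have hc : Real.cos (2 * Real.pi / 3) = -1 / 2 := by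
    have : 2 * Real.pi / 3 = Real.pi - Real.pi / 3 := by ring
    rw [this, Real.cos_pi_sub, Real.cos_pi_div_three]
    norm_num
  have hs : Real.sin (2 * Real.pi / 3) = Real.sqrt 3 / 2 := by
    have : 2 * Real.pi / 3 = Real.pi - Real.pi / 3 := by ring
    rw [this, Real.sin_pi_sub, Real.sin_pi_div_three]
  rw [hc, hs]
  push_cast
  ring

/-- **the sign** -/
theorem F_z0_im : 0 < (F z0).im := by
  obtain ⟨r, hr⟩ : ∃ r : ℝ, r = Real.exp (-(2 * Real.pi * Real.sqrt 5 / 15)) := ⟨_, rfl⟩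
  have hr0 : 0 < r := by rw [hr]; exact Real.exp_pos _
  have hr1 : r ≤ 2 / 5 := by rw [hr]; exact qbound
  have hq := qq_z0
  rw [← hr] at hq
  have h3 : Real.sqrt 3 * Real.sqrt 3 = 3 := Real.mul_self_sqrt (by norm_num)
  have h3b : (1.7 : ℝ) ≤ Real.sqrt 3 := Real.le_sqrt_of_sq_le (by norm_num)
  have hn : ‖qq z0‖ = r := by
    rw [hq, norm_mul, Complex.norm_real, Real.norm_of_nonneg hr0.le]
    have : ‖(-1 / 2 + (Real.sqrt 3 / 2 : ℝ) * Complex.I : ℂ)‖ = 1 := by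
      rw [Complex.norm_def, Real.sqrt_eq_one, Complex.normSq_apply]
      simp
      nlinarith
    rw [this, mul_one]
  have h := Phi_bd (q := qq z0) (by rw [hn]; exact hr1)
  rw [hn] at h
  have h2 := (Complex.abs_im_le_norm _).trans h
  have h5 : (qq z0 - qq z0 ^ 2 / 2).im = Real.sqrt 3 / 2 * (r + r ^ 2 / 2) := by
    rw [hq]
    have e : ((r : ℂ) * (-1 / 2 + (Real.sqrt 3 / 2 : ℝ) * Complex.I) -
        ((r : ℂ) * (-1 / 2 + (Real.sqrt 3 / 2 : ℝ) * Complex.I)) ^ 2 / 2) =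
        ((-r / 2 + r ^ 2 / 4 : ℝ) : ℂ) + ((Real.sqrt 3 / 2 * (r + r ^ 2 / 2) : ℝ) : ℂ) * Complex.I := by
      have hI := Complex.I_sq
      have h3c : ((Real.sqrt 3 : ℝ) : ℂ) * ((Real.sqrt 3 : ℝ) : ℂ) = 3 := by exact_mod_cast h3
      push_cast
      linear_combination (-(r : ℂ) ^ 2 * ((Real.sqrt 3 : ℝ) : ℂ) ^ 2 / 8) * hI +
        ((r : ℂ) ^ 2 / 8) * h3c
    rw [e, Complex.add_im, Complex.ofReal_im, Complex.im_ofReal_mul, Complex.I_im]
    ring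
  rw [Complex.sub_im, h5] at h2
  have h6 := (abs_le.1 h2).1
  show 0 < (Phi (qq z0)).im
  nlinarith

end Pool.Agent.H464.XB
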