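import Pool.Agent.H464.XB.Sgn
import Pool.Agent.H464.XB.Gen

/-!
# The value of the odd modular symbol of `X_0(15)` at `1/4`
-/

set_option autoImplicit false

open Filter Topology

namespace Pool.Agent.H464.XB

open Pool.Agent.XV (Coc CocR SyM t_CM)
open Pool.Agent.XV.Uod
open Pool.Agent.XV.MT
open Pool.Agent.XV.MT.SYM (phi_conj qq_conj)
open Pool.Agent.W97.TW (Q)
open Pool.Agent.W97.MT (qq norm_qq_lt ap)

theorem Phi_conj {q : ℂ} (hq : ‖q‖ < 1) : Phi (starRingEnd ℂ q) = starRingEnd ℂ (Phi q) := by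
  have hconv : Convex ℝ (Metric.closedBall (0 : ℂ) ‖q‖) := convex_closedBall _ _
  have hd : ∀ x ∈ Metric.closedBall (0 : ℂ) ‖q‖,
      HasDerivWithinAt (fun w : ℂ => Phi w - starRingEnd ℂ (Phi (starRingEnd ℂ w))) 0
        (Metric.closedBall (0 : ℂ) ‖q‖) x := by
    intro x hx
    rw [Metric.mem_closedBall, dist_zero_right] at hx
    have hx1 : ‖x‖ < 1 := lt_of_le_of_lt hx hq
    have h1 : HasDerivAt Phi (phi x) x := Phi_deriv hx1
    have hx2 : ‖starRingEnd ℂ x‖ < 1 := by rwa [RCLike.norm_conj]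
    have h2 : HasDerivAt Phi (phi (starRingEnd ℂ x)) (starRingEnd ℂ x) := Phi_deriv hx2
    have h3 := h2.conj_conj
    rw [phi_conj t_EXP _ hx1] at h3
    simp only [RingHomCompTriple.comp_apply, RingHom.id_apply] at h3
    have h4 := (h1.sub h3).hasDerivWithinAt (s := Metric.closedBall (0 : ℂ) ‖q‖)
    rw [sub_self] at h4
    exact h4
  have h := hconv.norm_image_sub_le_of_norm_hasDerivWithin_le hd (C := 0) (fun x hx => by simp)
    (x := 0) (y := starRingEnd ℂ q) (by simp) (by simp)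
  rw [zero_mul] at h
  have h2 := norm_le_zero_iff.1 h
  simp only [map_zero, Phi_zero, sub_zero, Complex.conj_conj] at h2
  exact sub_eq_zero.1 h2

theorem F_conj {z : ℂ} (hz : 0 < z.im) : F (-(starRingEnd ℂ z)) = starRingEnd ℂ (F z) := by
  unfold F
  rw [qq_conj, Phi_conj (norm_qq_lt hz)]

theorem F_one (z : ℂ) : F (z + 1) = F z := by
  unfold F
  congr 1
  unfold qq
  rw [mul_add, Complex.exp_add, mul_one, Complex.exp_two_pi_mul_I, mul_one]

theorem s5 : ((Real.sqrt 5 : ℝ) : ℂ) * ((Real.sqrt 5 : ℝ) : ℂ) = 5 := by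
  have : Real.sqrt 5 * Real.sqrt 5 = 5 := Real.mul_self_sqrt (by norm_num)
  exact_mod_cast this

/-- the second fixed point -/
noncomputable def z1 : ℂ := 2 / 3 + (Real.sqrt 5 / 15 : ℝ) * Complex.I

theorem z1_im : 0 < z1.im := by
  unfold z1
  simp

theorem s5ne : ((Real.sqrt 5 : ℝ) : ℂ) ≠ 0 := by
  intro h
  have := s5
  rw [h] at this
  norm_num at this

theorem m5_z0 : m5 z0 = z0 := by
  have h5 := s5
  have hI := Complex.I_sq
  have hne := s5ne
  unfold m5 z0
  have h : (15 * (1 / 3 + ((Real.sqrt 5 / 15 : ℝ) : ℂ) * Complex.I) - 5 : ℂ) ≠ 0 := by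
    have e : (15 * (1 / 3 + ((Real.sqrt 5 / 15 : ℝ) : ℂ) * Complex.I) - 5 : ℂ) =
        ((Real.sqrt 5 : ℝ) : ℂ) * Complex.I := by
      push_cast
      ring
    rw [e]
    exact mul_ne_zero hne Complex.I_ne_zero
  rw [div_eq_iff h]
  push_cast
  linear_combination (-((Real.sqrt 5 : ℝ) : ℂ) ^ 2 / 15) * hI + (1 / 15) * h5

theorem j5_z0 : j5 z0 = -1 := by
  have h5 := s5
  have hI := Complex.I_sq
  unfold j5 z0
  have e : (5 * (3 * (1 / 3 + ((Real.sqrt 5 / 15 : ℝ) : ℂ) * Complex.I) - 1) ^ 2 : ℂ) = -1 := by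
    push_cast
    linear_combination (((Real.sqrt 5 : ℝ) : ℂ) ^ 2 / 5) * hI - (1 / 5) * h5
  rw [e]
  norm_num

theorem ff_ne {z : ℂ} (hz : 0 < z.im) : ff z ≠ 0 := by
  have hq := norm_qq_lt hz
  rw [ff_q]
  refine mul_ne_zero (Pool.Agent.W97.MT.qq_ne z) ?_
  unfold phi
  have h := fun d hd => Pool.Agent.W97.MT.Q_ne_pow hq (d := d) hd
  exact mul_ne_zero (mul_ne_zero (mul_ne_zero (Pool.Agent.W97.MT.Q_ne hq) (h 3 (by norm_num)))
    (h 5 (by norm_num))) (h 15 (by norm_num))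

/-- **the imaginary part of the integral from `1/4`** -/
theorem II_im : (II (1 / 4)).im = 4 * (F z0).im := by
  obtain ⟨ε, C, hε, hff, hF⟩ := a_prim.const m5 j5 a_id.c5.map
  have hε1 : ε = -1 := by
    have h := hff z0 z0_im
    rw [m5_z0, j5_z0] at h
    have h2 := ff_ne z0_im
    have h3 : ff z0 * (ε + 1) = 0 := by linear_combination -h
    have h4 := (mul_eq_zero.1 h3).resolve_left h2
    linear_combination h4
  subst hε1
  have hC : C = 2 * F z0 := by
    have h := hF z0 z0_im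
    rw [m5_z0] at h
    linear_combination -h
  obtain ⟨p, hp⟩ := a_prim.gam 11 (-3) 1 (-4) (by norm_num)
  have hpv := a_ii.pval 11 (-3) 1 (-4) (by norm_num) p hp
  have hm1 : 0 < (m5 z1).im := a_id.c5.pos z1 z1_im
  have hz1 : (((11 : ℤ) : ℂ) * m5 z1 + ((-3 : ℤ) : ℂ)) / (15 * ((1 : ℤ) : ℂ) * m5 z1 + ((-4 : ℤ) : ℂ)) = z1 := by
    have h5 := s5
    have hI := Complex.I_sq
    have hne := s5ne
    -- `15 z1 - 5`
    have hd : (15 * z1 - 5 : ℂ) ≠ 0 := by
      intro h
      have h2 := congrArg Complex.im h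
      unfold z1 at h2
      simp at h2
    have hm : m5 z1 * (15 * z1 - 5) = 5 * z1 - 2 := by
      unfold m5
      rw [div_mul_cancel₀ _ hd]
    have hq : 15 * z1 ^ 2 - 20 * z1 + 7 = 0 := by
      unfold z1
      push_cast
      linear_combination (((Real.sqrt 5 : ℝ) : ℂ) ^ 2 / 15) * hI - (1 / 15) * h5
    have hd2 : (15 * ((1 : ℤ) : ℂ) * m5 z1 + ((-4 : ℤ) : ℂ)) ≠ 0 := by
      intro h
      have h2 := congrArg Complex.im h
      simp at h2
      rw [h2] at hm1
      exact lt_irrefl _ hm1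
    rw [div_eq_iff hd2]
    apply mul_right_cancel₀ hd
    push_cast
    linear_combination (11 - 15 * z1) * hm - hq
  have h1 := hp (m5 z1) hm1
  rw [hz1, hF z1 z1_im, hC] at h1
  have hc : F z1 = starRingEnd ℂ (F z0) := by
    rw [← F_conj z0_im, ← F_one (-(starRingEnd ℂ) z0)]
    congr 1
    unfold z1 z0
    simp only [map_add, map_mul, Complex.conj_I, Complex.conj_ofReal]
    have : (starRingEnd ℂ) (1 / 3 : ℂ) = 1 / 3 := by
      rw [map_div₀, map_one]
      congr 1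
      exact Complex.conj_ofNat 3
    rw [this]
    ring
  rw [hc, hpv] at h1
  have h34 : II (((-3 : ℤ) : ℚ) / ((-4 : ℤ) : ℚ)) = starRingEnd ℂ (II (1 / 4)) := by
    rw [← a_ii.conj, ← a_ii.per (-(1 / 4))]
    congr 1
    norm_num
  rw [h34] at h1
  have h2 := congrArg Complex.im h1
  simp only [Complex.add_im, Complex.sub_im, Complex.conj_im, Complex.mul_im, Complex.neg_im,
    a_ii.im0] at h2
  norm_num at h2
  linarith

end Pool.Agent.H464.XB
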