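import Pool.Graph.R_pool_sql_team_seeded_620a6dc7.H757_X15.DefsA

/-!
# Twists of `X_0(15)`: coordinates

For the minimal equation `WD m` of the twist by `m` put `X = 4 (x - 3 m)`, `Y = 4 (2 y + x + 1)`; then
`Y² = X (X + 16 m) (X + 25 m)`.
-/

set_option autoImplicit false
set_option linter.all false

open WeierstrassCurve

namespace Pool.Agent.H464.XB.T

open Pool.Agent.H757_X15 (WD)

variable {K : Type} [Field K] [DecidableEq K]

/-- `W` is the minimal equation of the twist by `m` -/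
structure IsWD (W : WeierstrassCurve.Affine K) (m : K) : Prop where
  a1 : W.a₁ = 1
  a3 : W.a₃ = 1
  a2 : 4 * W.a₂ = 5 * m - 1
  a4 : 2 * W.a₄ = -(19 * m ^ 2 + 1)
  a6 : 4 * W.a₆ = -(39 * m ^ 3 + 1)

theorem isWD (M : ℤ) (hM : M % 4 = 1) : IsWD ((WD M).map (Int.castRingHom K)).toAffine (M : K) := by
  obtain ⟨k, rfl⟩ : ∃ k, M = 4 * k + 1 := ⟨M / 4, by omega⟩
  have e2 : (5 * (4 * k + 1) - 1) / 4 = 5 * k + 1 := by omega
  have e4 : (19 * (4 * k + 1) ^ 2 + 1) / 2 = 152 * k ^ 2 + 76 * k + 10 := by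
    have : 19 * (4 * k + 1) ^ 2 + 1 = 2 * (152 * k ^ 2 + 76 * k + 10) := by ring
    rw [this]
    exact Int.mul_ediv_cancel_left _ (by norm_num)
  have e6 : (39 * (4 * k + 1) ^ 3 + 1) / 4 = 624 * k ^ 3 + 468 * k ^ 2 + 117 * k + 10 := by
    have : 39 * (4 * k + 1) ^ 3 + 1 = 4 * (624 * k ^ 3 + 468 * k ^ 2 + 117 * k + 10) := by ring
    rw [this]
    exact Int.mul_ediv_cancel_left _ (by norm_num)
  refine ⟨?_, ?_, ?_, ?_, ?_⟩
  · show (((1 : ℤ)) : K) = 1
    norm_num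
  · show (((1 : ℤ)) : K) = 1
    norm_num
  · show 4 * ((((5 * (4 * k + 1) - 1) / 4 : ℤ)) : K) = _
    rw [e2]
    push_cast
    ring
  · show 2 * (((-((19 * (4 * k + 1) ^ 2 + 1) / 2) : ℤ)) : K) = _
    rw [e4]
    push_cast
    ring
  · show 4 * (((-((39 * (4 * k + 1) ^ 3 + 1) / 4) : ℤ)) : K) = _
    rw [e6]
    push_cast
    ring

variable {W : WeierstrassCurve.Affine K} {m : K}

theorem IsWD.eqn (h : IsWD W m) {x y : K} (hE : W.Equation x y) :
    (4 * (2 * y + x + 1)) ^ 2 = (4 * (x - 3 * m)) ^ 3 + 41 * m * (4 * (x - 3 * m)) ^ 2 +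
      400 * m ^ 2 * (4 * (x - 3 * m)) := by
  rw [Affine.equation_iff, h.a1, h.a3] at hE
  linear_combination 64 * hE + 16 * x ^ 2 * h.a2 + 32 * x * h.a4 + 16 * h.a6

theorem IsWD.eqn' (h : IsWD W m) (h2 : (2 : K) ≠ 0) {x y : K}
    (hE : (4 * (2 * y + x + 1)) ^ 2 = (4 * (x - 3 * m)) ^ 3 + 41 * m * (4 * (x - 3 * m)) ^ 2 +
      400 * m ^ 2 * (4 * (x - 3 * m))) : W.Equation x y := by
  rw [Affine.equation_iff, h.a1, h.a3]
  have h64 : (64 : K) ≠ 0 := by
    have : (64 : K) = 2 ^ 6 := by norm_num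
    rw [this]
    exact pow_ne_zero _ h2
  apply mul_left_cancel₀ h64
  linear_combination hE - 16 * x ^ 2 * h.a2 - 32 * x * h.a4 - 16 * h.a6

theorem IsWD.fx (h : IsWD W m) (x y : K) : 16 * (W.a₁ * y - (3 * x ^ 2 + 2 * W.a₂ * x + W.a₄)) =
    2 * (4 * (2 * y + x + 1)) -
      (3 * (4 * (x - 3 * m)) ^ 2 + 82 * m * (4 * (x - 3 * m)) + 400 * m ^ 2) := by
  rw [h.a1]
  linear_combination (-8 * x) * h.a2 - 8 * h.a4

/-- the point `P` has the coordinates `X = 4 (x - 3 m)`, `Y = 4 (2 y + x + 1)` -/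
def At (m : K) (P : W.Point) (X Y : K) : Prop :=
  ∃ (x y : K) (h : W.Nonsingular x y), P = Affine.Point.some x y h ∧ X = 4 * (x - 3 * m) ∧
    Y = 4 * (2 * y + x + 1)

theorem At.eqn (hW : IsWD W m) {P : W.Point} {X Y : K} (h : At m P X Y) :
    Y ^ 2 = X * (X + 16 * m) * (X + 25 * m) := by
  obtain ⟨x, y, hn, rfl, rfl, rfl⟩ := h
  have h1 := hW.eqn hn.1
  linear_combination h1

theorem At.ne_zero {P : W.Point} {X Y : K} (h : At m P X Y) : P ≠ 0 := by
  obtain ⟨x, y, hn, rfl, _⟩ := h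
  exact Affine.Point.some_ne_zero _

theorem exists_at (m : K) {P : W.Point} (h : P ≠ 0) : ∃ X Y, At m P X Y := by
  rcases P with _ | ⟨x, y, hn⟩
  · exact absurd rfl h
  · exact ⟨_, _, x, y, hn, rfl, rfl, rfl⟩

theorem At.unique {P : W.Point} {X Y X' Y' : K} (h : At m P X Y) (h' : At m P X' Y') :
    X = X' ∧ Y = Y' := by
  obtain ⟨x, y, hn, rfl, rfl, rfl⟩ := h
  obtain ⟨x', y', hn', e, rfl, rfl⟩ := h'
  injection e with e1 e2
  rw [e1, e2]
  exact ⟨rfl, rfl⟩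

theorem At.ext (h2 : (2 : K) ≠ 0) {P P' : W.Point} {X Y : K} (h : At m P X Y) (h' : At m P' X Y) :
    P = P' := by
  obtain ⟨x, y, hn, rfl, e1, e2⟩ := h
  obtain ⟨x', y', hn', rfl, e1', e2'⟩ := h'
  have hx : x = x' := by
    have h3 : (2 ^ 2 : K) * x = 2 ^ 2 * x' := by linear_combination e1' - e1
    exact mul_left_cancel₀ (pow_ne_zero 2 h2) h3
  have hy : y = y' := by
    have h3 : (2 ^ 3 : K) * y = 2 ^ 3 * y' := by rw [hx] at e2; linear_combination e2' - e2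
    exact mul_left_cancel₀ (pow_ne_zero 3 h2) h3
  subst hx hy
  rfl

theorem At.neg (hW : IsWD W m) {P : W.Point} {X Y : K} (h : At m P X Y) : At m (-P) X (-Y) := by
  obtain ⟨x, y, hn, rfl, rfl, rfl⟩ := h
  rw [Affine.Point.neg_some]
  refine ⟨_, _, _, rfl, rfl, ?_⟩
  rw [WeierstrassCurve.Affine.negY, hW.a1, hW.a3]
  ring

/-- the points with given coordinates -/
theorem exists_pt (hW : IsWD W m) (h2 : (2 : K) ≠ 0) (h30 : (30 : K) ≠ 0) (hm : m ≠ 0) {X Y : K}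
    (hE : Y ^ 2 = X * (X + 16 * m) * (X + 25 * m)) : ∃ P : W.Point, At m P X Y := by
  have h4 : (4 : K) ≠ 0 := by
    have : (4 : K) = 2 ^ 2 := by norm_num
    rw [this]
    exact pow_ne_zero _ h2
  obtain ⟨x, hx⟩ : ∃ x : K, X = 4 * (x - 3 * m) := ⟨X / 4 + 3 * m, by field_simp; ring⟩
  obtain ⟨y, hy⟩ : ∃ y : K, Y = 4 * (2 * y + x + 1) :=
    ⟨(Y / 4 - x - 1) / 2, by field_simp; ring⟩
  have hq : W.Equation x y := by
    apply hW.eqn' h2
    rw [← hx, ← hy]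
    linear_combination hE
  have hn : W.Nonsingular x y := by
    rw [Affine.nonsingular_iff]
    refine ⟨hq, ?_⟩
    by_contra hcon
    rw [not_or, not_ne_iff, not_ne_iff] at hcon
    obtain ⟨hc1, hc2⟩ := hcon
    have hY0 : Y = 0 := by
      rw [hW.a1, hW.a3] at hc2
      rw [hy]
      linear_combination 4 * hc2
    have hf := hW.fx x y
    rw [hc1, sub_self, mul_zero, ← hx, ← hy, hY0] at hf
    have hE' : X * ((X + 16 * m) * (X + 25 * m)) = 0 := by
      rw [hY0] at hE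
      linear_combination -hE
    rcases mul_eq_zero.1 hE' with h | h
    · rw [h] at hf
      have : (2 ^ 4 * 5 ^ 2 : K) * m ^ 2 = 0 := by linear_combination hf
      have h5 : (5 : K) ≠ 0 := by
        intro h5
        apply h30
        have : (30 : K) = 6 * 5 := by norm_num
        rw [this, h5, mul_zero]
      exact mul_ne_zero (mul_ne_zero (pow_ne_zero _ h2) (pow_ne_zero _ h5)) (pow_ne_zero _ hm) this
    · have h3 : (3 : K) ≠ 0 := by
        intro h3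
        apply h30
        have : (30 : K) = 10 * 3 := by norm_num
        rw [this, h3, mul_zero]
      have h5 : (5 : K) ≠ 0 := by
        intro h5
        apply h30
        have : (30 : K) = 6 * 5 := by norm_num
        rw [this, h5, mul_zero]
      rcases mul_eq_zero.1 h with h | h
      · have h6 : X = -16 * m := by linear_combination h
        rw [h6] at hf
        have : (2 ^ 4 * 3 ^ 2 : K) * m ^ 2 = 0 := by linear_combination -hf
        exact mul_ne_zero (mul_ne_zero (pow_ne_zero _ h2) (pow_ne_zero _ h3)) (pow_ne_zero _ hm) this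
      · have h6 : X = -25 * m := by linear_combination h
        rw [h6] at hf
        have : (3 ^ 2 * 5 ^ 2 : K) * m ^ 2 = 0 := by linear_combination hf
        exact mul_ne_zero (mul_ne_zero (pow_ne_zero _ h3) (pow_ne_zero _ h5)) (pow_ne_zero _ hm) this
  exact ⟨Affine.Point.some x y hn, x, y, hn, rfl, hx, hy⟩

theorem At.add (hW : IsWD W m) (h2 : (2 : K) ≠ 0) {P P' : W.Point} {X Y X' Y' : K}
    (h : At m P X Y) (h' : At m P' X' Y') (hne : X ≠ X') :
    ∃ Y3, At m (P + P') (((Y - Y') / (X - X')) ^ 2 - 41 * m - X - X') Y3 := by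
  obtain ⟨x, y, hn, rfl, rfl, rfl⟩ := h
  obtain ⟨x', y', hn', rfl, rfl, rfl⟩ := h'
  have hx : x ≠ x' := fun h => hne (by rw [h])
  rw [Affine.Point.add_of_X_ne hx]
  refine ⟨_, _, _, _, rfl, ?_, rfl⟩
  rw [WeierstrassCurve.Affine.addX, WeierstrassCurve.Affine.slope_of_X_ne hx, hW.a1]
  have h1 : x - x' ≠ 0 := sub_ne_zero.2 hx
  have h4 : (4 : K) ≠ 0 := by
    have : (4 : K) = 2 ^ 2 := by norm_num
    rw [this]
    exact pow_ne_zero _ h2
  have h5 : (4 * (2 * y + x + 1) - 4 * (2 * y' + x' + 1)) /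
      (4 * (x - 3 * m) - 4 * (x' - 3 * m)) = 2 * ((y - y') / (x - x')) + 1 := by
    have h6 : 4 * (x - 3 * m) - 4 * (x' - 3 * m) = 4 * (x - x') := by ring
    rw [h6]
    field_simp
    ring
  rw [h5]
  linear_combination hW.a2

theorem At.dbl (hW : IsWD W m) (h2 : (2 : K) ≠ 0) {P : W.Point} {X Y : K} (h : At m P X Y)
    (hY : Y ≠ 0) : ∃ Y3, At m (P + P) ((X ^ 2 - 400 * m ^ 2) ^ 2 / (4 * Y ^ 2)) Y3 := by
  have e := h.eqn hW
  obtain ⟨x, y, hn, rfl, rfl, rfl⟩ := h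
  have h1 : 2 * y + x + 1 ≠ 0 := fun h => hY (by rw [h, mul_zero])
  have hy : y ≠ W.negY x y := by
    rw [WeierstrassCurve.Affine.negY, hW.a1, hW.a3]
    intro h
    apply h1
    linear_combination h
  rw [Affine.Point.add_self_of_Y_ne hy]
  refine ⟨_, _, _, _, rfl, ?_, rfl⟩
  rw [WeierstrassCurve.Affine.addX, WeierstrassCurve.Affine.slope_of_Y_ne rfl hy,
    WeierstrassCurve.Affine.negY, hW.a1, hW.a3]
  have h3 : y - (-y - 1 * x - 1) = 2 * y + x + 1 := by ring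
  rw [h3]
  obtain ⟨l, hl⟩ : ∃ l : K, l = (3 * x ^ 2 + 2 * W.a₂ * x + W.a₄ - 1 * y) / (2 * y + x + 1) :=
    ⟨_, rfl⟩
  rw [← hl]
  have hl1 : l * (2 * y + x + 1) = 3 * x ^ 2 + 2 * W.a₂ * x + W.a₄ - y := by
    rw [hl, div_mul_cancel₀ _ h1]
    ring
  obtain ⟨X, hX⟩ : ∃ X : K, X = 4 * (x - 3 * m) := ⟨_, rfl⟩
  obtain ⟨Y, hYd⟩ : ∃ Y : K, Y = 4 * (2 * y + x + 1) := ⟨_, rfl⟩
  have h4 : (4 : K) ≠ 0 := by
    have : (4 : K) = 2 ^ 2 := by norm_num
    rw [this]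
    exact pow_ne_zero _ h2
  have hY0 : Y ≠ 0 := by rw [hYd]; exact mul_ne_zero h4 h1
  rw [← hX, ← hYd] at e ⊢
  have hL : (2 * l + 1) * (2 * Y) = 3 * X ^ 2 + 82 * m * X + 400 * m ^ 2 := by
    have hf := hW.fx x y
    rw [hW.a1, ← hX, ← hYd] at hf
    have e5 : 2 * l * (2 * Y) = 16 * (l * (2 * y + x + 1)) := by rw [hYd]; ring
    have e6 : (2 * l + 1) * (2 * Y) = 2 * l * (2 * Y) + 2 * Y := by ring
    rw [e6, e5, hl1]
    linear_combination -hf
  have e7 : 4 * (l ^ 2 + 1 * l - W.a₂ - x - x - 3 * m) = (2 * l + 1) ^ 2 - 41 * m - X - X := by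
    rw [hX]
    linear_combination -hW.a2
  rw [e7, div_eq_iff (mul_ne_zero h4 (pow_ne_zero _ hY0))]
  have e8 : ((2 * l + 1) ^ 2 - 41 * m - X - X) * (4 * Y ^ 2) =
      ((2 * l + 1) * (2 * Y)) ^ 2 - (41 * m + 2 * X) * (4 * Y ^ 2) := by ring
  rw [e8, hL, e]
  ring

/-- translation by a point of order two with the coordinates `(e, 0)` -/
theorem At.addT (hW : IsWD W m) (h2 : (2 : K) ≠ 0) {P T : W.Point} {X Y e : K} (h : At m P X Y)
    (hT : At m T e 0) (hX : X ≠ e) : ∃ X3 Y3, At m (P + T) X3 Y3 ∧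
      (X3 - e) * (X - e) = 3 * e ^ 2 + 82 * m * e + 400 * m ^ 2 := by
  obtain ⟨Y3, h3⟩ := h.add hW h2 hT hX
  refine ⟨_, Y3, h3, ?_⟩
  have e0 := h.eqn hW
  have eT := hT.eqn hW
  have hXe : X - e ≠ 0 := sub_ne_zero.2 hX
  rw [sub_zero]
  obtain ⟨L, hL⟩ : ∃ L : K, L = Y / (X - e) := ⟨_, rfl⟩
  have hL1 : L * (X - e) = Y := by rw [hL, div_mul_cancel₀ _ hXe]
  rw [← hL]
  have e3 : L ^ 2 * (X - e) = X ^ 2 + (41 * m + e) * X + (e ^ 2 + 41 * m * e + 400 * m ^ 2) := by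
    apply mul_right_cancel₀ hXe
    rw [← hL1] at e0
    linear_combination e0 - eT
  linear_combination e3

theorem two_tors (hW : IsWD W m) (h2 : (2 : K) ≠ 0) {T : W.Point} {e : K} (hT : At m T e 0) :
    T + T = 0 := by
  have h1 : At m (-T) e 0 := by simpa using hT.neg hW
  have h3 : T = -T := hT.ext h2 h1
  calc T + T = T + -T := by rw [← h3]
    _ = 0 := add_neg_cancel T

/-- the points of order two -/
theorem ord_two (hW : IsWD W m) (h2 : (2 : K) ≠ 0) {T : W.Point} (h0 : T ≠ 0) (hT : T + T = 0) :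
    ∃ e, At m T e 0 ∧ e * (e + 16 * m) * (e + 25 * m) = 0 := by
  obtain ⟨X, Y, h⟩ := exists_at m h0
  have h1 : T = -T := eq_neg_of_add_eq_zero_left hT
  have h3 := h.neg hW
  rw [← h1] at h3
  have h4 : Y = 0 := by
    have h5 := (h.unique h3).2
    have h6 : 2 * Y = 0 := by linear_combination h5
    exact (mul_eq_zero.1 h6).resolve_left h2
  rw [h4] at h
  refine ⟨X, h, ?_⟩
  have h5 := h.eqn hW
  linear_combination -h5

end Pool.Agent.H464.XB.T
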