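import Pool.Agent.H464.XB.TCrd
import Pool.Graph.R_seed8.Y809.BSD14.Tam3

/-!
# Twists of `X_0(15)`: points with singular reduction and the Tamagawa numbers at the primes that
divide the twist
-/

set_option autoImplicit false
set_option linter.all false

open scoped Classical

open WeierstrassCurve

namespace Pool.Agent.H464.XB.T

open Pool.Agent.H757_X15 (WD)
open Pool.Agent.Y700 (SingRed E0 tam PtP)
open Pool.Agent.Y809.BSD14

section

variable {q : ℕ} [Fact q.Prime] {M : ℤ}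

theorem unit_nat (h : q ≠ 2) : ‖(2 : ℚ_[q])‖ = 1 := norm2 h

theorem unit_int {n : ℤ} (h : ¬ (q : ℤ) ∣ n) : ‖(n : ℚ_[q])‖ = 1 :=
  le_antisymm (Padic.norm_int_le_one n) (not_lt.1 fun h1 => h (Padic.norm_intCast_lt_one_iff.1 h1))

theorem nint (n : ℤ) : ‖(n : ℚ_[q])‖ ≤ 1 := Padic.norm_int_le_one n

/-- singular reduction in the coordinates `X`, `Y` -/
theorem sing_XY (hM4 : M % 4 = 1) (hq2 : q ≠ 2) (x y : ℚ_[q]) :
    SingRed (WD M) q x y ↔ ‖4 * (x - 3 * (M : ℚ_[q]))‖ ≤ 1 ∧ ‖4 * (2 * y + x + 1)‖ < 1 ∧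
      ‖3 * (4 * (x - 3 * (M : ℚ_[q]))) ^ 2 + 82 * M * (4 * (x - 3 * (M : ℚ_[q]))) +
        400 * (M : ℚ_[q]) ^ 2‖ < 1 := by
  have hW := isWD (K := ℚ_[q]) M hM4
  have e2 := hW.fx x y
  have n4 := norm4 hq2
  have n2' := norm2 hq2
  have n16 := norm16 hq2
  have hMi := nint (q := q) M
  have c1 : (((WD M).a₁ : ℤ) : ℚ_[q]) = 1 := by
    show (((1 : ℤ)) : ℚ_[q]) = 1
    norm_num
  have c3 : (((WD M).a₃ : ℤ) : ℚ_[q]) = 1 := by
    show (((1 : ℤ)) : ℚ_[q]) = 1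
    norm_num
  have e3 : 16 * ((((WD M).a₁ : ℤ) : ℚ_[q]) * y - (3 * x ^ 2 + 2 * (((WD M).a₂ : ℤ) : ℚ_[q]) * x +
      (((WD M).a₄ : ℤ) : ℚ_[q]))) = 2 * (4 * (2 * y + x + 1)) -
      (3 * (4 * (x - 3 * (M : ℚ_[q]))) ^ 2 + 82 * M * (4 * (x - 3 * (M : ℚ_[q]))) +
        400 * (M : ℚ_[q]) ^ 2) := e2
  constructor
  · rintro ⟨hx, hy, hfx, hfy⟩
    rw [c1, c3, one_mul] at hfy
    have hY : ‖4 * (2 * y + x + 1)‖ < 1 := by rw [norm_mul, n4, one_mul]; exact hfy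
    refine ⟨nmul n4.le (nsub hx (nmul n3 hMi)), hY, ?_⟩
    have h1 := lmul (a := (16 : ℚ_[q])) n16.le hfx
    rw [e3] at h1
    have h2 := lsub (lmul (a := (2 : ℚ_[q])) n2'.le hY) h1
    have e4 : 3 * (4 * (x - 3 * (M : ℚ_[q]))) ^ 2 + 82 * M * (4 * (x - 3 * (M : ℚ_[q]))) +
        400 * (M : ℚ_[q]) ^ 2 = 2 * (4 * (2 * y + x + 1)) - (2 * (4 * (2 * y + x + 1)) -
      (3 * (4 * (x - 3 * (M : ℚ_[q]))) ^ 2 + 82 * M * (4 * (x - 3 * (M : ℚ_[q]))) +
        400 * (M : ℚ_[q]) ^ 2)) := by ring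
    rw [e4]
    exact h2
  · rintro ⟨hX, hY, hF⟩
    rw [norm_mul, n4, one_mul] at hX hY
    have hx : ‖x‖ ≤ 1 := by
      have : x = (x - 3 * (M : ℚ_[q])) + 3 * M := by ring
      rw [this]
      exact nadd hX (nmul n3 hMi)
    have hy : ‖y‖ ≤ 1 := by
      have h1 : ‖2 * y‖ = ‖y‖ := by rw [norm_mul, n2', one_mul]
      rw [← h1]
      have : 2 * y = (2 * y + x + 1) - x - 1 := by ring
      rw [this]
      exact nsub (nsub hY.le hx) norm_one.le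
    refine ⟨hx, hy, ?_, ?_⟩
    · have h1 : ‖16 * ((((WD M).a₁ : ℤ) : ℚ_[q]) * y - (3 * x ^ 2 +
          2 * (((WD M).a₂ : ℤ) : ℚ_[q]) * x + (((WD M).a₄ : ℤ) : ℚ_[q])))‖ < 1 := by
        rw [e3]
        refine lsub (lmul n2'.le ?_) hF
        rw [norm_mul, n4, one_mul]
        exact hY
      rw [norm_mul, n16, one_mul] at h1
      exact h1
    · rw [c1, c3, one_mul]
      exact hY

/-- membership in `E⁰` -/
theorem mem_E0 (hM4 : M % 4 = 1) (hq2 : q ≠ 2) {P : PtP (WD M) q} {X Y : ℚ_[q]}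
    (hP : At (M : ℚ_[q]) P X Y) : P ∉ E0 (WD M) q ↔ ‖X‖ ≤ 1 ∧ ‖Y‖ < 1 ∧
      ‖3 * X ^ 2 + 82 * M * X + 400 * (M : ℚ_[q]) ^ 2‖ < 1 := by
  obtain ⟨x, y, h, rfl, rfl, rfl⟩ := hP
  rw [← sing_XY hM4 hq2, t_E0]
  constructor
  · intro h1
    push Not at h1
    obtain ⟨x', y', h', e, hs⟩ := h1
    injection e with e1 e2
    rw [e1, e2]
    exact hs
  · intro hs h1
    exact h1 x y h rfl hs

/-- the six facts about the primes which divide the twist -/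
structure BadP (q : ℕ) [Fact q.Prime] (M : ℤ) : Prop where
  M4 : M % 4 = 1
  q2 : q ≠ 2
  q3 : q ≠ 3
  q5 : q ≠ 5
  nM : ‖(M : ℚ_[q])‖ = (q : ℝ)⁻¹

theorem BadP.of (hM4 : M % 4 = 1) (h2 : q ≠ 2) (h3 : q ≠ 3) (h5 : q ≠ 5) (h : (q : ℤ) ∣ M)
    (hs : Squarefree M) : BadP q M := by
  refine ⟨hM4, h2, h3, h5, norm_M q h fun hd => ?_⟩
  rw [pow_two] at hd
  have h1 := hs _ hd
  rw [Int.isUnit_iff] at h1
  have h4 := (Fact.out : q.Prime).one_lt
  omega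

variable (H : BadP q M)

include H

theorem BadP.small {c : ℕ} (hc : q.Coprime c) : ‖((c : ℕ) : ℚ_[q])‖ = 1 := norm_nat_eq_one q hc

theorem BadP.u16 : ‖(16 : ℚ_[q])‖ = 1 := norm16 H.q2

theorem BadP.u25 : ‖(25 : ℚ_[q])‖ = 1 := by
  have : Nat.Coprime q (5 ^ 2) :=
    Nat.Coprime.pow_right _ ((Nat.coprime_primes Fact.out (by norm_num)).2 H.q5)
  exact_mod_cast norm_nat_eq_one q this

theorem BadP.u9 : ‖(9 : ℚ_[q])‖ = 1 := by
  have : Nat.Coprime q (3 ^ 2) :=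
    Nat.Coprime.pow_right _ ((Nat.coprime_primes Fact.out (by norm_num)).2 H.q3)
  exact_mod_cast norm_nat_eq_one q this

/-- at a prime which divides the twist the points outside `E⁰` are those with `|X| < 1` -/
theorem BadP.mem {P : PtP (WD M) q} {X Y : ℚ_[q]} (hP : At (M : ℚ_[q]) P X Y) :
    P ∉ E0 (WD M) q ↔ ‖X‖ < 1 := by
  have hW := isWD (K := ℚ_[q]) M H.M4
  have he := hP.eqn hW
  have hm := M_lt H.nM
  have i16 : ‖(16 : ℚ_[q])‖ ≤ 1 := H.u16.le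
  have i25 : ‖(25 : ℚ_[q])‖ ≤ 1 := H.u25.le
  have i41 : ‖(41 : ℚ_[q])‖ ≤ 1 := by exact_mod_cast nnat (K := ℚ_[q]) 41
  have i82 : ‖(82 : ℚ_[q])‖ ≤ 1 := by exact_mod_cast nnat (K := ℚ_[q]) 82
  have i400 : ‖(400 : ℚ_[q])‖ ≤ 1 := by exact_mod_cast nnat (K := ℚ_[q]) 400
  rw [mem_E0 H.M4 H.q2 hP]
  constructor
  · rintro ⟨hX, hY, -⟩
    have h3 : ‖X ^ 3‖ < 1 := by
      have e : X ^ 3 = Y * Y - (41 * X ^ 2 + 400 * M * X) * M := by
        linear_combination -he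
      rw [e]
      exact lsub (lmul hY.le hY) (lmul (nadd (nmul i41 (npow hX 2)) (nmul (nmul i400 hm.le) hX)) hm)
    rw [norm_pow] at h3
    by_contra h
    rw [not_lt] at h
    have := one_le_pow₀ h (n := 3)
    linarith
  · intro hX
    refine ⟨hX.le, ?_, ?_⟩
    · have h1 : ‖Y ^ 2‖ < 1 := by
        rw [he]
        exact lmul' (lmul' hX (nadd hX.le (nmul i16 hm.le))) (nadd hX.le (nmul i25 hm.le))
      rw [norm_pow] at h1
      by_contra h
      rw [not_lt] at h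
      have := one_le_pow₀ h (n := 2)
      linarith
    · have hm2 : ‖(M : ℚ_[q]) ^ 2‖ < 1 := by
        rw [pow_two]
        exact lmul hm.le hm
      have hX2 : ‖X ^ 2‖ < 1 := by
        rw [pow_two]
        exact lmul hX.le hX
      exact ladd (ladd (lmul n3 hX2) (lmul (nmul i82 hm.le) hX)) (lmul i400 hm2)

theorem BadP.tam : tam (WD M) q = 4 := by
  have hW := isWD (K := ℚ_[q]) M H.M4
  have hm := M_lt H.nM
  have hm0 := M_ne H.nM
  have hmp := M_pos H.nM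
  have h2 : (2 : ℚ_[q]) ≠ 0 := two_ne_zero
  have h30 : (30 : ℚ_[q]) ≠ 0 := by norm_num
  obtain ⟨T0, hT0⟩ := exists_pt hW h2 h30 hm0 (X := 0) (Y := 0) (by ring)
  obtain ⟨T1, hT1⟩ := exists_pt hW h2 h30 hm0 (X := M * (-16)) (Y := 0) (by ring)
  obtain ⟨T2, hT2⟩ := exists_pt hW h2 h30 hm0 (X := M * (-25)) (Y := 0) (by ring)
  have a0 := two_tors hW h2 hT0
  have a1 := two_tors hW h2 hT1
  have a2 := two_tors hW h2 hT2
  have i16 : ‖(-16 : ℚ_[q])‖ ≤ 1 := by rw [norm_neg]; exact H.u16.le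
  have i25 : ‖(-25 : ℚ_[q])‖ ≤ 1 := by rw [norm_neg]; exact H.u25.le
  have b0 : T0 ∉ E0 (WD M) q := (H.mem hT0).2 (by rw [norm_zero]; norm_num)
  have b1 : T1 ∉ E0 (WD M) q := (H.mem hT1).2 (lmul' hm i16)
  have b2 : T2 ∉ E0 (WD M) q := (H.mem hT2).2 (lmul' hm i25)
  -- the sums
  have key : ∀ (e e' e'' : ℚ_[q]) (T T' T'' : PtP (WD M) q), At (M : ℚ_[q]) T (M * e) 0 →
      At (M : ℚ_[q]) T' (M * e') 0 → T'' ∉ E0 (WD M) q → At (M : ℚ_[q]) T'' (M * e'') 0 → e ≠ e' →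
      (e'' - e') * (e - e') = 3 * e' ^ 2 + 82 * e' + 400 → T + T' ∉ E0 (WD M) q := by
    intro e e' e'' T T' T'' h h' hn h'' hne hr
    obtain ⟨X3, Y3, h3, h4⟩ := h.addT hW h2 h' (fun hh => hne (mul_left_cancel₀ hm0 hh))
    have h5 : X3 = M * e'' := by
      have h6 : (X3 - M * e'') * (M * (e - e')) = 0 := by
        linear_combination h4 - (M : ℚ_[q]) ^ 2 * hr
      have h7 : (M : ℚ_[q]) * (e - e') ≠ 0 := mul_ne_zero hm0 (sub_ne_zero.2 hne)
      exact sub_eq_zero.1 ((mul_eq_zero.1 h6).resolve_right h7)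
    rw [H.mem h3, h5]
    exact (H.mem h'').1 hn
  have m01 : T0 + T1 ∉ E0 (WD M) q := key 0 (-16) (-25) T0 T1 T2 (by rw [mul_zero]; exact hT0) hT1 b2
    hT2 (by norm_num) (by norm_num)
  have m02 : T0 + T2 ∉ E0 (WD M) q := key 0 (-25) (-16) T0 T2 T1 (by rw [mul_zero]; exact hT0) hT2 b1
    hT1 (by norm_num) (by norm_num)
  have m12 : T1 + T2 ∉ E0 (WD M) q := key (-16) (-25) 0 T1 T2 T0 hT1 hT2 b0
    (by rw [mul_zero]; exact hT0) (by norm_num) (by norm_num)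
  have m10 : T1 + T0 ∉ E0 (WD M) q := by rwa [add_comm]
  have m20 : T2 + T0 ∉ E0 (WD M) q := by rwa [add_comm]
  have m21 : T2 + T1 ∉ E0 (WD M) q := by rwa [add_comm]
  -- translation
  have tr : ∀ (r t Y : ℚ_[q]) (P T : PtP (WD M) q), ‖3 * r ^ 2 + 82 * r + 400‖ = 1 → ‖r‖ ≤ 1 →
      At (M : ℚ_[q]) P (M * t) Y → At (M : ℚ_[q]) T (M * r) 0 → ‖t - r‖ < 1 →
      r * (r + 16) * (r + 25) = 0 → P + T ∈ E0 (WD M) q := by
    intro r t Y P T hr hr1 hP hT htr hroot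
    by_cases he : t = r
    · have hY : Y = 0 := by
        have h3 := hP.eqn hW
        rw [he] at h3
        have h4 : Y ^ 2 = 0 := by
          rw [h3]
          linear_combination (M : ℚ_[q]) ^ 3 * hroot
        exact pow_eq_zero_iff two_ne_zero |>.1 h4
      rw [hY, he] at hP
      rw [hP.ext h2 hT, two_tors hW h2 hT]
      exact AddSubgroup.zero_mem _
    · obtain ⟨X3, Y3, h3, h4⟩ := hP.addT hW h2 hT (fun hh => he (mul_left_cancel₀ hm0 hh))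
      have htr0 : t - r ≠ 0 := sub_ne_zero.2 he
      have e5 : (X3 - M * r) * (t - r) = M * (3 * r ^ 2 + 82 * r + 400) := by
        apply mul_left_cancel₀ hm0
        linear_combination h4
      have e6 : ‖X3 - M * r‖ * ‖t - r‖ = (q : ℝ)⁻¹ := by
        rw [← norm_mul, e5, norm_mul, hr, mul_one, H.nM]
      by_contra hcon
      have h5 := (H.mem h3).1 hcon
      have h6 : ‖X3 - M * r‖ < 1 := lsub h5 (lmul' hm hr1)
      have h7 := norm_le_inv q htr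
      have h8 : 0 < ‖t - r‖ := norm_pos_iff.2 htr0
      have h9 : ‖X3 - M * r‖ * ‖t - r‖ < 1 * ‖t - r‖ := mul_lt_mul_of_pos_right h6 h8
      rw [e6, one_mul] at h9
      exact absurd h7 (not_le.2 h9)
  have p0 : ‖3 * (0 : ℚ_[q]) ^ 2 + 82 * 0 + 400‖ = 1 := by
    have : 3 * (0 : ℚ_[q]) ^ 2 + 82 * 0 + 400 = 16 * 25 := by norm_num
    rw [this, norm_mul, H.u16, H.u25, one_mul]
  have p1 : ‖3 * (-16 : ℚ_[q]) ^ 2 + 82 * (-16) + 400‖ = 1 := by
    have : 3 * (-16 : ℚ_[q]) ^ 2 + 82 * (-16) + 400 = -(16 * 9) := by norm_num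
    rw [this, norm_neg, norm_mul, H.u16, H.u9, one_mul]
  have p2 : ‖3 * (-25 : ℚ_[q]) ^ 2 + 82 * (-25) + 400‖ = 1 := by
    have : 3 * (-25 : ℚ_[q]) ^ 2 + 82 * (-25) + 400 = 25 * 9 := by norm_num
    rw [this, norm_mul, H.u25, H.u9, one_mul]
  rw [Pool.Agent.Y700.tam]
  apply index_of (E0 (WD M) q) ![0, T0, T1, T2]
  · intro i
    fin_cases i
    · exact add_zero _
    · exact a0
    · exact a1
    · exact a2
  · intro P
    by_cases hP : P ∈ E0 (WD M) q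
    · exact ⟨0, by simpa using hP⟩
    have hP0 : P ≠ 0 := fun h0 => hP (by rw [h0]; exact zero_mem _)
    obtain ⟨X, Y, hat⟩ := exists_at (M : ℚ_[q]) hP0
    have hX := (H.mem hat).1 hP
    obtain ⟨t, rfl⟩ : ∃ t : ℚ_[q], X = M * t := ⟨X / M, by rw [mul_div_cancel₀ _ hm0]⟩
    have ht1 : ‖t‖ ≤ 1 := by
      have h1 := norm_le_inv q hX
      rw [norm_mul, ← H.nM] at h1
      by_contra h
      rw [not_le] at h
      nlinarith
    have he := hat.eqn hW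
    have ht2 : ‖t * (t + 16) * (t + 25)‖ < 1 := by
      have h3 : ‖t * (t + 16) * (t + 25)‖ ≤ 1 :=
        nmul (nmul ht1 (nadd ht1 H.u16.le)) (nadd ht1 H.u25.le)
      refine lt_of_le_of_ne h3 fun h4 => ?_
      apply parity q Y
      rw [← norm_pow, he, ← H.nM]
      have e : (M : ℚ_[q]) * t * (M * t + 16 * M) * (M * t + 25 * M) =
        M ^ 3 * (t * (t + 16) * (t + 25)) := by ring
      rw [e, norm_mul, h4, mul_one, norm_pow]
    have hor : ‖t - 0‖ < 1 ∨ ‖t - (-16)‖ < 1 ∨ ‖t - (-25)‖ < 1 := by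
      by_contra hcon
      rw [not_or, not_or, not_lt, not_lt, not_lt] at hcon
      obtain ⟨g3, g4, g5⟩ := hcon
      have : t * (t + 16) * (t + 25) = (t - 0) * ((t - (-16)) * (t - (-25))) := by ring
      rw [this, norm_mul, norm_mul] at ht2
      have h5 : 1 ≤ ‖t - (-16)‖ * ‖t - (-25)‖ := one_le_mul_of_one_le_of_one_le g4 g5
      have h6 := one_le_mul_of_one_le_of_one_le g3 h5
      linarith
    rcases hor with h3 | h3 | h3
    · exact ⟨1, tr 0 t Y P T0 p0 (by rw [norm_zero]; norm_num) hat (by rw [mul_zero]; exact hT0) h3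
        (by norm_num)⟩
    · exact ⟨2, tr (-16) t Y P T1 p1 i16 hat hT1 h3 (by norm_num)⟩
    · exact ⟨3, tr (-25) t Y P T2 p2 i25 hat hT2 h3 (by norm_num)⟩
  · intro i j hij
    fin_cases i <;> fin_cases j <;> first | rfl | (exfalso; simp at hij; first | exact b0 hij | exact b1 hij | exact b2 hij | exact m01 hij | exact m02 hij | exact m12 hij | exact m10 hij | exact m20 hij | exact m21 hij)

end

end Pool.Agent.H464.XB.T
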