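import Pool.Agent.H464.XB.TamA

/-!
# Twists of `X_0(15)`: the rational torsion points
-/

set_option autoImplicit false
set_option linter.all false

open scoped Classical

open WeierstrassCurve

namespace Pool.Agent.H464.XB.T

open Pool.Agent.H757_X15 (WD)
open Pool.Agent.Y809.BSD14

/-- the curve over `ℚ` -/
abbrev EQ (M : ℤ) : WeierstrassCurve ℚ := (WD M).map (Int.castRingHom ℚ)

section

variable {M : ℤ}

theorem d_n2 : ‖(2 : ℚ_[2])‖ = 1 / 2 := by
  have := Padic.norm_p (p := 2)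
  simpa using this

theorem d_n4 : ‖(4 : ℚ_[2])‖ = 1 / 4 := by
  have : (4 : ℚ_[2]) = 2 ^ 2 := by norm_num
  rw [this, norm_pow, d_n2]
  norm_num

theorem d_n16 : ‖(16 : ℚ_[2])‖ = 1 / 16 := by
  have : (16 : ℚ_[2]) = 2 ^ 4 := by norm_num
  rw [this, norm_pow, d_n2]
  norm_num

theorem d_n25 : ‖(25 : ℚ_[2])‖ = 1 := by
  exact_mod_cast unit_int (q := 2) (n := 25) (by norm_num)

theorem d_nM (hM : M % 4 = 1) : ‖(M : ℚ_[2])‖ = 1 := unit_int (q := 2) (by push_cast; omega)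

theorem d_lt {x : ℚ_[2]} (h : ‖x‖ < 1) : ‖x‖ ≤ 1 / 2 := by
  have := norm_le_inv 2 h
  simpa using this

theorem d_add {a b : ℚ_[2]} (h : ‖b‖ < ‖a‖) : ‖a + b‖ = ‖a‖ := norm_eq_of_lt h

theorem d_odd {x y : ℚ_[2]} (hx : ‖x‖ = 1) (hy : ‖y‖ = 1) : ‖x + y‖ ≤ 1 / 2 := by
  obtain ⟨a, rfl⟩ : ∃ a : ℤ_[2], (a : ℚ_[2]) = x := ⟨⟨x, hx.le⟩, rfl⟩
  obtain ⟨b, rfl⟩ : ∃ b : ℤ_[2], (b : ℚ_[2]) = y := ⟨⟨y, hy.le⟩, rfl⟩
  apply d_lt
  have key : ∀ s t : ZMod 2, s ≠ 0 → t ≠ 0 → s + t = 0 := by decide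
  have ha : PadicInt.toZMod a ≠ 0 := by
    intro h
    have := toZMod_eq_zero.1 h
    rw [PadicInt.norm_def] at this
    linarith
  have hb : PadicInt.toZMod b ≠ 0 := by
    intro h
    have := toZMod_eq_zero.1 h
    rw [PadicInt.norm_def] at this
    linarith
  have h1 : PadicInt.toZMod (a + b) = 0 := by rw [map_add]; exact key _ _ ha hb
  have h2 := toZMod_eq_zero.1 h1
  rw [PadicInt.norm_def] at h2
  push_cast at h2
  exact h2

/-- a point with `|X|₂ > 1` has infinite order -/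
theorem big_pt (hM : M % 4 = 1) {P : (EQ M).toAffine.Point} {X Y : ℚ} (hP : At (M : ℚ) P X Y)
    (hX : 1 < ‖(X : ℚ_[2])‖) : ¬ IsOfFinAddOrder P := by
  have hW := isWD (K := ℚ) M hM
  have h2 : (2 : ℚ) ≠ 0 := two_ne_zero
  have hm := d_nM hM
  have n400 : ‖(400 : ℚ_[2])‖ ≤ 1 := by exact_mod_cast nnat (K := ℚ_[2]) 400
  -- one step
  have step : ∀ (P : (EQ M).toAffine.Point) (X Y : ℚ), At (M : ℚ) P X Y → 1 < ‖(X : ℚ_[2])‖ →
      ∃ X' Y' : ℚ, At (M : ℚ) (P + P) X' Y' ∧ ‖(X' : ℚ_[2])‖ = 4 * ‖(X : ℚ_[2])‖ := by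
    intro P X Y hP hX
    have he := hP.eqn hW
    have heP : (Y : ℚ_[2]) ^ 2 = X * (X + 16 * M) * (X + 25 * M) := by exact_mod_cast he
    have h16 : ‖(16 : ℚ_[2]) * M‖ < ‖(X : ℚ_[2])‖ := by
      rw [norm_mul, hm, d_n16]
      linarith
    have h25 : ‖(25 : ℚ_[2]) * M‖ < ‖(X : ℚ_[2])‖ := by
      rw [norm_mul, hm, d_n25]
      linarith
    have hY2 : ‖(Y : ℚ_[2])‖ ^ 2 = ‖(X : ℚ_[2])‖ ^ 3 := by
      rw [← norm_pow, heP, norm_mul, norm_mul, d_add h16, d_add h25]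
      ring
    have hXp : 0 < ‖(X : ℚ_[2])‖ := by linarith
    have hY0 : (Y : ℚ_[2]) ≠ 0 := by
      intro h
      rw [h, norm_zero] at hY2
      have : 0 < ‖(X : ℚ_[2])‖ ^ 3 := by positivity
      rw [← hY2] at this
      norm_num at this
    have hYq : Y ≠ 0 := by
      intro h
      apply hY0
      rw [h, Rat.cast_zero]
    obtain ⟨Y', h'⟩ := hP.dbl hW h2 hYq
    refine ⟨_, Y', h', ?_⟩
    push_cast
    rw [norm_div, norm_pow, norm_mul, norm_pow, d_n4, hY2]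
    have h3 : ‖(X : ℚ_[2]) ^ 2 - 400 * (M : ℚ_[2]) ^ 2‖ = ‖(X : ℚ_[2])‖ ^ 2 := by
      rw [← norm_pow, sub_eq_add_neg]
      apply d_add
      rw [norm_neg, norm_mul, norm_pow, hm, norm_pow]
      nlinarith
    rw [h3]
    field_simp
  have all : ∀ n : ℕ, ∃ X' Y' : ℚ, At (M : ℚ) (2 ^ n • P) X' Y' ∧
      ‖(X' : ℚ_[2])‖ = 4 ^ n * ‖(X : ℚ_[2])‖ := by
    intro n
    induction n with
    | zero => exact ⟨X, Y, by rw [pow_zero, one_nsmul]; exact hP, by rw [pow_zero, one_mul]⟩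
    | succ n ih =>
      obtain ⟨X1, Y1, h3, h4⟩ := ih
      have h5 : 1 < ‖(X1 : ℚ_[2])‖ := by
        rw [h4]
        have : (1 : ℝ) ≤ 4 ^ n := one_le_pow₀ (by norm_num)
        nlinarith
      obtain ⟨X2, Y2, h6, h7⟩ := step _ _ _ h3 h5
      refine ⟨X2, Y2, ?_, ?_⟩
      · rw [pow_succ, mul_nsmul, two_nsmul]
        exact h6
      · rw [h7, h4, pow_succ]
        ring
  intro hfin
  have hf : (AddSubmonoid.multiples P : Set (EQ M).toAffine.Point).Finite :=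
    finite_multiples.2 hfin
  refine Set.infinite_of_injective_forall_mem (f := fun n : ℕ => 2 ^ n • P) ?_ ?_ hf
  · intro a b hab
    simp only at hab
    obtain ⟨X1, Y1, h1, e1⟩ := all a
    obtain ⟨X2, Y2, h3, e2⟩ := all b
    rw [hab] at h1
    have h4 := (h1.unique h3).1
    rw [h4, e2] at e1
    have h5 : (0 : ℝ) < ‖(X : ℚ_[2])‖ := by linarith
    have h6 : (4 : ℝ) ^ b = 4 ^ a := mul_right_cancel₀ h5.ne' e1
    exact (pow_right_injective₀ (by norm_num : (0 : ℝ) < 4) (by norm_num) h6).symm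
  · intro n
    exact ⟨2 ^ n, rfl⟩

/-- the abscissa of a double is a square -/
theorem dbl_sq (hM : M % 4 = 1) {P : (EQ M).toAffine.Point} {X Y : ℚ} (hP : At (M : ℚ) P X Y)
    (hY : Y ≠ 0) : ∃ Y', At (M : ℚ) (P + P) (((X ^ 2 - 400 * M ^ 2) / (2 * Y)) ^ 2) Y' := by
  have hW := isWD (K := ℚ) M hM
  obtain ⟨Y', h'⟩ := hP.dbl hW two_ne_zero hY
  refine ⟨Y', ?_⟩
  have e : ((X ^ 2 - 400 * (M : ℚ) ^ 2) / (2 * Y)) ^ 2 = (X ^ 2 - 400 * M ^ 2) ^ 2 / (4 * Y ^ 2) := by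
    field_simp
    norm_num
  rw [e]
  exact h'

/-- a point with `|X|₂ = 1` which is not of order two has infinite order -/
theorem unit_pt (hM : M % 4 = 1) {P : (EQ M).toAffine.Point} {X Y : ℚ} (hP : At (M : ℚ) P X Y)
    (hX : ‖(X : ℚ_[2])‖ = 1) (hY : Y ≠ 0) : ¬ IsOfFinAddOrder P := by
  have hW := isWD (K := ℚ) M hM
  have hm := d_nM hM
  have he := hP.eqn hW
  have heP : (Y : ℚ_[2]) ^ 2 = X * (X + 16 * M) * (X + 25 * M) := by exact_mod_cast he
  have h16 : ‖(16 : ℚ_[2]) * M‖ < ‖(X : ℚ_[2])‖ := by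
    rw [norm_mul, hm, d_n16, hX]
    norm_num
  have hY0 : (Y : ℚ_[2]) ≠ 0 := by exact_mod_cast hY
  have h25 : ‖(25 : ℚ_[2]) * M‖ = 1 := by rw [norm_mul, hm, d_n25, one_mul]
  have hY2 : ‖(Y : ℚ_[2])‖ ^ 2 ≤ 1 / 2 := by
    rw [← norm_pow, heP, norm_mul, norm_mul, d_add h16, hX, one_mul, one_mul]
    exact d_odd hX h25
  obtain ⟨Y', h'⟩ := hP.dbl hW two_ne_zero hY
  have hb : 1 < ‖(((X ^ 2 - 400 * (M : ℚ) ^ 2) ^ 2 / (4 * Y ^ 2) : ℚ) : ℚ_[2])‖ := by
    push_cast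
    rw [norm_div, norm_pow, norm_mul, norm_pow, d_n4]
    have h3 : ‖(X : ℚ_[2]) ^ 2 - 400 * (M : ℚ_[2]) ^ 2‖ = 1 := by
      rw [sub_eq_add_neg]
      have h4 : ‖(X : ℚ_[2]) ^ 2‖ = 1 := by rw [norm_pow, hX, one_pow]
      rw [d_add, h4]
      rw [norm_neg, norm_mul, norm_pow, hm, h4]
      have : (400 : ℚ_[2]) = 16 * 25 := by norm_num
      rw [this, norm_mul, d_n16, d_n25]
      norm_num
    rw [h3]
    have h5 : 0 < ‖(Y : ℚ_[2])‖ ^ 2 := by positivity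
    rw [lt_div_iff₀ (by positivity)]
    linarith
  intro hfin
  refine big_pt hM h' hb ?_
  rw [← two_nsmul]
  exact hfin.nsmul

/-- the rational points of finite order have order at most two -/
theorem two_of_tors (hM : M % 4 = 1) (hsq : ¬ IsSquare (M : ℚ)) (hsq' : ¬ IsSquare (-M : ℚ))
    {P : (EQ M).toAffine.Point} (hfin : IsOfFinAddOrder P) : P + P = 0 := by
  have hW := isWD (K := ℚ) M hM
  have h2 : (2 : ℚ) ≠ 0 := two_ne_zero
  have hm := d_nM hM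
  have hMQ' : (M : ℚ) ≠ 0 := by
    have : M ≠ 0 := by omega
    exact_mod_cast this
  by_cases hP0 : P = 0
  · rw [hP0, add_zero]
  obtain ⟨X, Y, hP⟩ := exists_at (M : ℚ) hP0
  by_cases hY : Y = 0
  · rw [hY] at hP
    exact two_tors hW h2 hP
  exfalso
  have hfin2 : IsOfFinAddOrder (P + P) := by
    rw [← two_nsmul]
    exact hfin.nsmul
  have he := hP.eqn hW
  have heP : (Y : ℚ_[2]) ^ 2 = X * (X + 16 * M) * (X + 25 * M) := by exact_mod_cast he
  have hYp : (Y : ℚ_[2]) ≠ 0 := by exact_mod_cast hY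
  obtain ⟨Y', hD⟩ := hP.dbl hW h2 hY
  obtain ⟨Y'', hD2⟩ := dbl_sq hM hP hY
  obtain ⟨Z, hZ⟩ : ∃ Z : ℚ, Z = (X ^ 2 - 400 * (M : ℚ) ^ 2) ^ 2 / (4 * Y ^ 2) := ⟨_, rfl⟩
  obtain ⟨R, hR⟩ : ∃ R : ℚ, R = (X ^ 2 - 400 * (M : ℚ) ^ 2) / (2 * Y) := ⟨_, rfl⟩
  rw [← hZ] at hD
  rw [← hR] at hD2
  have hZR : Z = R ^ 2 := (hD.unique hD2).1
  have nZ : ‖(Z : ℚ_[2])‖ = ‖(X : ℚ_[2]) ^ 2 - 400 * (M : ℚ_[2]) ^ 2‖ ^ 2 /
      (1 / 4 * ‖(Y : ℚ_[2])‖ ^ 2) := by
    rw [hZ]
    push_cast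
    rw [norm_div, norm_pow, norm_mul, norm_pow, d_n4]
  have nZ' : ‖(Z : ℚ_[2])‖ * (1 / 4 * ‖(Y : ℚ_[2])‖ ^ 2) =
      ‖(X : ℚ_[2]) ^ 2 - 400 * (M : ℚ_[2]) ^ 2‖ ^ 2 := by
    rw [nZ]
    have : 0 < ‖(Y : ℚ_[2])‖ ^ 2 := by positivity
    field_simp
  have n400 : ‖(400 : ℚ_[2]) * M ^ 2‖ = 1 / 16 := by
    have : (400 : ℚ_[2]) = 16 * 25 := by norm_num
    rw [this, norm_mul, norm_pow, hm, norm_mul, d_n16, d_n25]
    norm_num
  have n16 : ‖(16 : ℚ_[2]) * M‖ = 1 / 16 := by rw [norm_mul, hm, d_n16, mul_one]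
  have n25 : ‖(25 : ℚ_[2]) * M‖ = 1 := by rw [norm_mul, hm, d_n25, mul_one]
  have hYpos : 0 < ‖(Y : ℚ_[2])‖ ^ 2 := by positivity
  -- the double is not a point with `|Z| > 1`
  have hZ1 : ‖(Z : ℚ_[2])‖ ≤ 1 := by
    by_contra h
    exact big_pt hM hD (not_le.1 h) hfin2
  -- `Z` is not the abscissa of a point of order two
  have hZ0 : Z ≠ 0 := by
    intro h0
    have h1 : X ^ 2 = 400 * (M : ℚ) ^ 2 := by
      rw [h0] at hZ
      have h3 : (4 * Y ^ 2 : ℚ) ≠ 0 := by positivity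
      have h4 : (X ^ 2 - 400 * (M : ℚ) ^ 2) ^ 2 = 0 := by
        rw [eq_div_iff h3, zero_mul] at hZ
        exact hZ.symm
      have h5 := pow_eq_zero_iff (two_ne_zero) |>.1 h4
      linarith
    have h3 : (X - 20 * M) * (X + 20 * M) = 0 := by linear_combination h1
    rcases mul_eq_zero.1 h3 with h | h
    · have h4 : X = 20 * M := by linarith
      apply hsq
      refine ⟨Y / (180 * M), ?_⟩
      rw [h4] at he
      have h5 : (M : ℚ) ≠ 0 := hMQ'
      field_simp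
      linear_combination -he
    · have h4 : X = -20 * M := by linarith
      apply hsq
      refine ⟨Y / (20 * M), ?_⟩
      rw [h4] at he
      have h5 : (M : ℚ) ≠ 0 := hMQ'
      field_simp
      linear_combination -he
  have hZpos : 0 < Z := by
    rw [hZR] at hZ0 ⊢
    positivity
  have hY' : Y' ≠ 0 := by
    intro h0
    rw [h0] at hD
    have h1 := hD.eqn hW
    have h3 : Z * ((Z + 16 * M) * (Z + 25 * M)) = 0 := by linear_combination -h1
    rcases mul_eq_zero.1 ((mul_eq_zero.1 h3).resolve_left hZ0) with h | h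
    · apply hsq'
      refine ⟨R / 4, ?_⟩
      rw [hZR] at h
      linear_combination (-1 / 16) * h
    · apply hsq'
      refine ⟨R / 5, ?_⟩
      rw [hZR] at h
      linear_combination (-1 / 25) * h
  -- hence `|Z| < 1`
  have hZlt : ‖(Z : ℚ_[2])‖ < 1 := by
    refine lt_of_le_of_ne hZ1 fun h => ?_
    exact unit_pt hM hD h hY' hfin2
  have hZh := d_lt hZlt
  -- the valuation of `X`
  rcases lt_trichotomy ‖(X : ℚ_[2])‖ 1 with hX | hX | hX
  swap
  · exact unit_pt hM hP hX hY hfin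
  swap
  · exact big_pt hM hP hX hfin
  have u25 : ‖(X : ℚ_[2]) + 25 * M‖ = 1 := by
    rw [add_comm, d_add (by rw [n25]; exact hX), n25]
  have hY2 : ‖(Y : ℚ_[2])‖ ^ 2 = ‖(X : ℚ_[2])‖ * ‖(X : ℚ_[2]) + 16 * M‖ := by
    rw [← norm_pow, heP, norm_mul, norm_mul, u25, mul_one]
  rcases lt_trichotomy ‖(X : ℚ_[2])‖ (1 / 16) with hX6 | hX6 | hX6
  · -- `v(X) ≥ 5`
    have h3 : ‖(X : ℚ_[2]) + 16 * M‖ = 1 / 16 := by
      rw [add_comm, d_add (by rw [n16]; exact hX6), n16]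
    have h4 : ‖(X : ℚ_[2]) ^ 2 - 400 * (M : ℚ_[2]) ^ 2‖ = 1 / 16 := by
      rw [sub_eq_add_neg, add_comm, d_add, norm_neg, n400]
      rw [norm_neg, n400, norm_pow]
      nlinarith [norm_nonneg (X : ℚ_[2])]
    rw [hY2, h3, h4] at nZ'
    have hX0 := norm_nonneg (X : ℚ_[2])
    have hZ00 := norm_nonneg (Z : ℚ_[2])
    nlinarith
  · -- `v(X) = 4`
    have h3 : ‖(X : ℚ_[2]) + 16 * M‖ ≤ 1 / 16 := by
      have := IsUltrametricDist.norm_add_le_max (X : ℚ_[2]) (16 * M)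
      rw [hX6, n16, max_self] at this
      exact this
    have h4 : ‖(X : ℚ_[2]) ^ 2 - 400 * (M : ℚ_[2]) ^ 2‖ = 1 / 16 := by
      rw [sub_eq_add_neg, add_comm, d_add, norm_neg, n400]
      rw [norm_neg, n400, norm_pow, hX6]
      norm_num
    rw [hY2, h4, hX6] at nZ'
    have hZ00 := norm_nonneg (Z : ℚ_[2])
    have h5 := norm_nonneg ((X : ℚ_[2]) + 16 * M)
    nlinarith
  · -- `v(X) ≤ 3`
    have h3 : ‖(X : ℚ_[2]) + 16 * M‖ = ‖(X : ℚ_[2])‖ := d_add (by rw [n16]; exact hX6)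
    rw [h3] at hY2
    have hXpos : 0 < ‖(X : ℚ_[2])‖ := by linarith
    -- the three cases
    have hXne : (X : ℚ_[2]) ≠ 0 := norm_pos_iff.1 hXpos
    have hcase : ‖(X : ℚ_[2])‖ = 1 / 2 ∨ ‖(X : ℚ_[2])‖ = 1 / 4 ∨ ‖(X : ℚ_[2])‖ = 1 / 8 := by
      rw [Padic.norm_eq_zpow_neg_valuation hXne] at hX hX6 ⊢
      obtain ⟨v, hv⟩ : ∃ v : ℤ, v = (X : ℚ_[2]).valuation := ⟨_, rfl⟩
      rw [← hv] at hX hX6 ⊢
      have h5 : (0 : ℤ) < v := by
        by_contra hcon
        have : (1 : ℝ) ≤ ((2 : ℕ) : ℝ) ^ (-v) := one_le_zpow₀ (by norm_num) (by omega)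
        linarith
      have h6 : v < 4 := by
        by_contra hcon
        have : ((2 : ℕ) : ℝ) ^ (-v) ≤ ((2 : ℕ) : ℝ) ^ (-4 : ℤ) :=
          zpow_le_zpow_right₀ (by norm_num) (by omega)
        norm_num at this hX6
        linarith
      have h7 : v = 1 ∨ v = 2 ∨ v = 3 := by omega
      rcases h7 with h | h | h <;> rw [h] <;> norm_num
    rcases hcase with h | h | h
    · -- `v(X) = 1`
      have h4 : ‖(X : ℚ_[2]) ^ 2 - 400 * (M : ℚ_[2]) ^ 2‖ = 1 / 4 := by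
        rw [sub_eq_add_neg, d_add]
        · rw [norm_pow, h]; norm_num
        · rw [norm_neg, n400, norm_pow, h]; norm_num
      rw [hY2, h4, h] at nZ'
      linarith
    · -- `v(X) = 2`: the double has valuation at least eight
      have h5 : ∃ x' : ℚ_[2], (X : ℚ_[2]) = 4 * x' ∧ ‖x'‖ = 1 := by
        refine ⟨X / 4, by rw [mul_div_cancel₀]; norm_num, ?_⟩
        rw [norm_div, h, d_n4]
        norm_num
      obtain ⟨x', hx', hx1⟩ := h5
      have n5 : ‖(5 : ℚ_[2]) * M‖ = 1 := by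
        have : ‖(5 : ℚ_[2])‖ = 1 := by exact_mod_cast unit_int (q := 2) (n := 5) (by norm_num)
        rw [norm_mul, hm, this, mul_one]
      have h4 : ‖(X : ℚ_[2]) ^ 2 - 400 * (M : ℚ_[2]) ^ 2‖ ≤ 1 / 64 := by
        have e : (X : ℚ_[2]) ^ 2 - 400 * (M : ℚ_[2]) ^ 2 = 16 * ((x' + 5 * M) * (x' + -(5 * M))) := by
          rw [hx']
          ring
        rw [e, norm_mul, norm_mul, d_n16]
        have h6 := d_odd hx1 n5
        have h7 := d_odd hx1 (by rw [norm_neg]; exact n5 : ‖-((5 : ℚ_[2]) * M)‖ = 1)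
        have h8 := norm_nonneg (x' + 5 * (M : ℚ_[2]))
        have h9 := norm_nonneg (x' + -(5 * (M : ℚ_[2])))
        nlinarith
      have h10 : ‖(Z : ℚ_[2])‖ ≤ 1 / 64 := by
        rw [hY2, h] at nZ'
        have h11 := norm_nonneg ((X : ℚ_[2]) ^ 2 - 400 * (M : ℚ_[2]) ^ 2)
        have h12 : ‖(X : ℚ_[2]) ^ 2 - 400 * (M : ℚ_[2]) ^ 2‖ ^ 2 ≤ (1 / 64) ^ 2 :=
          pow_le_pow_left₀ h11 h4 2
        nlinarith
      -- the double of the double
      have heD := hD.eqn hW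
      have heDp : (Y' : ℚ_[2]) ^ 2 = Z * (Z + 16 * M) * (Z + 25 * M) := by exact_mod_cast heD
      have g3 : ‖(Z : ℚ_[2]) + 16 * M‖ = 1 / 16 := by
        rw [add_comm, d_add (by rw [n16]; linarith), n16]
      have g4 : ‖(Z : ℚ_[2]) + 25 * M‖ = 1 := by
        rw [add_comm, d_add (by rw [n25]; linarith), n25]
      have g5 : ‖(Y' : ℚ_[2])‖ ^ 2 = ‖(Z : ℚ_[2])‖ * (1 / 16) := by
        rw [← norm_pow, heDp, norm_mul, norm_mul, g3, g4, mul_one]
      obtain ⟨Y3, hD3⟩ := hD.dbl hW h2 hY'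
      have hZn : 0 < ‖(Z : ℚ_[2])‖ := by
        rw [norm_pos_iff]
        exact_mod_cast hZ0
      refine big_pt hM hD3 ?_ (by rw [← two_nsmul]; exact hfin2.nsmul)
      push_cast
      rw [norm_div, norm_pow, norm_mul, norm_pow, d_n4, g5]
      have g6 : ‖(Z : ℚ_[2]) ^ 2 - 400 * (M : ℚ_[2]) ^ 2‖ = 1 / 16 := by
        rw [sub_eq_add_neg, add_comm, d_add, norm_neg, n400]
        rw [norm_neg, n400, norm_pow]
        nlinarith [norm_nonneg (Z : ℚ_[2])]
      rw [g6, lt_div_iff₀ (by positivity)]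
      linarith
    · -- `v(X) = 3`
      have h4 : ‖(X : ℚ_[2]) ^ 2 - 400 * (M : ℚ_[2]) ^ 2‖ = 1 / 16 := by
        rw [sub_eq_add_neg, add_comm, d_add, norm_neg, n400]
        rw [norm_neg, n400, norm_pow, h]
        norm_num
      rw [hY2, h4, h] at nZ'
      linarith

/-- the order of the torsion subgroup of the twist is four -/
theorem tors_card (hM : M % 4 = 1) (hsq : ¬ IsSquare (M : ℚ)) (hsq' : ¬ IsSquare (-M : ℚ)) :
    Nat.card (AddCommGroup.torsion (EQ M).toAffine.Point) = 4 := by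
  have hW := isWD (K := ℚ) M hM
  have h2 : (2 : ℚ) ≠ 0 := two_ne_zero
  have h30 : (30 : ℚ) ≠ 0 := by norm_num
  have hM0 : (M : ℚ) ≠ 0 := by
    have : M ≠ 0 := by omega
    exact_mod_cast this
  obtain ⟨T0, hT0⟩ := exists_pt hW h2 h30 hM0 (X := 0) (Y := 0) (by ring)
  obtain ⟨T1, hT1⟩ := exists_pt hW h2 h30 hM0 (X := -16 * M) (Y := 0) (by ring)
  obtain ⟨T2, hT2⟩ := exists_pt hW h2 h30 hM0 (X := -25 * M) (Y := 0) (by ring)
  have key : ((AddCommGroup.torsion (EQ M).toAffine.Point : AddSubgroup _) :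
      Set (EQ M).toAffine.Point) = (({0, T0, T1, T2} : Finset (EQ M).toAffine.Point) :
        Set (EQ M).toAffine.Point) := by
    ext P
    simp only [SetLike.mem_coe, Finset.coe_insert, Finset.coe_singleton, Set.mem_insert_iff,
      Set.mem_singleton_iff]
    constructor
    · intro hP
      have hfin : IsOfFinAddOrder P := hP
      have h3 := two_of_tors hM hsq hsq' hfin
      by_cases hP0 : P = 0
      · exact Or.inl hP0
      right
      obtain ⟨e, he, h4⟩ := ord_two hW h2 hP0 h3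
      rcases mul_eq_zero.1 h4 with h5 | h5
      · rcases mul_eq_zero.1 h5 with h6 | h6
        · left
          rw [h6] at he
          exact he.ext h2 hT0
        · right; left
          have h7 : e = -16 * M := by linarith
          rw [h7] at he
          exact he.ext h2 hT1
      · right; right
        have h7 : e = -25 * M := by linarith
        rw [h7] at he
        exact he.ext h2 hT2
    · have hall : ∀ (T : (EQ M).toAffine.Point), T + T = 0 → T ∈ (AddCommGroup.torsion _ :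
          AddSubgroup (EQ M).toAffine.Point) := by
        intro T hT
        show IsOfFinAddOrder T
        rw [isOfFinAddOrder_iff_nsmul_eq_zero]
        exact ⟨2, by norm_num, by rw [two_nsmul]; exact hT⟩
      rintro (rfl | rfl | rfl | rfl)
      · exact hall _ (add_zero _)
      · exact hall _ (two_tors hW h2 hT0)
      · exact hall _ (two_tors hW h2 hT1)
      · exact hall _ (two_tors hW h2 hT2)
  have n1 : (0 : (EQ M).toAffine.Point) ≠ T0 := hT0.ne_zero.symm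
  have n2 : (0 : (EQ M).toAffine.Point) ≠ T1 := hT1.ne_zero.symm
  have n3 : (0 : (EQ M).toAffine.Point) ≠ T2 := hT2.ne_zero.symm
  have n4 : T0 ≠ T1 := by
    intro h
    rw [h] at hT0
    have := (hT0.unique hT1).1
    apply hM0
    linarith
  have n5 : T0 ≠ T2 := by
    intro h
    rw [h] at hT0
    have := (hT0.unique hT2).1
    apply hM0
    linarith
  have n6 : T1 ≠ T2 := by
    intro h
    rw [h] at hT1
    have := (hT1.unique hT2).1
    apply hM0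
    linarith
  have hc : Nat.card (AddCommGroup.torsion (EQ M).toAffine.Point) =
      (({0, T0, T1, T2} : Finset (EQ M).toAffine.Point) : Set (EQ M).toAffine.Point).ncard := by
    rw [← key]
    rfl
  rw [hc, Set.ncard_coe_finset, Finset.card_insert_of_notMem, Finset.card_insert_of_notMem,
    Finset.card_insert_of_notMem, Finset.card_singleton]
  · simp only [Finset.mem_singleton]
    exact n6
  · simp only [Finset.mem_insert, Finset.mem_singleton, not_or]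
    exact ⟨n4, n5⟩
  · simp only [Finset.mem_insert, Finset.mem_singleton, not_or]
    exact ⟨n1, n2, n3⟩

end

end Pool.Agent.H464.XB.T
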